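import Pool.Agent.H63.VC5.CVDefs

/-!
# Stage 3, complex volume: combinatorics of the alternating chain `C(a_0, ..., a_R)`

Region `i`: pivot `P_i`, slopes `S_{i,0}, ..., S_{i,a_i}`; the edge with `idx + 1 = oa a i + k`,
`1 ≤ k ≤ a_i`, has the ends `P_i`, `S_{i,k}` (the pivot at the left if `lf b i`), behind it is
`S_{i,k-1}`. `P_{i+1} = S_{i,a_i}`, `S_{i+1,0} = P_i`, `S_{i+1,1} = S_{i,a_i+1}`.
-/

namespace Pool.Agent.S3.CV

open Pool.Agent.H63.VC Pool.Agent.H63.VC5 Complex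

/-- `a_0 + ... + a_{i-1}`. -/
def oa (a : ℕ → ℕ) (i : ℕ) : ℕ := ∑ j ∈ Finset.range i, a j

/-- The pivot of the region `i` is at the left end. -/
def lf (b : Bool) : ℕ → Bool
  | 0 => b
  | i + 1 => !(lf b i)

/-- The sign of the region `i`. -/
def sg (b : Bool) (i : ℕ) : ℤ := if lf b i then 1 else -1

/-- The classes of `P_i`, `S_{i,0}`, `S_{i,1}`. -/
def clR (a : ℕ → ℕ) (b : Bool) : ℕ → Fin 3 × Fin 3 × Fin 3
  | 0 => (if b then 1 else 2, 0, if b then 2 else 1)
  | i + 1 => if Even (a i) then ((clR a b i).2.1, (clR a b i).1, (clR a b i).2.2)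
      else ((clR a b i).2.2, (clR a b i).1, (clR a b i).2.1)

/-- The class of the pivot. -/
def cP (a : ℕ → ℕ) (b : Bool) (i : ℕ) : Fin 3 := (clR a b i).1

/-- The class of `S_{i,k}`. -/
def cS (a : ℕ → ℕ) (b : Bool) (i k : ℕ) : Fin 3 :=
  if Even k then (clR a b i).2.1 else (clR a b i).2.2

/-- The classes of the slopes at the left end, at the right end and behind the layer `k` of the
region `i`. -/
def CC (a : ℕ → ℕ) (b : Bool) (i k : ℕ) : Fin 3 × Fin 3 × Fin 3 :=
  if lf b i then (cP a b i, cS a b i k, cS a b i (k - 1))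
  else (cS a b i k, cP a b i, cS a b i (k - 1))

/-- The class `w`: the class of the slope behind the last edge if the link is a knot. -/
def om (R : ℕ) (a : ℕ → ℕ) (b : Bool) : Fin 3 :=
  if cS a b R (a R) = 0 then 1 else cS a b R (a R)

/-- The layer at which the ordering changes. -/
def jj (R : ℕ) (a : ℕ → ℕ) (b : Bool) : ℕ :=
  if cS a b R (a R) = 0 then oa a (R + 1) else if cP a b 0 = om R a b then 1 else a 0

/-- The layers of the region `i` (`k = a i` is the hinge). -/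
def lay (R : ℕ) (a : ℕ → ℕ) (i : ℕ) : Finset ℕ :=
  Finset.Icc (if i = 0 then 2 else 1) (if i = R then a i - 2 else a i)

/-- The logarithm of the slope at the left end. -/
def lgL (b : Bool) (LP : ℕ → ℂ) (lam : ℕ → ℕ → ℂ) (i k : ℕ) : ℂ :=
  if lf b i then LP i else lam i k

/-- The logarithm of the slope at the right end. -/
def lgR (b : Bool) (LP : ℕ → ℂ) (lam : ℕ → ℕ → ℂ) (i k : ℕ) : ℂ :=
  if lf b i then lam i k else LP i

/-- The logarithm of the slope in front. -/
def lgN (a : ℕ → ℕ) (lam : ℕ → ℕ → ℂ) (i k : ℕ) : ℂ :=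
  if k = a i then lam (i + 1) 1 else lam i (k + 1)

/-- The region of the edge `idx`. -/
def regS (R : ℕ) (a : ℕ → ℕ) (idx : ℕ) : ℕ := Nat.findGreatest (fun i => oa a i ≤ idx) R

/-- The constant of the complex volume. -/
noncomputable def KK (R : ℕ) (a : ℕ → ℕ) (b : Bool) : ℂ :=
  ∑ i ∈ Finset.range (R + 1), (sg b i : ℂ) * ((a i : ℂ) - 1) / 3 +
    ((sg b 0 : ℂ) + (sg b R : ℂ)) / 3 +
    ∑ i ∈ Finset.range R, (if cS a b i (a i + 1) = -om R a b then (1 / 2 : ℂ) else 0) +
    ∑ i ∈ Finset.range (R + 1), (a i : ℂ) / 2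

end Pool.Agent.S3.CV
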