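import Pool.Agent.H63.VC5.CVDefs

/-!
# The complex volume of a two-bridge link

The definition of `VC5/CVDefs.lean`, for knots and for links of two components. The link
`C(a_1, ..., a_k)` is a knot if and only if the class of the slope behind the last edge `c - 2` is not
`0`, the class of the slope behind the edge `0`. For a link of two components both foldings join the
punctures in the same pairs, and one ordering of the punctures is compatible with both: the ordering
of the vertices of the tetrahedra is the same in all layers.
-/

namespace Pool.Agent.S3.CV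

open Pool.Agent.H63.VC Pool.Agent.H63.VC5 Complex

/-- `Z` is the complex volume `i (Vol + i CS)`, well-defined modulo `π²`, of the complement of the
two-bridge link `C(a_1, ..., a_k)`, its Farey path beginning with a turn to the left if `b = true` and
to the right if `b = false` (the two cases are mirror images). The class `-w` is the class of the
slopes which are not joined by a folding; for a link of two components `w` is any of the two classes
`1`, `2` and `j` is beyond the last layer. -/
def IsComplexVolume (a : List ℕ) (b : Bool) (Z : ℂ) : Prop :=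
  ∃ (l z : ℕ → ℂ) (w : Fin 3) (j : ℕ) (p q : ℕ → Bool → ℤ),
    w ≠ 0 ∧
    -- the last folding and the change of the ordering
    ((w = (cls (turn a b) (a.sum - 2)).2.2 ∧
        j ∈ Finset.Icc 1 (a.sum - 3) ∧ (cls (turn a b) j).2.2 = -w) ∨
      ((cls (turn a b) (a.sum - 2)).2.2 = 0 ∧ j = a.sum)) ∧
    -- the edges identified by the two foldings
    l 1 = l 2 ∧
    l (slo (turn a b) (a.sum - 2)).1 = l (slo (turn a b) (a.sum - 2)).2.1 ∧
    -- the Ptolemy relations and the shapes
    (∀ i ∈ Finset.Icc 1 (a.sum - 3), 0 < (z i).im ∧
      z i = (if (cls (turn a b) i).2.2 = -w then -1 else 1) *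
        exp (2 * l (slo (turn a b) i).1 - 2 * l (slo (turn a b) i).2.1) ∧
      (1 - z i = exp (l (slo (turn a b) i).2.2 + l (i + 3) - 2 * l (slo (turn a b) i).2.1) ∨
        1 - z i = -exp (l (slo (turn a b) i).2.2 + l (i + 3) - 2 * l (slo (turn a b) i).2.1))) ∧
    -- the flattenings
    (∀ i ∈ Finset.Icc 1 (a.sum - 3), ∀ h : Bool,
      Complex.log (ordShape (z i) (cls (turn a b) i) (ordr w j i h)) + p i h * (Real.pi * I) =
        pairSum l (slo (turn a b) i) i (cls (turn a b) i) (ordr w j i h).2.2 -
        pairSum l (slo (turn a b) i) i (cls (turn a b) i) (ordr w j i h).2.1 ∧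
      -Complex.log (1 - ordShape (z i) (cls (turn a b) i) (ordr w j i h)) +
          q i h * (Real.pi * I) =
        pairSum l (slo (turn a b) i) i (cls (turn a b) i) (ordr w j i h).2.1 -
        pairSum l (slo (turn a b) i) i (cls (turn a b) i) (ordr w j i h).1) ∧
    Z = ∑ i ∈ Finset.Icc 1 (a.sum - 3), ∑ h : Bool,
      (ordSign (cls (turn a b) i) (ordr w j i h) : ℂ) *
        rogers (ordShape (z i) (cls (turn a b) i) (ordr w j i h)) (p i h) (q i h)

end Pool.Agent.S3.CV
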