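import Pool.Agent.S3.CV.CDefs

/-! # Stage 3, complex volume: the Farey path of an alternating chain -/

namespace Pool.Agent.S3.CV

open Pool.Agent.H63.VC Pool.Agent.H63.VC5 Complex

theorem oa_succ (a : ℕ → ℕ) (i : ℕ) : oa a (i + 1) = oa a i + a i := by
  unfold oa
  rw [Finset.sum_range_succ]

theorem TriS_sum_map (a : ℕ → ℕ) (n : ℕ) : ((List.range n).map a).sum = oa a n := by
  induction n with
  | zero => simp [oa]
  | succ n ih => rw [List.range_succ, List.map_append, List.sum_append, ih, oa_succ]; simp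

theorem sum_map (R : ℕ) (a : ℕ → ℕ) : ((List.range (R + 1)).map a).sum = oa a (R + 1) :=
  TriS_sum_map a (R + 1)

theorem TriS_mono (a : ℕ → ℕ) {i j : ℕ} (h : i ≤ j) : oa a i ≤ oa a j := by
  induction j, h using Nat.le_induction with
  | base => exact le_rfl
  | succ j _ ih => rw [oa_succ]; omega

theorem TriS_take (R : ℕ) (a : ℕ → ℕ) {j : ℕ} (hj : j ≤ R + 1) :
    (((List.range (R + 1)).map a).take j).sum = oa a j := by
  rw [← List.map_take, List.take_range, TriS_sum_map, min_eq_left hj]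

/-- The hinges. -/
theorem TriS_hinge {R : ℕ} {a : ℕ → ℕ} {i k idx : ℕ} (hi : i ≤ R) (hk : 1 ≤ k) (hk2 : k ≤ a i)
    (hidx : idx + 1 = oa a i + k) :
    IsHinge ((List.range (R + 1)).map a) idx ↔ (i < R ∧ k = a i) := by
  unfold IsHinge
  rw [List.length_map, List.length_range]
  constructor
  · rintro ⟨j, h1, h2, h3⟩
    rw [TriS_take R a (by omega)] at h3
    have h4 : i + 1 ≤ j := by
      by_contra h
      have := TriS_mono a (i := j) (j := i) (by omega)
      omega
    have h5 := TriS_mono a h4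
    rw [oa_succ] at h5
    exact ⟨by omega, by omega⟩
  · rintro ⟨h1, h2⟩
    refine ⟨i + 1, by omega, by omega, ?_⟩
    rw [TriS_take R a (by omega), oa_succ]
    omega

theorem regS_eq {R : ℕ} {a : ℕ → ℕ} {i k idx : ℕ} (hi : i ≤ R) (hk : 1 ≤ k) (hk2 : k ≤ a i)
    (hidx : idx + 1 = oa a i + k) : regS R a idx = i := by
  unfold regS
  rw [Nat.findGreatest_eq_iff]
  refine ⟨hi, fun _ => by omega, fun n hn _ hle => ?_⟩
  have h5 := TriS_mono a (i := i + 1) (j := n) (by omega)
  rw [oa_succ] at h5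
  omega

theorem TriS_mem_lay {R : ℕ} {a : ℕ → ℕ} (ha : ∀ i, i ≤ R → 2 ≤ a i) {i k : ℕ} (hi : i ≤ R) :
    k ∈ lay R a i ↔ 1 ≤ k ∧ k ≤ a i ∧ (i = 0 → 2 ≤ k) ∧ (i = R → k + 2 ≤ a i) := by
  have := ha i hi
  unfold lay
  rw [Finset.mem_Icc]
  split_ifs <;> omega

/-- The layers. -/
theorem layS_dec {R : ℕ} {a : ℕ → ℕ} (hR : 1 ≤ R) (ha : ∀ i, i ≤ R → 2 ≤ a i) {idx : ℕ}
    (hidx : idx ∈ Finset.Icc 1 (((List.range (R + 1)).map a).sum - 3)) :
    ∃ i k, i ≤ R ∧ k ∈ lay R a i ∧ 1 ≤ k ∧ k ≤ a i ∧ idx + 1 = oa a i + k := by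
  rw [sum_map, oa_succ, Finset.mem_Icc] at hidx
  have haR := ha R le_rfl
  have h00 : oa a 0 = 0 := rfl
  have h1 : oa a (regS R a idx) ≤ idx := by
    unfold regS
    exact Nat.findGreatest_spec (P := fun i => oa a i ≤ idx) (m := 0) (Nat.zero_le _)
      (by show oa a 0 ≤ idx; omega)
  have h2 : regS R a idx ≤ R := Nat.findGreatest_le R
  have h3 : regS R a idx < R → idx < oa a (regS R a idx + 1) := by
    intro h
    by_contra h4
    exact Nat.findGreatest_is_greatest (P := fun i => oa a i ≤ idx) (n := R)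
      (k := regS R a idx + 1) (Nat.lt_succ_self _) (by omega) (not_lt.1 h4)
  have h5 : regS R a idx = R → idx + 1 - oa a (regS R a idx) + 2 ≤ a (regS R a idx) := by
    intro h
    rw [h] at h1 ⊢
    omega
  rw [oa_succ] at h3
  have h6 : idx + 1 - oa a (regS R a idx) ≤ a (regS R a idx) := by
    rcases Nat.lt_or_ge (regS R a idx) R with h | h
    · have := h3 h
      omega
    · have := h5 (le_antisymm h2 h)
      omega
  refine ⟨regS R a idx, idx + 1 - oa a (regS R a idx), h2, ?_, by omega, h6, by omega⟩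
  rw [TriS_mem_lay ha h2]
  refine ⟨by omega, h6, ?_, h5⟩
  intro h
  rw [h]
  omega

theorem layS_sum {R : ℕ} {a : ℕ → ℕ} (hR : 1 ≤ R) (ha : ∀ i, i ≤ R → 2 ≤ a i) (f : ℕ → ℂ) :
    ∑ idx ∈ Finset.Icc 1 (((List.range (R + 1)).map a).sum - 3), f idx =
      ∑ i ∈ Finset.range (R + 1), ∑ k ∈ lay R a i, f (oa a i + k - 1) := by
  rw [Finset.sum_sigma']
  refine Finset.sum_nbij' (fun idx => (⟨regS R a idx,
    idx + 1 - oa a (regS R a idx)⟩ : (_ : ℕ) × ℕ)) (fun x => oa a x.1 + x.2 - 1) ?_ ?_ ?_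
    ?_ ?_
  · intro idx hidx
    obtain ⟨i, k, hi, hkl, hk, hk2, hik⟩ := layS_dec hR ha hidx
    rw [Finset.mem_sigma, Finset.mem_range]
    simp only
    rw [regS_eq hi hk hk2 hik]
    have e : idx + 1 - oa a i = k := by omega
    rw [e]
    exact ⟨by omega, hkl⟩
  · rintro ⟨i, k⟩ hx
    rw [Finset.mem_sigma, Finset.mem_range] at hx
    simp only at hx ⊢
    obtain ⟨hi, hkl⟩ := hx
    obtain ⟨hk, hk2, h0, h1⟩ := (TriS_mem_lay ha (by omega)).1 hkl
    rw [sum_map, Finset.mem_Icc]
    constructor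
    · by_cases hi0 : i = 0
      · have := h0 hi0
        omega
      · have h3 := TriS_mono a (i := 0 + 1) (j := i) (by omega)
        rw [oa_succ] at h3
        have := ha 0 (by omega)
        omega
    · by_cases hiR : i = R
      · subst hiR
        have := h1 rfl
        rw [oa_succ]
        omega
      · have h3 := TriS_mono a (i := i + 1) (j := R) (by omega)
        rw [oa_succ] at h3
        rw [oa_succ]
        have := ha R le_rfl
        have := ha i (by omega)
        rcases Nat.lt_or_ge k (a i) with h4 | h4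
        · omega
        · omega
  · intro idx hidx
    obtain ⟨i, k, hi, hkl, hk, hk2, hik⟩ := layS_dec hR ha hidx
    simp only
    rw [regS_eq hi hk hk2 hik]
    omega
  · rintro ⟨i, k⟩ hx
    rw [Finset.mem_sigma, Finset.mem_range] at hx
    simp only at hx ⊢
    obtain ⟨hi, hkl⟩ := hx
    obtain ⟨hk, hk2, h0, h1⟩ := (TriS_mem_lay ha (by omega)).1 hkl
    have hreg := regS_eq (R := R) (a := a) (i := i) (k := k) (idx := oa a i + k - 1) (by omega) hk
      hk2 (by omega)
    rw [hreg]
    have e : oa a i + k - 1 + 1 - oa a i = k := by omega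
    rw [e]
  · intro idx hidx
    obtain ⟨i, k, hi, hkl, hk, hk2, hik⟩ := layS_dec hR ha hidx
    simp only
    rw [regS_eq hi hk hk2 hik]
    congr 1
    omega

/-- The numbers of the pivots. -/
def TriS_lp (a : ℕ → ℕ) (b : Bool) : ℕ → ℕ
  | 0 => if b then 1 else 2
  | i + 1 => oa a (i + 1) + 1

/-- The numbers of the slopes of a fan. -/
def TriS_ls (a : ℕ → ℕ) (b : Bool) (i k : ℕ) : ℕ :=
  if k = 0 then (if i = 0 then 0 else TriS_lp a b (i - 1))
  else if i = 0 ∧ k = 1 then (if b then 2 else 1)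
  else oa a i + k + 1

theorem TriS_ls_ge (a : ℕ → ℕ) (b : Bool) (i k : ℕ) (hk : 1 ≤ k) (h : ¬ (i = 0 ∧ k = 1)) :
    TriS_ls a b i k = oa a i + k + 1 := by
  unfold TriS_ls
  rw [if_neg (by omega), if_neg h]

theorem TriS_ls_zero (a : ℕ → ℕ) (b : Bool) (i : ℕ) :
    TriS_ls a b (i + 1) 0 = TriS_lp a b i := by
  unfold TriS_ls
  rw [if_pos rfl, if_neg (by omega)]
  rfl

theorem TriS_cS_succ (a : ℕ → ℕ) (b : Bool) (i k : ℕ) : cS a b i (k + 2) = cS a b i k := by
  unfold cS
  have h : Even (k + 2) ↔ Even k := by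
    rw [Nat.even_add]; simp
  simp only [h]

theorem TriS_cP_succ (a : ℕ → ℕ) (b : Bool) (i : ℕ) : cP a b (i + 1) = cS a b i (a i) := by
  unfold cP cS
  rw [clR]
  split_ifs <;> rfl

theorem TriS_cS_zero (a : ℕ → ℕ) (b : Bool) (i : ℕ) : cS a b (i + 1) 0 = cP a b i := by
  unfold cP cS
  rw [if_pos (by simp), clR]
  split_ifs <;> rfl

theorem TriS_cS_one (a : ℕ → ℕ) (b : Bool) (i : ℕ) :
    cS a b (i + 1) 1 = cS a b i (a i + 1) := by
  unfold cS
  rw [if_neg (by simp), clR]
  by_cases h : Even (a i)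
  · rw [if_pos h, if_neg (by rw [Nat.even_add_one]; simpa using h)]
  · rw [if_neg h, if_pos (by rw [Nat.even_add_one]; exact h)]

/-- The Farey path. -/
theorem TriS_main (R : ℕ) (a : ℕ → ℕ) (b : Bool) (ha : ∀ i, i ≤ R → 2 ≤ a i) (idx : ℕ) :
    ∀ (i k : ℕ) (_hi : i ≤ R) (_hk : 1 ≤ k) (_hk2 : k ≤ a i) (_hidx : idx + 1 = oa a i + k),
    slo (turn ((List.range (R + 1)).map a) b) idx =
      (if lf b i then (TriS_lp a b i, TriS_ls a b i k, TriS_ls a b i (k - 1))
        else (TriS_ls a b i k, TriS_lp a b i, TriS_ls a b i (k - 1))) ∧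
    cls (turn ((List.range (R + 1)).map a) b) idx = CC a b i k ∧
    turn ((List.range (R + 1)).map a) b idx =
      (if i < R ∧ k = a i then !(lf b i) else lf b i) := by
  induction idx with
  | zero =>
    intro i k hi hk hk2 hidx
    have h00 : oa a 0 = 0 := rfl
    have hi0 : i = 0 := by
      by_contra h
      have h3 := TriS_mono a (i := 0 + 1) (j := i) (by omega)
      rw [oa_succ] at h3
      have := ha 0 (by omega)
      omega
    subst hi0
    have hk1 : k = 1 := by omega
    subst hk1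
    have h2 := ha 0 (by omega)
    have hlast : ¬ (0 < R ∧ 1 = a 0) := by omega
    rw [if_neg hlast]
    refine ⟨?_, ?_, ?_⟩
    · cases b <;> simp [slo, TriS_lp, TriS_ls, lf]
    · cases b <;> simp [cls, CC, cP, cS, clR, lf]
    · rfl
  | succ idx ih =>
    intro i k hi hk hk2 hidx
    have hhinge := TriS_hinge (R := R) hi hk hk2 hidx
    rcases Nat.lt_or_ge 1 k with hk3 | hk1
    · -- the same region
      obtain ⟨k, rfl⟩ : ∃ k', k = k' + 1 := ⟨k - 1, by omega⟩
      obtain ⟨g1, g2, g3⟩ := ih i k hi (by omega) (by omega) (by omega)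
      rw [if_neg (by omega)] at g3
      have hls : TriS_ls a b i (k + 1) = idx + 3 := by
        rw [TriS_ls_ge a b i (k + 1) (by omega) (by omega)]
        omega
      have hcs : cS a b i (k - 1) = cS a b i (k + 1) := by
        obtain ⟨k', rfl⟩ : ∃ k', k = k' + 1 := ⟨k - 1, by omega⟩
        rw [Nat.add_sub_cancel, TriS_cS_succ]
      refine ⟨?_, ?_, ?_⟩
      · rw [slo, g1, g3, Nat.add_sub_cancel, hls]
        cases h : lf b i <;> simp
      · rw [cls, g2, g3]
        unfold CC
        rw [Nat.add_sub_cancel, hcs]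
        cases h : lf b i <;> simp
      · rw [turn, g3]
        by_cases h : i < R ∧ k + 1 = a i
        · rw [if_pos (hhinge.2 h), if_pos h]
        · rw [if_neg h, if_neg]
          intro h'
          exact h (hhinge.1 h')
    · -- the first layer of a region
      have hk1 : k = 1 := by omega
      subst hk1
      have h00 : oa a 0 = 0 := rfl
      have hi0 : i ≠ 0 := by
        rintro rfl
        omega
      obtain ⟨j, rfl⟩ : ∃ j, i = j + 1 := ⟨i - 1, by omega⟩
      have h2 := ha (j + 1) hi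
      have h3 := ha j (by omega)
      have h4 := oa_succ a j
      have hlast : ¬ (j + 1 < R ∧ 1 = a (j + 1)) := by omega
      rw [if_neg hlast]
      obtain ⟨g1, g2, g3⟩ := ih j (a j) (by omega) (by omega) le_rfl (by omega)
      rw [if_pos ⟨by omega, rfl⟩] at g3
      have e1 : TriS_ls a b j (a j) = TriS_lp a b (j + 1) := by
        rw [TriS_ls_ge a b j _ (by omega) (by omega)]
        show _ = oa a (j + 1) + 1
        omega
      have e2 : TriS_ls a b (j + 1) 1 = idx + 3 := by
        rw [TriS_ls_ge a b (j + 1) 1 le_rfl (by omega)]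
        omega
      have e3 : TriS_ls a b (j + 1) (1 - 1) = TriS_lp a b j := TriS_ls_zero a b j
      have e5 : cS a b j (a j - 1) = cS a b (j + 1) 1 := by
        rw [TriS_cS_one]
        obtain ⟨m, hm⟩ : ∃ m, a j = m + 1 := ⟨a j - 1, by omega⟩
        rw [hm, Nat.add_sub_cancel]
        exact (TriS_cS_succ a b j m).symm
      have e6 : cS a b (j + 1) (1 - 1) = cP a b j := TriS_cS_zero a b j
      have hnh : ¬ IsHinge ((List.range (R + 1)).map a) (idx + 1) := by
        intro h
        have := hhinge.1 h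
        omega
      have hlf : lf b (j + 1) = !(lf b j) := rfl
      refine ⟨?_, ?_, ?_⟩
      · rw [slo, g1, g3, e2, e3, hlf, ← e1]
        cases h : lf b j <;> simp
      · rw [cls, g2, g3]
        unfold CC
        rw [e6, hlf, e5, TriS_cP_succ]
        cases h : lf b j <;> simp
      · rw [turn, if_neg hnh, g3, hlf]

/-- The classes. -/
theorem cls_layS (R : ℕ) (a : ℕ → ℕ) (b : Bool) (hR : 1 ≤ R) (ha : ∀ i, i ≤ R → 2 ≤ a i)
    {i k idx : ℕ} (hi : i ≤ R) (hk : 1 ≤ k) (hk2 : k ≤ a i) (hidx : idx + 1 = oa a i + k) :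
    cls (turn ((List.range (R + 1)).map a) b) idx = CC a b i k :=
  (TriS_main R a b ha idx i k hi hk hk2 hidx).2.1

/-- The label function. -/
noncomputable def TriS_l (R : ℕ) (a : ℕ → ℕ) (LP : ℕ → ℂ) (lam : ℕ → ℕ → ℂ) (n : ℕ) : ℂ :=
  if n ≤ 1 then LP 0
  else lam (regS R a (n - 2)) (n - 1 - oa a (regS R a (n - 2)))

theorem TriS_gen {R : ℕ} {a : ℕ → ℕ} (LP : ℕ → ℂ) (lam : ℕ → ℕ → ℂ) {i k n : ℕ} (hi : i ≤ R)
    (hk : 1 ≤ k) (hk2 : k ≤ a i) (hn : n = oa a i + k + 1) :
    TriS_l R a LP lam n = lam i k := by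
  have h := regS_eq (R := R) (idx := n - 2) hi hk hk2 (by omega)
  have e : n - 1 - oa a i = k := by omega
  unfold TriS_l
  rw [if_neg (by omega), h, e]

/-- A function on the slopes with prescribed values. -/
theorem exists_labS (R : ℕ) (a : ℕ → ℕ) (b : Bool) (hR : 1 ≤ R) (ha : ∀ i, i ≤ R → 2 ≤ a i)
    (LP : ℕ → ℂ) (lam : ℕ → ℕ → ℂ) (h01 : lam 0 1 = LP 0) (hend : lam R (a R - 1) = LP R)
    (hl : ∀ i, i < R → lam (i + 1) 0 = LP i) (hrr : ∀ i, i < R → lam i (a i) = LP (i + 1)) :
    ∃ l : ℕ → ℂ, l 1 = l 2 ∧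
      l (slo (turn ((List.range (R + 1)).map a) b) (((List.range (R + 1)).map a).sum - 2)).1 =
        l (slo (turn ((List.range (R + 1)).map a) b)
          (((List.range (R + 1)).map a).sum - 2)).2.1 ∧
      ∀ i k idx, i ≤ R → k ∈ lay R a i → idx + 1 = oa a i + k →
        l (slo (turn ((List.range (R + 1)).map a) b) idx).1 = lgL b LP lam i k ∧
        l (slo (turn ((List.range (R + 1)).map a) b) idx).2.1 = lgR b LP lam i k ∧
        l (slo (turn ((List.range (R + 1)).map a) b) idx).2.2 = lam i (k - 1) ∧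
        l (idx + 3) = lgN a lam i k := by
  have h00 : oa a 0 = 0 := rfl
  have l1 : TriS_l R a LP lam 1 = LP 0 := by
    unfold TriS_l
    rw [if_pos le_rfl]
  have l2 : TriS_l R a LP lam 2 = lam 0 1 :=
    TriS_gen LP lam (i := 0) (k := 1) (by omega) le_rfl
      (by have := ha 0 (by omega); omega) (by omega)
  -- the pivots
  have hP : ∀ i, i ≤ R → TriS_l R a LP lam (TriS_lp a b i) = LP i := by
    intro i hi
    rcases i with _ | i
    · unfold TriS_lp
      split_ifs
      · exact l1
      · rw [l2, h01]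
    · have hpi := ha i (by omega)
      have e : TriS_lp a b (i + 1) = oa a i + a i + 1 := by
        show oa a (i + 1) + 1 = _
        rw [oa_succ]
      rw [e, TriS_gen LP lam (i := i) (k := a i) (by omega) (by omega) le_rfl rfl]
      exact hrr i (by omega)
  -- the slopes of the fans
  have hS : ∀ i k, i ≤ R → 1 ≤ k → k ≤ a i →
      TriS_l R a LP lam (TriS_ls a b i k) = lam i k := by
    intro i k hi hk hk2
    by_cases h : i = 0 ∧ k = 1
    · obtain ⟨rfl, rfl⟩ := h
      unfold TriS_ls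
      rw [if_neg one_ne_zero, if_pos ⟨rfl, rfl⟩]
      split_ifs
      · exact l2
      · rw [l1, h01]
    · rw [TriS_ls_ge a b i k hk h]
      exact TriS_gen LP lam hi hk hk2 rfl
  refine ⟨TriS_l R a LP lam, by rw [l1, l2, h01], ?_, ?_⟩
  · rw [sum_map]
    have h2 := ha R le_rfl
    have h3 := oa_succ a R
    obtain ⟨g1, -, -⟩ := TriS_main R a b ha (oa a (R + 1) - 2) R (a R - 1) le_rfl (by omega)
      (by omega) (by omega)
    have e1 := hP R le_rfl
    have e2 := hS R (a R - 1) le_rfl (by omega) (by omega)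
    rw [g1]
    cases h : lf b R
    · rw [if_neg (by simp)]
      show TriS_l R a LP lam (TriS_ls a b R (a R - 1)) = TriS_l R a LP lam (TriS_lp a b R)
      rw [e1, e2, hend]
    · rw [if_pos rfl]
      show TriS_l R a LP lam (TriS_lp a b R) = TriS_l R a LP lam (TriS_ls a b R (a R - 1))
      rw [e1, e2, hend]
  · intro i k idx hi hkl hidx
    obtain ⟨hk, hk2, h0, h1⟩ := (TriS_mem_lay ha hi).1 hkl
    obtain ⟨g1, -, -⟩ := TriS_main R a b ha idx i k hi hk hk2 hidx
    have e1 := hP i hi
    have e2 := hS i k hi hk hk2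
    have e3 : TriS_l R a LP lam (TriS_ls a b i (k - 1)) = lam i (k - 1) := by
      rcases Nat.lt_or_ge k 2 with h5 | h5
      · have h6 : k = 1 := by omega
        subst h6
        obtain ⟨j, rfl⟩ : ∃ j, i = j + 1 := ⟨i - 1, by omega⟩
        have e : TriS_ls a b (j + 1) (1 - 1) = TriS_lp a b j := TriS_ls_zero a b j
        rw [e, hP j (by omega)]
        exact (hl j (by omega)).symm
      · exact hS i (k - 1) hi (by omega) (by omega)
    have e4 : TriS_l R a LP lam (idx + 3) = lgN a lam i k := by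
      unfold lgN
      by_cases h5 : k = a i
      · rw [if_pos h5]
        have h6 : i < R := by
          rcases Nat.lt_or_ge i R with h | h
          · exact h
          · have := h1 (le_antisymm hi h)
            omega
        have h7 := ha (i + 1) (by omega)
        have h8 := oa_succ a i
        exact TriS_gen LP lam (i := i + 1) (k := 1) (by omega) le_rfl (by omega) (by omega)
      · rw [if_neg h5]
        exact TriS_gen LP lam (i := i) (k := k + 1) hi (by omega) (by omega) (by omega)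
    refine ⟨?_, ?_, ?_, e4⟩
    · rw [g1]
      unfold lgL
      cases h : lf b i
      · rw [if_neg (by simp), if_neg (by simp)]
        exact e2
      · rw [if_pos rfl, if_pos rfl]
        exact e1
    · rw [g1]
      unfold lgR
      cases h : lf b i
      · rw [if_neg (by simp), if_neg (by simp)]
        exact e1
      · rw [if_pos rfl, if_pos rfl]
        exact e2
    · rw [g1]
      cases h : lf b i
      · rw [if_neg (by simp)]
        exact e3
      · rw [if_pos rfl]
        exact e3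

end Pool.Agent.S3.CV
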