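import Pool.Agent.S3.CV.ConstS
import Pool.Agent.S3.CV.Defs
import Pool.Agent.S3.CV.TriS

/-! # Stage 3, complex volume: the complex volume from the layers -/

namespace Pool.Agent.S3.CV

open Pool.Agent.H63.VC Pool.Agent.H63.VC5 Complex

theorem ChainS_om_ne (R : ℕ) (a : ℕ → ℕ) (b : Bool) : om R a b ≠ 0 := by
  unfold om
  by_cases h : cS a b R (a R) = 0
  · rw [if_pos h]
    decide
  · rw [if_neg h]
    exact h

theorem ChainS_even_pred {k : ℕ} (hk : 1 ≤ k) : Even (k - 1) ↔ ¬ Even k := by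
  obtain ⟨m, rfl⟩ : ∃ m, k = m + 1 := ⟨k - 1, by omega⟩
  rw [Nat.add_sub_cancel, Nat.even_add_one, not_not]

theorem ChainS_ne (a : ℕ → ℕ) (b : Bool) (i k : ℕ) (hk : 1 ≤ k) :
    (CC a b i k).1 ≠ (CC a b i k).2.1 ∧ (CC a b i k).1 ≠ (CC a b i k).2.2 ∧
      (CC a b i k).2.1 ≠ (CC a b i k).2.2 := by
  obtain ⟨h1, h2, h3⟩ := clR_ne a b i
  have hA : cP a b i ≠ cS a b i k := by
    unfold cP cS
    by_cases hev : Even k
    · rw [if_pos hev]
      exact h1
    · rw [if_neg hev]
      exact h2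
  have hB : cP a b i ≠ cS a b i (k - 1) := by
    unfold cP cS
    by_cases hev : Even (k - 1)
    · rw [if_pos hev]
      exact h1
    · rw [if_neg hev]
      exact h2
  have hC : cS a b i k ≠ cS a b i (k - 1) := by
    unfold cS
    by_cases hev : Even k
    · rw [if_pos hev, if_neg (fun h => (ChainS_even_pred hk).1 h hev)]
      exact h3
    · rw [if_neg hev, if_pos ((ChainS_even_pred hk).2 hev)]
      exact h3.symm
  unfold CC
  by_cases hlf : lf b i
  · rw [if_pos hlf]
    exact ⟨hA, hB, hC⟩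
  · rw [if_neg hlf]
    exact ⟨hA.symm, hC, hB⟩

theorem ChainS_CC (a : ℕ → ℕ) (b : Bool) (i k : ℕ) : (CC a b i k).2.2 = cS a b i (k - 1) := by
  unfold CC
  split_ifs <;> rfl

theorem ChainS_ordr {w : Fin 3} (hw : w ≠ 0) (j idx : ℕ) (h : Bool) :
    (ordr w j idx h).1 ≠ (ordr w j idx h).2.1 ∧
      (ordr w j idx h).1 ≠ (ordr w j idx h).2.2 ∧
      (ordr w j idx h).2.1 ≠ (ordr w j idx h).2.2 := by
  have h1 : w = 1 ∨ w = 2 := by
    revert hw
    revert w
    decide
  unfold ordr
  rcases h1 with h1 | h1 <;> rw [h1] <;> split_ifs <;> decide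

theorem ChainS_exp (Q : ℤ) : exp (Q * (Real.pi * I)) = 1 ∨ exp (Q * (Real.pi * I)) = -1 := by
  rcases Int.even_or_odd Q with ⟨m, hm⟩ | ⟨m, hm⟩
  · left
    rw [hm, show (((m + m : ℤ) : ℂ)) * (Real.pi * I) = m * (2 * Real.pi * I) by push_cast; ring,
      Complex.exp_int_mul_two_pi_mul_I]
  · right
    rw [hm, show (((2 * m + 1 : ℤ) : ℂ)) * (Real.pi * I) = m * (2 * Real.pi * I) + Real.pi * I by
      push_cast; ring, Complex.exp_add, Complex.exp_int_mul_two_pi_mul_I, Complex.exp_pi_mul_I,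
      one_mul]

theorem ChainS_oa_mono (a : ℕ → ℕ) {i j : ℕ} (h : i ≤ j) : oa a i ≤ oa a j := by
  unfold oa
  exact Finset.sum_le_sum_of_subset (Finset.range_subset_range.2 h)

theorem ChainS_lay {R : ℕ} {a : ℕ → ℕ} (hR : 1 ≤ R) (ha : ∀ i, i ≤ R → 2 ≤ a i) {i k : ℕ}
    (hi : i ≤ R) (hk : k ∈ lay R a i) :
    1 ≤ k ∧ k ≤ a i ∧ 1 ≤ oa a i + k - 1 ∧ oa a i + k - 1 ≤ oa a (R + 1) - 3 := by
  unfold lay at hk
  rw [Finset.mem_Icc] at hk
  obtain ⟨h1, h2⟩ := hk
  have hai := ha i hi
  have haR := ha R le_rfl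
  have ha0 := ha 0 (by omega)
  have hoR := oa_succ a R
  have hoi := oa_succ a i
  have ho1 := oa_succ a 0
  have ho0 : oa a 0 = 0 := rfl
  have hk1 : 1 ≤ k := by
    split_ifs at h1 <;> omega
  have hk2 : k ≤ a i := by
    split_ifs at h2 <;> omega
  refine ⟨hk1, hk2, ?_, ?_⟩
  · by_cases hi0 : i = 0
    · rw [if_pos hi0] at h1
      omega
    · have := ChainS_oa_mono a (i := 1) (j := i) (by omega)
      simp only [zero_add] at ho1
      omega
  · by_cases hiR : i = R
    · rw [if_pos hiR] at h2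
      subst hiR
      omega
    · have := ChainS_oa_mono a (i := i + 1) (j := R) (by omega)
      omega

/-- The complex volume of an alternating chain in terms of any flattening. -/
theorem chain_cvS (R : ℕ) (a : ℕ → ℕ) (b : Bool) (hR : 1 ≤ R) (ha : ∀ i, i ≤ R → 2 ≤ a i)
    (LP : ℕ → ℂ) (lam : ℕ → ℕ → ℂ) (z : ℕ → ℕ → ℂ) (P Q : ℕ → ℕ → ℤ)
    (h01 : lam 0 1 = LP 0) (hend : lam R (a R - 1) = LP R)
    (hl : ∀ i, i < R → lam (i + 1) 0 = LP i) (hrr : ∀ i, i < R → lam i (a i) = LP (i + 1))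
    (hz : ∀ i k, i ≤ R → k ∈ lay R a i → 0 < (z i k).im ∧
      z i k = (if cS a b i (k - 1) = -om R a b then -1 else 1) *
        exp (2 * lgL b LP lam i k - 2 * lgR b LP lam i k))
    (hP : ∀ i k, i ≤ R → k ∈ lay R a i →
      Complex.log (z i k) + P i k * (Real.pi * I) = 2 * lgL b LP lam i k - 2 * lgR b LP lam i k)
    (hQ : ∀ i k, i ≤ R → k ∈ lay R a i →
      -Complex.log (1 - z i k) + Q i k * (Real.pi * I) =
        2 * lgR b LP lam i k - lam i (k - 1) - lgN a lam i k) :
    ∃ Z : ℂ, IsComplexVolume ((List.range (R + 1)).map a) b Z ∧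
      Cg Z (∑ i ∈ Finset.range (R + 1), ∑ k ∈ lay R a i, 2 * rogers (z i k) (P i k) (Q i k) +
        (Real.pi : ℂ) ^ 2 * KK R a b) := by
  obtain ⟨l, hl12, hlast, hlab⟩ := exists_labS R a b hR ha LP lam h01 hend hl hrr
  have hsum := sum_map R a
  have hdec0 := @layS_dec R a hR ha
  have hLsum := @layS_sum R a hR ha
  have hcls := fun i k idx => @cls_layS R a b hR ha i k idx
  generalize (List.range (R + 1)).map a = A at *
  have haR := ha R le_rfl
  have hoR := oa_succ a R
  have hoaR : 2 ≤ oa a R := by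
    have h1 := ChainS_oa_mono a (i := 1) (j := R) (by omega)
    have h2 := oa_succ a 0
    have h3 := ha 0 (by omega)
    simp only [zero_add] at h2
    have h4 : oa a 0 = 0 := rfl
    omega
  set t := turn A b with ht
  set w := om R a b with hw
  set j := jj R a b with hj
  have hw0 : w ≠ 0 := ChainS_om_ne R a b
  -- the facts about a layer
  have hdec : ∀ idx ∈ Finset.Icc 1 (A.sum - 3), ∃ i k, i ≤ R ∧ k ∈ lay R a i ∧ 1 ≤ k ∧ k ≤ a i ∧
      idx + 1 = oa a i + k ∧ regS R a idx = i ∧ idx + 1 - oa a i = k := by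
    intro idx hidx
    obtain ⟨i, k, h1, h2, h3, h4, h5⟩ := hdec0 hidx
    exact ⟨i, k, h1, h2, h3, h4, h5, regS_eq h1 h3 h4 h5, by omega⟩
  -- the terms
  have hterm : ∀ (idx : ℕ) (h : Bool), ∃ p q : ℤ, idx ∈ Finset.Icc 1 (A.sum - 3) →
      (Complex.log (ordShape (z (regS R a idx) (idx + 1 - oa a (regS R a idx)))
          (cls t idx) (ordr w j idx h)) + p * (Real.pi * I) =
        pairSum l (slo t idx) idx (cls t idx) (ordr w j idx h).2.2 -
        pairSum l (slo t idx) idx (cls t idx) (ordr w j idx h).2.1) ∧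
      (-Complex.log (1 - ordShape (z (regS R a idx) (idx + 1 - oa a (regS R a idx)))
          (cls t idx) (ordr w j idx h)) + q * (Real.pi * I) =
        pairSum l (slo t idx) idx (cls t idx) (ordr w j idx h).2.1 -
        pairSum l (slo t idx) idx (cls t idx) (ordr w j idx h).1) ∧
      Cg ((ordSign (cls t idx) (ordr w j idx h) : ℂ) *
        rogers (ordShape (z (regS R a idx) (idx + 1 - oa a (regS R a idx)))
          (cls t idx) (ordr w j idx h)) p q)
        (rogers (z (regS R a idx) (idx + 1 - oa a (regS R a idx)))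
          (P (regS R a idx) (idx + 1 - oa a (regS R a idx)))
          (Q (regS R a idx) (idx + 1 - oa a (regS R a idx))) +
          (Real.pi : ℂ) ^ 2 * ordConst (cls t idx) (ordr w j idx h)
            (P (regS R a idx) (idx + 1 - oa a (regS R a idx)))
            (Q (regS R a idx) (idx + 1 - oa a (regS R a idx)))) := by
    intro idx h
    by_cases hidx : idx ∈ Finset.Icc 1 (A.sum - 3)
    · obtain ⟨i, k, hi, hkl, hk, hk2, hik, hreg, hkk⟩ := hdec idx hidx
      obtain ⟨g1, g2, g3, g4⟩ := hlab i k idx hi hkl hik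
      have g5 := hcls i k idx hi hk hk2 hik
      have hzi := hz i k hi hkl
      obtain ⟨p, q, f1, f2, f3⟩ := ord_term (z i k) hzi.1 (P i k) (Q i k) (lgL b LP lam i k)
        (lgR b LP lam i k) (lam i (k - 1)) (lgN a lam i k) (hP i k hi hkl) (hQ i k hi hkl)
        (cls t idx) (ordr w j idx h) (by rw [g5]; exact ChainS_ne a b i k hk)
        (ChainS_ordr hw0 j idx h) (pairSum l (slo t idx) idx (cls t idx)) (by
          intro X
          rw [← g1, ← g2, ← g3, ← g4]
          rfl)
      refine ⟨p, q, fun _ => ?_⟩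
      rw [hreg, hkk]
      exact ⟨f1, f2, f3⟩
    · exact ⟨0, 0, fun h => absurd h hidx⟩
  choose p q hpq using hterm
  refine ⟨_, ⟨l, fun idx => z (regS R a idx) (idx + 1 - oa a (regS R a idx)), w, j, p, q, hw0, ?_,
    hl12, hlast, ?_, ?_, rfl⟩, ?_⟩
  · -- the last folding and the change of the ordering
    have h1 := hcls R (a R - 1) (A.sum - 2) le_rfl (by omega) (by omega) (by omega)
    have h2 : (cls t (A.sum - 2)).2.2 = cS a b R (a R) := by
      rw [h1, ChainS_CC]
      unfold cS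
      have h3 : Even (a R - 1 - 1) ↔ Even (a R) := by
        rw [ChainS_even_pred (by omega), ChainS_even_pred (by omega), not_not]
      simp only [h3]
    by_cases h0 : cS a b R (a R) = 0
    · right
      refine ⟨h2.trans h0, ?_⟩
      rw [hj, hsum]
      unfold jj
      rw [if_pos h0]
    · left
      obtain ⟨i, k, hi, hkl, hjk, hcl⟩ := jj_spec R a b hR ha h0
      obtain ⟨hk1, hk2, hb1, hb2⟩ := ChainS_lay hR ha hi hkl
      refine ⟨?_, ?_, ?_⟩
      · rw [h2, hw]
        unfold om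
        rw [if_neg h0]
      · rw [Finset.mem_Icc, hsum]
        omega
      · rw [hcls i k j hi hk1 hk2 hjk, ChainS_CC]
        exact hcl
  · -- the shapes
    intro idx hidx
    obtain ⟨i, k, hi, hkl, hk, hk2, hik, hreg, hkk⟩ := hdec idx hidx
    obtain ⟨g1, g2, g3, g4⟩ := hlab i k idx hi hkl hik
    have g5 := hcls i k idx hi hk hk2 hik
    obtain ⟨hzi, hze⟩ := hz i k hi hkl
    simp only
    rw [hreg, hkk, g1, g2, g3, g4, g5, ChainS_CC]
    refine ⟨hzi, hze, ?_⟩
    have hne : 1 - z i k ≠ 0 := by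
      intro h
      have h2 := congrArg Complex.im h
      simp at h2
      linarith
    have h1 : Complex.log (1 - z i k) = Q i k * (Real.pi * I) +
        (lam i (k - 1) + lgN a lam i k - 2 * lgR b LP lam i k) := by
      linear_combination -(hQ i k hi hkl)
    have h2 : 1 - z i k = exp (Q i k * (Real.pi * I)) *
        exp (lam i (k - 1) + lgN a lam i k - 2 * lgR b LP lam i k) := by
      rw [← Complex.exp_add, ← h1, Complex.exp_log hne]
    rcases ChainS_exp (Q i k) with h3 | h3
    · left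
      rw [h2, h3, one_mul]
    · right
      rw [h2, h3, neg_one_mul]
  · intro idx hidx h
    exact ⟨(hpq idx h hidx).1, (hpq idx h hidx).2.1⟩
  · -- the value
    have hPodd : ∀ i k, i ≤ R → k ∈ lay R a i → cS a b i (k - 1) = -om R a b → Odd (P i k) := by
      intro i k hi hkl hc
      obtain ⟨hzi, hze⟩ := hz i k hi hkl
      refine (flat_parity (z i k) _ (fun h => by rw [h] at hzi; simp at hzi) (P i k)
        (hP i k hi hkl)).2 ?_
      rw [hze, if_pos hc]
      ring
    obtain ⟨n, hn⟩ := const_eq R a b hR ha P Q hPodd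
    have hS : Cg (∑ idx ∈ Finset.Icc 1 (A.sum - 3), ∑ h : Bool,
        (ordSign (cls t idx) (ordr w j idx h) : ℂ) *
          rogers (ordShape (z (regS R a idx) (idx + 1 - oa a (regS R a idx)))
            (cls t idx) (ordr w j idx h)) (p idx h) (q idx h))
        (∑ idx ∈ Finset.Icc 1 (A.sum - 3), ∑ h : Bool,
          (rogers (z (regS R a idx) (idx + 1 - oa a (regS R a idx)))
            (P (regS R a idx) (idx + 1 - oa a (regS R a idx)))
            (Q (regS R a idx) (idx + 1 - oa a (regS R a idx))) +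
          (Real.pi : ℂ) ^ 2 * ordConst (cls t idx) (ordr w j idx h)
            (P (regS R a idx) (idx + 1 - oa a (regS R a idx)))
            (Q (regS R a idx) (idx + 1 - oa a (regS R a idx))))) := by
      refine Cg.sum _ fun idx hidx => Cg.sum _ fun h _ => (hpq idx h hidx).2.2
    refine hS.trans ?_
    rw [hLsum]
    have hEq : ∑ i ∈ Finset.range (R + 1), ∑ k ∈ lay R a i, ∑ h : Bool,
        (rogers (z (regS R a (oa a i + k - 1)) (oa a i + k - 1 + 1 - oa a (regS R a (oa a i + k - 1))))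
            (P (regS R a (oa a i + k - 1)) (oa a i + k - 1 + 1 - oa a (regS R a (oa a i + k - 1))))
            (Q (regS R a (oa a i + k - 1)) (oa a i + k - 1 + 1 - oa a (regS R a (oa a i + k - 1)))) +
          (Real.pi : ℂ) ^ 2 * ordConst (cls t (oa a i + k - 1)) (ordr w j (oa a i + k - 1) h)
            (P (regS R a (oa a i + k - 1)) (oa a i + k - 1 + 1 - oa a (regS R a (oa a i + k - 1))))
            (Q (regS R a (oa a i + k - 1)) (oa a i + k - 1 + 1 - oa a (regS R a (oa a i + k - 1))))) =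
        ∑ i ∈ Finset.range (R + 1), ∑ k ∈ lay R a i, (2 * rogers (z i k) (P i k) (Q i k) +
          (Real.pi : ℂ) ^ 2 * ∑ h : Bool,
            ordConst (CC a b i k) (ordr (om R a b) (jj R a b) (oa a i + k - 1) h) (P i k) (Q i k)) := by
      refine Finset.sum_congr rfl fun i hi => Finset.sum_congr rfl fun k hk => ?_
      rw [Finset.mem_range] at hi
      obtain ⟨hk1, hk2, hb1, hb2⟩ := ChainS_lay hR ha (by omega) hk
      have e1 : oa a i + k - 1 + 1 = oa a i + k := by omega
      have e2 : regS R a (oa a i + k - 1) = i := regS_eq (by omega) hk1 hk2 e1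
      have e3 : oa a i + k - 1 + 1 - oa a i = k := by omega
      rw [e2, e3, hcls i k (oa a i + k - 1) (by omega) hk1 hk2 e1, Fintype.sum_bool, Fintype.sum_bool]
      ring
    rw [hEq]
    simp only [Finset.sum_add_distrib, ← Finset.mul_sum]
    rw [hn]
    refine ⟨n, ?_⟩
    simp only [Finset.mul_sum]
    ring

end Pool.Agent.S3.CV
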