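import Pool.Agent.S3.CV.CDefs
import Pool.Agent.H63.VC5.OrdTerm

/-! # Stage 3, complex volume: the constants -/

namespace Pool.Agent.S3.CV

open Pool.Agent.H63.VC Pool.Agent.H63.VC5 Complex

/-- The classes of a triangle are different. -/
theorem clR_ne (a : ℕ → ℕ) (b : Bool) (i : ℕ) :
    (clR a b i).1 ≠ (clR a b i).2.1 ∧ (clR a b i).1 ≠ (clR a b i).2.2 ∧
      (clR a b i).2.1 ≠ (clR a b i).2.2 := by
  induction i with
  | zero => cases b <;> simp [clR]
  | succ i ih =>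
    obtain ⟨h1, h2, h3⟩ := ih
    rw [clR]
    split
    · exact ⟨h1.symm, h3, h2⟩
    · exact ⟨h2.symm, h3.symm, h1⟩

/-! ### Finite facts -/

private def ConstS_th (c o : Fin 3 × Fin 3 × Fin 3) : ℤ :=
  if c = (o.2.2, o.2.1, o.1) then 0
  else if c = (o.1, o.2.2, o.2.1) then 1
  else if c = (o.2.1, o.1, o.2.2) then -1
  else if c = (o.2.1, o.2.2, o.1) then 0
  else if c = (o.2.2, o.1, o.2.1) then -1
  else 1

private def ConstS_D (T : Fin 3 × Fin 3 × Fin 3) (l e : Bool) : Fin 3 × Fin 3 × Fin 3 :=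
  if l then (T.1, if e then T.2.1 else T.2.2, if e then T.2.2 else T.2.1)
  else (if e then T.2.1 else T.2.2, T.1, if e then T.2.2 else T.2.1)

private def ConstS_o (w : Fin 3) (f : Bool) : Fin 3 × Fin 3 × Fin 3 :=
  if f then (0, w, -w) else (w, 0, -w)

private def ConstS_s (l : Bool) : ℤ := if l then 1 else -1

private theorem ConstS_F1 : ∀ T : Fin 3 × Fin 3 × Fin 3, T.1 ≠ T.2.1 → T.1 ≠ T.2.2 →
    T.2.1 ≠ T.2.2 → ∀ l e : Bool, ∀ w : Fin 3, w ≠ 0 → ∀ f : Bool,
    (3 : ℤ) ∣ ConstS_th (ConstS_D T l e) (ConstS_o w f) +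
      ConstS_th (ConstS_D T l (!e)) (ConstS_o w f) + ConstS_s l := by
  decide

private theorem ConstS_F2 : ∀ T : Fin 3 × Fin 3 × Fin 3, T.1 ≠ T.2.1 → T.1 ≠ T.2.2 →
    T.2.1 ≠ T.2.2 → ∀ l e : Bool, ∀ w : Fin 3, w ≠ 0 → (ConstS_D T l e).2.2 = -w →
    (3 : ℤ) ∣ ConstS_th (ConstS_D T l (!e)) (ConstS_o w true) -
      ConstS_th (ConstS_D T l e) (ConstS_o w false) + ConstS_s l := by
  decide

private theorem ConstS_F3 : ∀ b : Bool, ∀ w : Fin 3, w ≠ 0 →
    ConstS_th (ConstS_D (if b then 1 else 2, 0, if b then 2 else 1) b false)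
      (ConstS_o w true) = 0 := by
  decide

private theorem ConstS_F4 : ∀ T : Fin 3 × Fin 3 × Fin 3, T.1 ≠ T.2.1 → T.1 ≠ T.2.2 →
    T.2.1 ≠ T.2.2 → ∀ l e : Bool, (if e then T.2.1 else T.2.2) = 0 →
    (3 : ℤ) ∣ ConstS_th (ConstS_D T l e) (ConstS_o 1 true) + ConstS_s l := by
  decide

private theorem ConstS_F5 : ∀ T : Fin 3 × Fin 3 × Fin 3, T.1 ≠ T.2.1 → T.1 ≠ T.2.2 →
    T.2.1 ≠ T.2.2 → ∀ l e : Bool, (if e then T.2.1 else T.2.2) ≠ 0 →
    (3 : ℤ) ∣ ConstS_th (ConstS_D T l e) (ConstS_o (if e then T.2.1 else T.2.2) false) +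
      ConstS_s l := by
  decide

/-- The parity of a permutation. -/
private def ConstS_pi (c : Fin 3 × Fin 3 × Fin 3) : ℤ := if c.2.1 = c.1 + 1 then 0 else 1

/-- The side of the class `-w`. -/
private def ConstS_U (T : Fin 3 × Fin 3 × Fin 3) (l : Bool) (w : Fin 3) : ℤ :=
  if T.1 = -w then (if l then 1 else 0) else (if l then 0 else 1)

private def ConstS_Z (T : Fin 3 × Fin 3 × Fin 3) (l : Bool) (w : Fin 3) : ℤ :=
  ConstS_pi (ConstS_D T l true) + ConstS_U T l w

private theorem ConstS_P1 : ∀ T : Fin 3 × Fin 3 × Fin 3, T.1 ≠ T.2.1 → T.1 ≠ T.2.2 →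
    T.2.1 ≠ T.2.2 → ∀ l e : Bool, ∀ w : Fin 3, w ≠ 0 →
    (2 : ℤ) ∣ ConstS_Z (if e then (T.2.1, T.1, T.2.2) else (T.2.2, T.1, T.2.1)) (!l) w -
      (ConstS_Z T l w + (if e then 0 else 1) +
        (if (if e then T.2.2 else T.2.1) = -w then 1 else 0)) := by
  decide

private theorem ConstS_P2 : ∀ T : Fin 3 × Fin 3 × Fin 3, T.1 ≠ T.2.1 → T.1 ≠ T.2.2 →
    T.2.1 ≠ T.2.2 → ∀ l e b : Bool, (if e then T.2.1 else T.2.2) = 0 →
    (2 : ℤ) ∣ ConstS_Z T l 1 + (if e then 0 else 1) -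
      ConstS_Z (if b then 1 else 2, 0, if b then 2 else 1) b 1 := by
  decide

private theorem ConstS_P3 : ∀ T : Fin 3 × Fin 3 × Fin 3, T.1 ≠ T.2.1 → T.1 ≠ T.2.2 →
    T.2.1 ≠ T.2.2 → ∀ l e b : Bool, (if e then T.2.1 else T.2.2) ≠ 0 →
    (2 : ℤ) ∣ ConstS_Z T l (if e then T.2.1 else T.2.2) + (if e then 0 else 1) -
      ConstS_Z (if b then 1 else 2, 0, if b then 2 else 1) b (if e then T.2.1 else T.2.2) - 1 := by
  decide

/-! ### Telescoping -/

private theorem ConstS_tele {A : Type*} [AddCommGroup A] (R : ℕ) (a : ℕ → ℕ) (hR : 1 ≤ R)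
    (ha : ∀ i, i ≤ R → 2 ≤ a i) (F v : ℕ → ℕ → A)
    (h0 : ∀ k, 2 ≤ k → k ≤ a 0 → v 0 k = F 0 (k - 1) - F 0 k)
    (h1 : ∀ i k, 1 ≤ i → i ≤ R → 1 ≤ k → k ≤ a i → v i k = F i (k - 1) - F i k)
    (hF : ∀ i, i < R → F (i + 1) 0 = F i (a i)) :
    ∑ i ∈ Finset.range (R + 1), ∑ k ∈ lay R a i, v i k = F 0 1 - F R (a R - 2) := by
  have seg1 : ∀ i, 1 ≤ i → i ≤ R → ∀ n, n ≤ a i →
      ∑ k ∈ Finset.Icc 1 n, v i k = F i 0 - F i n := by
    intro i hi hiR n
    induction n with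
    | zero => intro _; simp
    | succ n ih =>
      intro hn
      rw [Finset.sum_Icc_succ_top (by omega), ih (by omega), h1 i (n + 1) hi hiR (by omega) hn]
      simp
  have seg0 : ∀ n, n + 1 ≤ a 0 → ∑ k ∈ Finset.Icc 2 (n + 1), v 0 k = F 0 1 - F 0 (n + 1) := by
    intro n
    induction n with
    | zero => intro _; simp
    | succ n ih =>
      intro hn
      rw [Finset.sum_Icc_succ_top (by omega), ih (by omega), h0 (n + 1 + 1) (by omega) hn]
      simp
  have part : ∀ r, r + 1 ≤ R →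
      ∑ i ∈ Finset.range (r + 1), ∑ k ∈ lay R a i, v i k = F 0 1 - F (r + 1) 0 := by
    intro r
    induction r with
    | zero =>
      intro hr
      rw [Finset.sum_range_one, hF 0 (by omega)]
      have e : lay R a 0 = Finset.Icc 2 (a 0 - 1 + 1) := by
        have := ha 0 (by omega)
        unfold lay
        rw [if_pos rfl, if_neg (by omega)]
        congr 1
        omega
      have h2 := ha 0 (by omega)
      rw [e, seg0 _ (by omega)]
      congr 2
      omega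
    | succ r ih =>
      intro hr
      rw [Finset.sum_range_succ, ih (by omega), hF (r + 1) (by omega)]
      have e : lay R a (r + 1) = Finset.Icc 1 (a (r + 1)) := by
        unfold lay
        rw [if_neg (by omega), if_neg (by omega)]
      rw [e, seg1 _ (by omega) (by omega) _ le_rfl]
      abel
  obtain ⟨r, rfl⟩ : ∃ r, R = r + 1 := ⟨R - 1, by omega⟩
  rw [Finset.sum_range_succ, part r le_rfl]
  have e : lay (r + 1) a (r + 1) = Finset.Icc 1 (a (r + 1) - 2) := by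
    unfold lay
    rw [if_neg (by omega), if_pos rfl]
  rw [e, seg1 _ (by omega) le_rfl _ (by omega)]
  abel

private theorem ConstS_CC (a : ℕ → ℕ) (b : Bool) (i k : ℕ) (hk : 1 ≤ k) :
    CC a b i k = ConstS_D (clR a b i) (lf b i) (decide (Even k)) := by
  obtain ⟨n, rfl⟩ : ∃ n, k = n + 1 := ⟨k - 1, by omega⟩
  unfold CC cP cS ConstS_D
  rw [Nat.add_sub_cancel]
  by_cases h : Even n
  · have h' : ¬ Even (n + 1) := by rw [Nat.even_add_one]; exact not_not.mpr h
    simp [h, h']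
  · have h' : Even (n + 1) := by rw [Nat.even_add_one]; exact h
    simp [h, h']

private theorem ConstS_cS (a : ℕ → ℕ) (b : Bool) (i k : ℕ) :
    cS a b i k = if decide (Even k) then (clR a b i).2.1 else (clR a b i).2.2 := by
  unfold cS
  simp

private theorem ConstS_cS1 (a : ℕ → ℕ) (b : Bool) (i k : ℕ) :
    cS a b i (k + 1) = if decide (Even k) then (clR a b i).2.2 else (clR a b i).2.1 := by
  unfold cS
  by_cases h : Even k
  · have h' : ¬ Even (k + 1) := by rw [Nat.even_add_one]; exact not_not.mpr h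
    simp [h, h']
  · have h' : Even (k + 1) := by rw [Nat.even_add_one]; exact h
    simp [h, h']

private theorem ConstS_sg (b : Bool) (i : ℕ) : sg b i = ConstS_s (lf b i) := rfl

private theorem ConstS_clR (a : ℕ → ℕ) (b : Bool) (i : ℕ) :
    clR a b (i + 1) = if decide (Even (a i)) then
      ((clR a b i).2.1, (clR a b i).1, (clR a b i).2.2) else
      ((clR a b i).2.2, (clR a b i).1, (clR a b i).2.1) := by
  rw [clR]
  simp

private theorem ConstS_D_succ (T : Fin 3 × Fin 3 × Fin 3) (l e : Bool) :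
    ConstS_D (if e then (T.2.1, T.1, T.2.2) else (T.2.2, T.1, T.2.1)) (!l) true =
      ConstS_D T l e := by
  unfold ConstS_D
  cases l <;> cases e <;> rfl

/-! ### The numbers of the layers -/

private theorem ConstS_oa_succ (a : ℕ → ℕ) (i : ℕ) : oa a (i + 1) = oa a i + a i := by
  unfold oa
  rw [Finset.sum_range_succ]

private theorem ConstS_oa_mono (a : ℕ → ℕ) {i j : ℕ} (h : i ≤ j) : oa a i ≤ oa a j := by
  unfold oa
  exact Finset.sum_le_sum_of_subset (Finset.range_mono h)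

private theorem ConstS_inj (a : ℕ → ℕ) {i k i' k' : ℕ} (hk : 1 ≤ k) (hk2 : k ≤ a i)
    (hk' : 1 ≤ k') (hk2' : k' ≤ a i') (h : oa a i + k = oa a i' + k') : i = i' ∧ k = k' := by
  have e : i = i' := by
    by_contra hne
    rcases lt_or_gt_of_ne hne with hlt | hlt
    · have h1 := ConstS_oa_mono a (show i + 1 ≤ i' from hlt)
      rw [ConstS_oa_succ] at h1
      omega
    · have h1 := ConstS_oa_mono a (show i' + 1 ≤ i from hlt)
      rw [ConstS_oa_succ] at h1
      omega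
  subst e
  exact ⟨rfl, by omega⟩

/-! ### The layer of the change -/

private theorem ConstS_om_ne (R : ℕ) (a : ℕ → ℕ) (b : Bool) : om R a b ≠ 0 := by
  unfold om
  split
  · decide
  · assumption

private theorem ConstS_neg : ∀ x w : Fin 3, x ≠ 0 → w ≠ 0 → x ≠ w → x = -w := by
  decide

/-- The ordering changes at a layer, if the link is a knot. -/
theorem jj_spec (R : ℕ) (a : ℕ → ℕ) (b : Bool) (hR : 1 ≤ R) (ha : ∀ i, i ≤ R → 2 ≤ a i)
    (h0 : cS a b R (a R) ≠ 0) :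
    ∃ i k, i ≤ R ∧ k ∈ lay R a i ∧ jj R a b + 1 = oa a i + k ∧
      cS a b i (k - 1) = -om R a b := by
  have hw : om R a b = cS a b R (a R) := by unfold om; rw [if_neg h0]
  have h00 := ha 0 (by omega)
  have hwne := ConstS_om_ne R a b
  by_cases hc : cP a b 0 = om R a b
  · refine ⟨0, 2, by omega, ?_, ?_, ?_⟩
    · unfold lay
      rw [if_pos rfl, if_neg (by omega)]
      exact Finset.mem_Icc.mpr ⟨le_rfl, h00⟩
    · unfold jj
      rw [if_neg h0, if_pos hc]
      simp [oa]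
    · rw [← hc]
      cases b <;> simp [cS, cP, clR] <;> decide
  · have hcP : cP a b 0 = -om R a b := by
      refine ConstS_neg _ _ ?_ hwne hc
      cases b <;> simp [cP, clR]
    have hc1 : cS a b 1 0 = cP a b 0 := by
      rw [ConstS_cS, ConstS_clR]
      unfold cP
      cases decide (Even (a 0)) <;> simp
    refine ⟨1, 1, hR, ?_, ?_, ?_⟩
    · unfold lay
      rw [if_neg (by omega)]
      by_cases hR1 : 1 = R
      · subst hR1
        rw [if_pos rfl]
        refine Finset.mem_Icc.mpr ⟨le_rfl, ?_⟩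
        by_contra hcon
        have h2 := ha 1 le_rfl
        have h3 : a 1 = 2 := by omega
        have h4 : cS a b 1 (a 1) = cS a b 1 0 := by
          rw [h3]
          unfold cS
          simp
        rw [h4, hc1, hcP] at hw
        revert hw hwne
        generalize om 1 a b = x
        revert x
        decide
      · rw [if_neg hR1]
        have := ha 1 hR
        exact Finset.mem_Icc.mpr ⟨le_rfl, by omega⟩
    · unfold jj
      rw [if_neg h0, if_neg hc]
      simp [oa]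
    · rw [Nat.sub_self, hc1, hcP]

private theorem ConstS_jj_pos (R : ℕ) (a : ℕ → ℕ) (b : Bool) (ha : ∀ i, i ≤ R → 2 ≤ a i) :
    1 ≤ jj R a b := by
  have h0 := ha 0 (by omega)
  unfold jj
  split
  · have := ConstS_oa_mono a (show 1 ≤ R + 1 by omega)
    rw [show oa a 1 = a 0 by simp [oa]] at this
    omega
  · split
    · exact le_rfl
    · omega

private theorem ConstS_mem (R : ℕ) (a : ℕ → ℕ) {i k : ℕ} (hk : k ∈ lay R a i) :
    1 ≤ k ∧ k ≤ a i ∧ (i = 0 → 2 ≤ k) ∧ (i = R → k ≤ a i - 2) := by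
  unfold lay at hk
  rw [Finset.mem_Icc] at hk
  obtain ⟨h1, h2⟩ := hk
  refine ⟨?_, ?_, ?_, ?_⟩
  · split at h1 <;> omega
  · split at h2 <;> omega
  · intro h
    rw [if_pos h] at h1
    exact h1
  · intro h
    rw [if_pos h] at h2
    exact h2

/-- The layer `j`. -/
private theorem ConstS_layer (R : ℕ) (a : ℕ → ℕ) (b : Bool) (hR : 1 ≤ R)
    (ha : ∀ i, i ≤ R → 2 ≤ a i) {i k : ℕ} (hi : i ≤ R) (hk : 1 ≤ k) (hk2 : k ≤ a i)
    (h : oa a i + k - 1 = jj R a b) :
    cS a b R (a R) ≠ 0 ∧ cS a b i (k - 1) = -om R a b := by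
  have h0 : cS a b R (a R) ≠ 0 := by
    intro h0
    unfold jj at h
    rw [if_pos h0] at h
    have h1 := ConstS_oa_mono a (show i + 1 ≤ R + 1 by omega)
    rw [ConstS_oa_succ] at h1
    omega
  refine ⟨h0, ?_⟩
  obtain ⟨i', k', hi', hk', hj, hc⟩ := jj_spec R a b hR ha h0
  obtain ⟨m1, m2, -, -⟩ := ConstS_mem R a hk'
  obtain ⟨rfl, rfl⟩ := ConstS_inj a hk hk2 m1 m2 (by omega)
  exact hc

private theorem ConstS_last (R : ℕ) (a : ℕ → ℕ) (b : Bool) (hR : 1 ≤ R)
    (ha : ∀ i, i ≤ R → 2 ≤ a i) (h0 : cS a b R (a R) ≠ 0) :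
    jj R a b ≤ oa a R + (a R - 2) - 1 := by
  obtain ⟨i', k', hi', hk', hj, hc⟩ := jj_spec R a b hR ha h0
  obtain ⟨m1, m2, -, m4⟩ := ConstS_mem R a hk'
  rcases eq_or_lt_of_le hi' with rfl | hlt
  · have := m4 rfl
    omega
  · have h1 := ConstS_oa_mono a (show i' + 1 ≤ R from hlt)
    rw [ConstS_oa_succ] at h1
    omega

/-! ### The corrections of one layer -/

private theorem ConstS_two (c o : Fin 3 × Fin 3 × Fin 3) (P Q : ℤ) :
    ∃ n : ℤ, ordConst c o P Q + ordConst c o P Q = (ConstS_th c o : ℂ) / 3 + n := by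
  unfold ordConst ConstS_th
  split_ifs
  · exact ⟨0, by push_cast; ring⟩
  · exact ⟨Q, by push_cast; ring⟩
  · exact ⟨P, by push_cast; ring⟩
  · exact ⟨P, by push_cast; ring⟩
  · exact ⟨1 + Q, by push_cast; ring⟩
  · exact ⟨0, by push_cast; ring⟩

private theorem ConstS_cases : ∀ c : Fin 3 × Fin 3 × Fin 3, c.1 ≠ c.2.1 → c.1 ≠ c.2.2 →
    c.2.1 ≠ c.2.2 → ∀ w : Fin 3, w ≠ 0 → c.2.2 = -w → c = (0, w, -w) ∨ c = (w, 0, -w) := by
  decide

private theorem ConstS_d1 : ∀ w : Fin 3, w ≠ 0 → ((0, w, -w) : Fin 3 × Fin 3 × Fin 3) ≠ (-w, w, 0) ∧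
    ((0, w, -w) : Fin 3 × Fin 3 × Fin 3) ≠ (0, -w, w) ∧
    ((0, w, -w) : Fin 3 × Fin 3 × Fin 3) ≠ (w, 0, -w) ∧
    ((0, w, -w) : Fin 3 × Fin 3 × Fin 3) ≠ (w, -w, 0) ∧
    ((0, w, -w) : Fin 3 × Fin 3 × Fin 3) ≠ (-w, 0, w) ∧
    ((w, 0, -w) : Fin 3 × Fin 3 × Fin 3) ≠ (-w, w, 0) ∧
    ((w, 0, -w) : Fin 3 × Fin 3 × Fin 3) ≠ (0, -w, w) ∧
    ((w, 0, -w) : Fin 3 × Fin 3 × Fin 3) ≠ (w, -w, 0) ∧
    ((w, 0, -w) : Fin 3 × Fin 3 × Fin 3) ≠ (-w, 0, w) := by
  decide

private theorem ConstS_both (w : Fin 3) (hw : w ≠ 0) (c : Fin 3 × Fin 3 × Fin 3)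
    (hc : c = (0, w, -w) ∨ c = (w, 0, -w)) (P Q : ℤ) :
    ordConst c (0, w, -w) P Q + ordConst c (w, 0, -w) P Q = P / 2 := by
  obtain ⟨d1, d2, d3, d4, d5, d6, d7, d8, d9⟩ := ConstS_d1 w hw
  rcases hc with rfl | rfl
  · have e1 : ordConst (0, w, -w) (0, w, -w) P Q = 1 / 6 := by
      unfold ordConst
      rw [if_neg d1, if_neg d2, if_neg d3, if_neg d4, if_neg d5]
    have e2 : ordConst (0, w, -w) (w, 0, -w) P Q = -1 / 6 + P / 2 := by
      unfold ordConst
      rw [if_neg d5, if_neg d4, if_pos rfl]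
    rw [e1, e2]
    ring
  · have e1 : ordConst (w, 0, -w) (w, 0, -w) P Q = 1 / 6 := by
      unfold ordConst
      rw [if_neg d9, if_neg d8, if_neg d3.symm, if_neg d7, if_neg d6]
    have e2 : ordConst (w, 0, -w) (0, w, -w) P Q = -1 / 6 + P / 2 := by
      unfold ordConst
      rw [if_neg d6, if_neg d7, if_pos rfl]
    rw [e1, e2]
    ring

private theorem ConstS_sum {ι : Type*} (s : Finset ι) (f g : ι → ℂ)
    (h : ∀ x ∈ s, ∃ n : ℤ, f x = g x + n) :
    ∃ n : ℤ, ∑ x ∈ s, f x = ∑ x ∈ s, g x + n := by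
  choose! n hn using h
  refine ⟨∑ x ∈ s, n x, ?_⟩
  rw [Finset.sum_congr rfl hn, Finset.sum_add_distrib]
  push_cast
  rfl

private noncomputable def ConstS_g (R : ℕ) (a : ℕ → ℕ) (b : Bool) (i k : ℕ) : ℤ :=
  if oa a i + k - 1 = jj R a b then 0 else
    ConstS_th (CC a b i k) (ConstS_o (om R a b) (decide (oa a i + k - 1 < jj R a b)))

private noncomputable def ConstS_x (R : ℕ) (a : ℕ → ℕ) (b : Bool) (i k : ℕ) : ℤ :=
  if oa a i + k - 1 = jj R a b then 1 else 0

private theorem ConstS_ordr (w : Fin 3) (j i : ℕ) (h : Bool) (hne : i ≠ j) :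
    ordr w j i h = ConstS_o w (decide (i < j)) := by
  unfold ordr ConstS_o
  by_cases hlt : i < j
  · simp [hlt]
  · simp [hlt, hne]

private theorem ConstS_CC_ne (a : ℕ → ℕ) (b : Bool) (i k : ℕ) (hk : 1 ≤ k) :
    (CC a b i k).1 ≠ (CC a b i k).2.1 ∧ (CC a b i k).1 ≠ (CC a b i k).2.2 ∧
      (CC a b i k).2.1 ≠ (CC a b i k).2.2 := by
  rw [ConstS_CC a b i k hk]
  obtain ⟨h1, h2, h3⟩ := clR_ne a b i
  unfold ConstS_D
  cases lf b i <;> cases decide (Even k)
  · exact ⟨h2.symm, h3.symm, h1⟩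
  · exact ⟨h1.symm, h3, h2⟩
  · exact ⟨h2, h1, h3.symm⟩
  · exact ⟨h1, h2, h3⟩

private theorem ConstS_CC_behind (a : ℕ → ℕ) (b : Bool) (i k : ℕ) :
    (CC a b i k).2.2 = cS a b i (k - 1) := by
  unfold CC
  split <;> rfl

private theorem ConstS_one (R : ℕ) (a : ℕ → ℕ) (b : Bool) (hR : 1 ≤ R)
    (ha : ∀ i, i ≤ R → 2 ≤ a i) (P Q : ℕ → ℕ → ℤ)
    (hP : ∀ i k, i ≤ R → k ∈ lay R a i → cS a b i (k - 1) = -om R a b → Odd (P i k))
    (i k : ℕ) (hi : i ≤ R) (hk : k ∈ lay R a i) :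
    ∃ n : ℤ, ∑ h : Bool,
      ordConst (CC a b i k) (ordr (om R a b) (jj R a b) (oa a i + k - 1) h) (P i k) (Q i k) =
        ((ConstS_g R a b i k : ℂ) / 3 + (ConstS_x R a b i k : ℂ) / 2) + n := by
  obtain ⟨m1, m2, -, -⟩ := ConstS_mem R a hk
  rw [Fintype.sum_bool]
  unfold ConstS_g ConstS_x
  by_cases hj : oa a i + k - 1 = jj R a b
  · obtain ⟨-, hb⟩ := ConstS_layer R a b hR ha hi m1 m2 hj
    obtain ⟨n, hn⟩ := hP i k hi hk hb
    obtain ⟨c1, c2, c3⟩ := ConstS_CC_ne a b i k m1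
    have hcc := ConstS_cases _ c1 c2 c3 _ (ConstS_om_ne R a b)
      ((ConstS_CC_behind a b i k).trans hb)
    have e1 : ordr (om R a b) (jj R a b) (oa a i + k - 1) true = (0, om R a b, -om R a b) := by
      unfold ordr
      rw [if_pos (Or.inr ⟨hj, rfl⟩)]
    have e2 : ordr (om R a b) (jj R a b) (oa a i + k - 1) false = (om R a b, 0, -om R a b) := by
      unfold ordr
      rw [if_neg]
      rw [hj]
      simp
    rw [e1, e2, ConstS_both _ (ConstS_om_ne R a b) _ hcc, if_pos hj, if_pos hj, hn]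
    refine ⟨n, ?_⟩
    push_cast
    ring
  · rw [ConstS_ordr _ _ _ _ hj, ConstS_ordr _ _ _ _ hj, if_neg hj, if_neg hj]
    obtain ⟨n, hn⟩ := ConstS_two (CC a b i k)
      (ConstS_o (om R a b) (decide (oa a i + k - 1 < jj R a b))) (P i k) (Q i k)
    refine ⟨n, ?_⟩
    rw [hn]
    push_cast
    ring

/-! ### The sum modulo 3 -/

private noncomputable def ConstS_G (R : ℕ) (a : ℕ → ℕ) (b : Bool) (i k : ℕ) : ℤ :=
  ConstS_th (ConstS_D (clR a b i) (lf b i) (decide (Even k)))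
    (ConstS_o (om R a b) (decide (oa a i + k - 1 < jj R a b)))

private noncomputable def ConstS_F (R : ℕ) (a : ℕ → ℕ) (b : Bool) (i k : ℕ) : ZMod 3 :=
  ((ConstS_G R a b i k - ∑ m ∈ Finset.range i, (a m : ℤ) * sg b m - k * sg b i : ℤ) : ZMod 3)

private theorem ConstS_step (R : ℕ) (a : ℕ → ℕ) (b : Bool) (hR : 1 ≤ R)
    (ha : ∀ i, i ≤ R → 2 ≤ a i) (i k : ℕ) (hi : i ≤ R) (hk : 1 ≤ k) (hk2 : k ≤ a i)
    (h2 : 2 ≤ oa a i + k) :
    ((ConstS_g R a b i k : ℤ) : ZMod 3) = ConstS_F R a b i (k - 1) - ConstS_F R a b i k := by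
  have hj1 := ConstS_jj_pos R a b ha
  have hw := ConstS_om_ne R a b
  obtain ⟨t1, t2, t3⟩ := clR_ne a b i
  unfold ConstS_F
  rw [← Int.cast_sub, ← sub_eq_zero, ← Int.cast_sub, ZMod.intCast_zmod_eq_zero_iff_dvd]
  unfold ConstS_g ConstS_G
  rw [ConstS_CC a b i k hk, ConstS_sg]
  obtain ⟨n, rfl⟩ : ∃ n, k = n + 1 := ⟨k - 1, by omega⟩
  have he : decide (Even n) = !decide (Even (n + 1)) := by
    by_cases h : Even n
    · have h' : ¬ Even (n + 1) := by rw [Nat.even_add_one]; exact not_not.mpr h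
      simp [h, h']
    · have h' : Even (n + 1) := by rw [Nat.even_add_one]; exact h
      simp [h, h']
  rw [Nat.add_sub_cancel, he]
  have hcc := ConstS_CC a b i (n + 1) hk
  have hbe := ConstS_CC_behind a b i (n + 1)
  rw [hcc] at hbe
  generalize decide (Even (n + 1)) = e at *
  rcases lt_trichotomy (oa a i + (n + 1) - 1) (jj R a b) with h | h | h
  · rw [if_neg h.ne, decide_eq_true h, decide_eq_true (show oa a i + n - 1 < jj R a b by omega)]
    obtain ⟨m, hm⟩ := ConstS_F1 _ t1 t2 t3 (lf b i) e _ hw true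
    refine ⟨ConstS_th (ConstS_D (clR a b i) (lf b i) e) (ConstS_o (om R a b) true) - m, ?_⟩
    push_cast
    linear_combination -hm
  · obtain ⟨-, hb⟩ := ConstS_layer R a b hR ha hi hk hk2 h
    rw [if_pos h, decide_eq_false (show ¬ oa a i + (n + 1) - 1 < jj R a b by omega),
      decide_eq_true (show oa a i + n - 1 < jj R a b by omega)]
    obtain ⟨m, hm⟩ := ConstS_F2 _ t1 t2 t3 (lf b i) e _ hw (hbe.trans hb)
    refine ⟨-m, ?_⟩
    push_cast
    linear_combination -hm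
  · rw [if_neg h.ne', decide_eq_false (show ¬ oa a i + (n + 1) - 1 < jj R a b by omega),
      decide_eq_false (show ¬ oa a i + n - 1 < jj R a b by omega)]
    obtain ⟨m, hm⟩ := ConstS_F1 _ t1 t2 t3 (lf b i) e _ hw false
    refine ⟨ConstS_th (ConstS_D (clR a b i) (lf b i) e) (ConstS_o (om R a b) false) - m, ?_⟩
    push_cast
    linear_combination -hm

private theorem ConstS_sgsum (b : Bool) (R : ℕ) :
    2 * ∑ i ∈ Finset.range (R + 1), sg b i = sg b 0 + sg b R := by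
  induction R with
  | zero => simp; ring
  | succ R ih =>
    rw [Finset.sum_range_succ, mul_add, ih]
    have : sg b (R + 1) = -sg b R := by
      unfold sg
      rw [lf]
      cases lf b R <;> simp
    rw [this]
    ring

private theorem ConstS_oa_pos (a : ℕ → ℕ) {i R : ℕ} (ha : ∀ i, i ≤ R → 2 ≤ a i) (hi : 1 ≤ i) :
    2 ≤ oa a i := by
  have h1 := ConstS_oa_mono a hi
  rw [show oa a 1 = a 0 by simp [oa]] at h1
  have := ha 0 (by omega)
  omega

private theorem ConstS_idx (a : ℕ → ℕ) (i : ℕ) : oa a (i + 1) + 0 - 1 = oa a i + a i - 1 := by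
  rw [ConstS_oa_succ, Nat.add_zero]

private theorem ConstS_par (n : ℕ) : decide (Even (n + 2)) = decide (Even n) := by
  rw [decide_eq_decide, Nat.even_add]
  simp

private theorem ConstS_mod3 (R : ℕ) (a : ℕ → ℕ) (b : Bool) (hR : 1 ≤ R)
    (ha : ∀ i, i ≤ R → 2 ≤ a i) :
    ∃ n : ℤ, ∑ i ∈ Finset.range (R + 1), ∑ k ∈ lay R a i, ConstS_g R a b i k =
      ∑ i ∈ Finset.range (R + 1), sg b i * ((a i : ℤ) - 1) + (sg b 0 + sg b R) + 3 * n := by
  have hj1 := ConstS_jj_pos R a b ha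
  have hw := ConstS_om_ne R a b
  have key := ConstS_tele (A := ZMod 3) R a hR ha (ConstS_F R a b)
    (fun i k => ((ConstS_g R a b i k : ℤ) : ZMod 3))
    (fun k hk hk2 => ConstS_step R a b hR ha 0 k (by omega) (by omega) hk2 (by omega))
    (fun i k hi hiR hk hk2 => ConstS_step R a b hR ha i k hiR hk hk2 (by
      have := ConstS_oa_pos a ha hi
      omega))
    (fun i hi => by
      unfold ConstS_F ConstS_G
      congr 1
      rw [ConstS_idx, Finset.sum_range_succ, ConstS_clR, lf]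
      have := ConstS_D_succ (clR a b i) (lf b i) (decide (Even (a i)))
      rw [show decide (Even 0) = true from rfl, this]
      push_cast
      ring)
  have e1 : ConstS_G R a b 0 1 = 0 := by
    unfold ConstS_G
    have : decide (oa a 0 + 1 - 1 < jj R a b) = true := by
      apply decide_eq_true
      simp only [oa, Finset.range_zero, Finset.sum_empty]
      omega
    rw [this]
    exact ConstS_F3 b _ hw
  obtain ⟨t1, t2, t3⟩ := clR_ne a b R
  have hpar : decide (Even (a R - 2)) = decide (Even (a R)) := by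
    have h2 := ha R le_rfl
    obtain ⟨n, hn⟩ : ∃ n, a R = n + 2 := ⟨a R - 2, by omega⟩
    rw [hn, Nat.add_sub_cancel, ConstS_par]
  have e2 : (3 : ℤ) ∣ ConstS_G R a b R (a R - 2) + sg b R := by
    unfold ConstS_G
    rw [hpar, ConstS_sg]
    have hcS := ConstS_cS a b R (a R)
    by_cases h0 : cS a b R (a R) = 0
    · have hlast : decide (oa a R + (a R - 2) - 1 < jj R a b) = true := by
        apply decide_eq_true
        unfold jj
        rw [if_pos h0, ConstS_oa_succ]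
        have := ha R le_rfl
        omega
      have ho : om R a b = 1 := by unfold om; rw [if_pos h0]
      rw [hlast, ho]
      exact ConstS_F4 _ t1 t2 t3 _ _ (hcS.symm.trans h0)
    · have hlast : decide (oa a R + (a R - 2) - 1 < jj R a b) = false := by
        apply decide_eq_false
        have := ConstS_last R a b hR ha h0
        omega
      have ho : om R a b = if decide (Even (a R)) then (clR a b R).2.1 else (clR a b R).2.2 := by
        unfold om
        rw [if_neg h0, hcS]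
      rw [hlast, ho]
      exact ConstS_F5 _ t1 t2 t3 _ _ (by rw [← hcS]; exact h0)
  obtain ⟨m, hm⟩ := e2
  have hs := ConstS_sgsum b R
  have h2R := ha R le_rfl
  have hd : (3 : ℤ) ∣ ∑ i ∈ Finset.range (R + 1), ∑ k ∈ lay R a i, ConstS_g R a b i k -
      (∑ i ∈ Finset.range (R + 1), sg b i * ((a i : ℤ) - 1) + (sg b 0 + sg b R)) := by
    suffices hz : ((∑ i ∈ Finset.range (R + 1), ∑ k ∈ lay R a i, ConstS_g R a b i k -
      (∑ i ∈ Finset.range (R + 1), sg b i * ((a i : ℤ) - 1) + (sg b 0 + sg b R)) : ℤ) :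
        ZMod 3) = 0 by
      have := (ZMod.intCast_zmod_eq_zero_iff_dvd _ 3).mp hz
      exact_mod_cast this
    rw [Int.cast_sub]
    have e3 : ((∑ i ∈ Finset.range (R + 1), ∑ k ∈ lay R a i, ConstS_g R a b i k : ℤ) : ZMod 3) =
        ∑ i ∈ Finset.range (R + 1), ∑ k ∈ lay R a i, ((ConstS_g R a b i k : ℤ) : ZMod 3) := by
      rw [Int.cast_sum]
      exact Finset.sum_congr rfl fun i _ => Int.cast_sum _ _
    rw [e3, key]
    unfold ConstS_F
    rw [← Int.cast_sub, ← Int.cast_sub, ZMod.intCast_zmod_eq_zero_iff_dvd]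
    have e4 : ∑ i ∈ Finset.range (R + 1), sg b i * ((a i : ℤ) - 1) =
        ∑ i ∈ Finset.range R, (a i : ℤ) * sg b i + a R * sg b R -
          ∑ i ∈ Finset.range (R + 1), sg b i := by
      rw [← Finset.sum_range_succ (fun i => (a i : ℤ) * sg b i), ← Finset.sum_sub_distrib]
      exact Finset.sum_congr rfl fun i _ => by ring
    have e5 : ((a R - 2 : ℕ) : ℤ) = a R - 2 := by
      rw [Nat.cast_sub h2R]
      norm_num
    rw [e1, e4, e5]
    generalize ∑ i ∈ Finset.range (R + 1), sg b i = x at *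
    generalize ∑ i ∈ Finset.range R, (a i : ℤ) * sg b i = y at *
    simp only [Finset.range_zero, Finset.sum_empty, Nat.cast_one]
    refine ⟨-x - m, ?_⟩
    push_cast
    linear_combination -hm + 2 * hs
  obtain ⟨n, hn⟩ := hd
  exact ⟨n, by linear_combination hn⟩

/-! ### The sum modulo 2 -/

private noncomputable def ConstS_X (R : ℕ) (a : ℕ → ℕ) (b : Bool) (i k : ℕ) : ℤ :=
  if jj R a b ≤ oa a i + k - 1 then -1 else 0

private theorem ConstS_xsum (R : ℕ) (a : ℕ → ℕ) (b : Bool) (hR : 1 ≤ R)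
    (ha : ∀ i, i ≤ R → 2 ≤ a i) :
    ∑ i ∈ Finset.range (R + 1), ∑ k ∈ lay R a i, ConstS_x R a b i k =
      if cS a b R (a R) = 0 then 0 else 1 := by
  have hj1 := ConstS_jj_pos R a b ha
  have step : ∀ i k, 2 ≤ oa a i + k → 1 ≤ k →
      ConstS_x R a b i k = ConstS_X R a b i (k - 1) - ConstS_X R a b i k := by
    intro i k h2 hk
    unfold ConstS_x ConstS_X
    rcases lt_trichotomy (oa a i + k - 1) (jj R a b) with h | h | h
    · rw [if_neg h.ne, if_neg (by omega), if_neg (by omega)]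
      rfl
    · rw [if_pos h, if_neg (by omega), if_pos (by omega)]
      rfl
    · rw [if_neg h.ne', if_pos (by omega), if_pos (by omega)]
      rfl
  rw [ConstS_tele (A := ℤ) R a hR ha (ConstS_X R a b) (ConstS_x R a b)
    (fun k hk _ => step 0 k (by omega) (by omega))
    (fun i k hi _ hk _ => step i k (by
      have := ConstS_oa_pos a ha hi
      omega) hk)
    (fun i _ => by
      unfold ConstS_X
      rw [ConstS_idx])]
  unfold ConstS_X
  have h0 : oa a 0 + 1 - 1 = 0 := by simp [oa]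
  rw [h0, if_neg (by omega)]
  by_cases hc : cS a b R (a R) = 0
  · rw [if_pos hc, if_neg]
    · rfl
    · have := ha R le_rfl
      unfold jj
      rw [if_pos hc, ConstS_oa_succ]
      omega
  · rw [if_neg hc, if_pos (ConstS_last R a b hR ha hc)]
    rfl

private theorem ConstS_parity (n : ℕ) :
    (2 : ℤ) ∣ (n : ℤ) - (if decide (Even n) then 0 else 1) := by
  by_cases h : Even n
  · obtain ⟨m, hm⟩ := h
    have h' : Even n := ⟨m, hm⟩
    refine ⟨m, ?_⟩
    simp [h']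
    omega
  · have h' := h
    rw [Nat.not_even_iff_odd] at h
    obtain ⟨m, hm⟩ := h
    refine ⟨m, ?_⟩
    simp [h']
    omega

private theorem ConstS_Zi (R : ℕ) (a : ℕ → ℕ) (b : Bool) (i : ℕ) :
    (2 : ℤ) ∣ ConstS_Z (clR a b i) (lf b i) (om R a b) -
      (ConstS_Z (clR a b 0) (lf b 0) (om R a b) + ∑ m ∈ Finset.range i,
        ((a m : ℤ) + if cS a b m (a m + 1) = -om R a b then 1 else 0)) := by
  have hw := ConstS_om_ne R a b
  induction i with
  | zero => simp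
  | succ i ih =>
    obtain ⟨t1, t2, t3⟩ := clR_ne a b i
    have h := ConstS_P1 _ t1 t2 t3 (lf b i) (decide (Even (a i))) _ hw
    rw [← ConstS_clR, ← ConstS_cS1] at h
    have hp := ConstS_parity (a i)
    rw [Finset.sum_range_succ, show lf b (i + 1) = !lf b i from rfl]
    obtain ⟨x, hx⟩ := ih
    obtain ⟨y, hy⟩ := h
    obtain ⟨z, hz⟩ := hp
    exact ⟨x + y - z, by linear_combination hx + hy - hz⟩

private theorem ConstS_mod2 (R : ℕ) (a : ℕ → ℕ) (b : Bool) (hR : 1 ≤ R)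
    (ha : ∀ i, i ≤ R → 2 ≤ a i) :
    ∃ n : ℤ, ∑ i ∈ Finset.range (R + 1), ∑ k ∈ lay R a i, ConstS_x R a b i k =
      ∑ i ∈ Finset.range R, (if cS a b i (a i + 1) = -om R a b then (1 : ℤ) else 0) +
        ∑ i ∈ Finset.range (R + 1), (a i : ℤ) + 2 * n := by
  rw [ConstS_xsum R a b hR ha]
  obtain ⟨x, hx⟩ := ConstS_Zi R a b R
  obtain ⟨z, hz⟩ := ConstS_parity (a R)
  obtain ⟨t1, t2, t3⟩ := clR_ne a b R
  have hcS := ConstS_cS a b R (a R)
  rw [Finset.sum_add_distrib] at hx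
  rw [Finset.sum_range_succ]
  by_cases h0 : cS a b R (a R) = 0
  · have ho : om R a b = 1 := by unfold om; rw [if_pos h0]
    obtain ⟨y, hy⟩ := ConstS_P2 _ t1 t2 t3 (lf b R) (decide (Even (a R))) b (hcS.symm.trans h0)
    rw [if_pos h0]
    rw [ho] at hx ⊢
    rw [show clR a b 0 = (if b then 1 else 2, 0, if b then 2 else 1) from rfl,
      show lf b 0 = b from rfl] at hx
    exact ⟨x - y - z, by linear_combination hx - hy - hz⟩
  · have ho : om R a b = if decide (Even (a R)) then (clR a b R).2.1 else (clR a b R).2.2 := by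
      unfold om
      rw [if_neg h0, hcS]
    obtain ⟨y, hy⟩ := ConstS_P3 _ t1 t2 t3 (lf b R) (decide (Even (a R))) b
      (by rw [← hcS]; exact h0)
    rw [if_neg h0]
    rw [← ho] at hy
    rw [show clR a b 0 = (if b then 1 else 2, 0, if b then 2 else 1) from rfl,
      show lf b 0 = b from rfl] at hx
    exact ⟨x - y - z, by linear_combination hx - hy - hz⟩

/-- The sum of the corrections. -/
theorem const_eq (R : ℕ) (a : ℕ → ℕ) (b : Bool) (hR : 1 ≤ R) (ha : ∀ i, i ≤ R → 2 ≤ a i)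
    (P Q : ℕ → ℕ → ℤ)
    (hP : ∀ i k, i ≤ R → k ∈ lay R a i → cS a b i (k - 1) = -om R a b → Odd (P i k)) :
    ∃ n : ℤ, ∑ i ∈ Finset.range (R + 1), ∑ k ∈ lay R a i, ∑ h : Bool,
      ordConst (CC a b i k) (ordr (om R a b) (jj R a b) (oa a i + k - 1) h) (P i k) (Q i k) =
        KK R a b + n := by
  obtain ⟨n, hn⟩ := ConstS_sum (Finset.range (R + 1)) _ _ (fun i hi =>
    ConstS_sum (lay R a i) _ _ (fun k hk => ConstS_one R a b hR ha P Q hP i k
      (by rw [Finset.mem_range] at hi; omega) hk))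
  rw [hn]
  obtain ⟨n3, h3⟩ := ConstS_mod3 R a b hR ha
  obtain ⟨n2, h2⟩ := ConstS_mod2 R a b hR ha
  refine ⟨n3 + n2 + n, ?_⟩
  have e1 : ∑ i ∈ Finset.range (R + 1), ∑ k ∈ lay R a i,
      ((ConstS_g R a b i k : ℂ) / 3 + (ConstS_x R a b i k : ℂ) / 2) =
      ((∑ i ∈ Finset.range (R + 1), ∑ k ∈ lay R a i, ConstS_g R a b i k : ℤ) : ℂ) / 3 +
        ((∑ i ∈ Finset.range (R + 1), ∑ k ∈ lay R a i, ConstS_x R a b i k : ℤ) : ℂ) / 2 := by
    push_cast
    simp only [Finset.sum_add_distrib, Finset.sum_div]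
  have e2 : ∑ i ∈ Finset.range (R + 1), (sg b i : ℂ) * ((a i : ℂ) - 1) / 3 =
      ((∑ i ∈ Finset.range (R + 1), sg b i * ((a i : ℤ) - 1) : ℤ) : ℂ) / 3 := by
    push_cast
    rw [Finset.sum_div]
  have e3 : ∑ i ∈ Finset.range R, (if cS a b i (a i + 1) = -om R a b then (1 / 2 : ℂ) else 0) =
      ((∑ i ∈ Finset.range R, (if cS a b i (a i + 1) = -om R a b then (1 : ℤ) else 0) : ℤ) : ℂ) /
        2 := by
    push_cast
    rw [Finset.sum_div]
    refine Finset.sum_congr rfl fun i _ => ?_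
    split <;> simp
  have e4 : ∑ i ∈ Finset.range (R + 1), (a i : ℂ) / 2 =
      ((∑ i ∈ Finset.range (R + 1), (a i : ℤ) : ℤ) : ℂ) / 2 := by
    push_cast
    rw [Finset.sum_div]
  rw [e1, h3, h2]
  unfold KK
  rw [e2, e3, e4]
  push_cast
  ring

end Pool.Agent.S3.CV
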