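import Pool.Agent.S3.CV.SlotS

/-!
# Stage 3, complex volume: the identity of an edge and the layer of a hinge
-/

namespace Pool.Agent.S3.CV

open Pool.Agent.H63.VC3 Pool.Agent.H63.VC5 Complex Filter Topology
open Pool.Agent.H63.VC4 (bet)
open Pool.Agent.H25.RK (gdv gdv_re_lt gdv_hasDerivAt)
open scoped ComplexConjugate

theorem Ds.conj {w b : ℂ} (h : Ds w b) : Ds (conj w) (conj b) := by
  refine ⟨?_, ?_, ?_⟩
  · rw [conj_re]; exact h.w0
  · rw [conj_re]; exact h.b0
  · rw [conj_re, conj_re]; exact h.s1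

theorem EdgeS_cot (z : ℂ) : conj (Complex.cot (Real.pi * conj z)) = Complex.cot (Real.pi * z) := by
  have e : (Real.pi : ℂ) * conj z = conj (Real.pi * z) := by
    rw [map_mul, conj_ofReal]
  rw [e, Complex.cot_conj, conj_conj]

theorem EdgeS_hh {z : ℂ} (h0 : 0 < z.re) (h1 : z.re < 1) : conj (hh (conj z)) = hh z := by
  rw [hh_conj z h0 h1, conj_conj]

theorem EdgeS_Cw {w b : ℂ} (h : Ds w b) :
    conj (LamB_Cw (conj w) (conj b)) = LamB_Cw w b := by
  unfold LamB_Cw
  rw [← map_add]
  simp only [map_add, map_sub, map_mul, map_pow, conj_ofReal, EdgeS_hh h.b0 h.b1,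
    EdgeS_hh h.w0 h.w1, EdgeS_cot, conj_conj]
  rw [← map_add, EdgeS_hh h.s0 h.s1', EdgeS_cot]

theorem EdgeS_Cb {w b : ℂ} (h : Ds w b) :
    conj (LamB_Cb (conj w) (conj b)) = LamB_Cb w b := by
  unfold LamB_Cb
  rw [← map_add]
  simp only [map_add, map_sub, map_mul, map_pow, conj_ofReal, EdgeS_hh h.b0 h.b1,
    EdgeS_hh h.w0 h.w1, EdgeS_cot, conj_conj]
  rw [← map_add, EdgeS_hh h.s0 h.s1', EdgeS_cot]

theorem Lam_conj {w b : ℂ} (h : Ds w b) : Lam (conj w) (conj b) = conj (Lam w b) := by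
  have key := Ds_const (fun w b => conj (Lam (conj w) (conj b)) - Lam w b) ?_ ?_ w b h
  · have e : conj (1 / 3 : ℂ) = 1 / 3 := by
      rw [map_div₀, map_one, map_ofNat]
    simp only [e, Lam_diag] at key
    have e2 : conj ((Real.pi : ℂ) ^ 2 / 6) = (Real.pi : ℂ) ^ 2 / 6 := by
      rw [map_div₀, map_pow, conj_ofReal, map_ofNat]
    rw [e2, sub_self] at key
    have k2 := congrArg conj (sub_eq_zero.1 key)
    rwa [conj_conj] at k2
  · intro w b h
    have h1 := (LS_w (conj w) (conj b) h.conj).conj_conj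
    rw [conj_conj] at h1
    have h2 := h1.sub (LS_w w b h)
    refine h2.congr_deriv ?_
    exact sub_eq_zero.2 (EdgeS_Cw h)
  · intro w b h
    have h1 := (LS_b (conj w) (conj b) h.conj).conj_conj
    rw [conj_conj] at h1
    have h2 := h1.sub (LS_b w b h)
    refine h2.congr_deriv ?_
    exact sub_eq_zero.2 (EdgeS_Cb h)

theorem conj_pi_I : conj ((Real.pi : ℂ) * I) = -(Real.pi * I) := by
  rw [map_mul, conj_ofReal, conj_I]
  ring

theorem conj_pi_I2 : conj ((Real.pi : ℂ) * I / 2) = -(Real.pi * I / 2) := by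
  rw [map_div₀, conj_pi_I, map_ofNat]
  ring

theorem dilog_conj' {z : ℂ} (h : 1 - z ∈ slitPlane) : dilog (conj z) = conj (dilog z) := by
  unfold dilog
  rw [map_neg, ← intervalIntegral.intervalIntegral_conj]
  congr 1
  refine intervalIntegral.integral_congr (fun t ht => ?_)
  rw [Set.uIcc_of_le zero_le_one] at ht
  show Complex.log (1 - (t : ℂ) * conj z) / (t : ℂ) = conj (Complex.log (1 - t * z) / t)
  have h1 := DilogA_slit h ht.1 ht.2
  rw [map_div₀, Complex.conj_ofReal, ← Complex.log_conj]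
  · rw [map_sub, map_one, map_mul, Complex.conj_ofReal]
  · exact (Complex.mem_slitPlane_iff_arg.1 h1).1

/-- An edge: `u` is the variable of the region with the pivot at the left end, `w` the variable of
the other region. -/
structure EQ (u w : ℂ) : Prop where
  q : QO u w
  ur : 0 < u.re
  ui : 0 < u.im
  wr : 0 < w.re
  wi : w.im < 0
  g : |(Lm u w).im| < Real.pi
  g' : |(Lm w u).im| < Real.pi

theorem EQ.qp {u w : ℂ} (h : EQ u w) : QP u w := ⟨h.q, h.ur, h.ui⟩

theorem EQ.qp' {u w : ℂ} (h : EQ u w) : QP (conj w) (conj u) :=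
  ⟨h.q.conj, by rw [conj_re]; exact h.wr, by rw [conj_im]; linarith [h.wi]⟩

/-- The angle of the slot of the second region. -/
noncomputable def bT (u w : ℂ) : ℂ := I * qq w u / Real.pi

theorem bT_eq {u w : ℂ} (h : Reg u w) : conj (bS (conj w) (conj u)) = bT u w := by
  unfold bS bT
  rw [qq_conj h.symm]
  simp

theorem conj_gdv {w : ℂ} (h : |w.im| < Real.pi / 2) : conj (gdv (conj w)) = gdv w := by
  rw [gdv_conj h, conj_conj]

theorem conj_dS {u w : ℂ} (h : Reg u w) : conj (dS (conj w) (conj u)) = -dS u w := by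
  unfold dS
  rw [Lc_conj h.right, Lc_conj h.left, ← map_sub, conj_conj, neg_sub]

theorem conj_nS {u w : ℂ} (h : Reg u w) : conj (nS (conj w) (conj u)) = nS u w + dS u w := by
  unfold nS dS
  rw [Lc_conj h.right, lcy_conj h.symm, ← map_neg, ← map_sub, conj_conj, lcy_comm]
  ring

theorem conj_yy {u w : ℂ} (h : Reg u w) : conj (yy (conj w) (conj u)) = yy u w := by
  rw [yy_conj h.symm, conj_conj, yy_comm]

section edge

variable {u w : ℂ} (h : EQ u w)
include h

/-- `log (sin (π b) / sin (π v))` for the second region. -/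
theorem EQ.f0 : hh (bT u w) - hh (gdv w) = -dS u w + Real.pi * I / 2 := by
  have k := congrArg conj h.qp'.e0
  have hd := h.qp'.ds
  rw [map_sub, map_sub, conj_dS h.q.reg, ← hh_conj _ hd.b0 hd.b1, ← hh_conj _ hd.w0 hd.w1,
    bT_eq h.q.reg, conj_gdv h.q.reg.right] at k
  rw [k, conj_pi_I2]
  ring

theorem EQ.ds' : Ds (gdv w) (bT u w) := by
  have k := h.qp'.ds.conj
  rwa [bT_eq h.q.reg, conj_gdv h.q.reg.right] at k

/-- `log (sin (π (v + b)) / sin (π v))` for the second region. -/
theorem EQ.f1 : hh (gdv w + bT u w) - hh (gdv w) =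
    nS u w + Real.pi * I / 2 - Real.pi * I * yy u w := by
  have k := congrArg conj h.qp'.e1
  have hd := h.qp'.ds
  rw [map_sub, map_add, map_sub, map_add, map_mul, conj_dS h.q.reg, conj_nS h.q.reg,
    conj_yy h.q.reg, ← hh_conj _ hd.s0 hd.s1', ← hh_conj _ hd.w0 hd.w1, map_add,
    bT_eq h.q.reg, conj_gdv h.q.reg.right] at k
  rw [k, conj_pi_I2, conj_pi_I]
  ring

/-- The identity of the first slot, principal branches. -/
theorem EQ.slA : 2 * Lam (gdv u) (bS u w) +
    Real.pi * I * (hh (gdv u + bS u w) - hh (gdv u)) +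
    2 * Real.pi * I * (fe (yy u w - gdv u) + fe (yy u w + gdv u)) -
    4 * Real.pi * I * ff (yy u w + 1 / 2) + Real.pi * I * ((2 * yy u w - 1) * dS u w) +
    XS u w - (Real.pi : ℂ) ^ 2 / 2 + 2 * (Real.pi : ℂ) ^ 2 * (gdv u * bS u w) = 0 := by
  have k := slotS h.qp
  unfold SlA at k
  rw [fL, if_pos (h.q.not_loss h.g)] at k
  exact k

theorem EQ.fe2 : conj (fL (conj (yy u w - gdv w))) = fe (yy u w - gdv w) := by
  have g2 : |(Lm (conj w) (conj u)).im| < Real.pi := by
    rw [Lm_conj h.q.reg.symm, conj_im, abs_neg]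
    exact h.g'
  have k2 := h.q.conj.not_loss g2
  obtain ⟨e1, e2, e3, -⟩ := h.q.conj_eqs
  have e : yy (conj w) (conj u) - gdv (conj w) = conj (yy u w - gdv w) := by
    rw [← e1, ← e2, map_sub, conj_conj, conj_conj]
  rw [e] at k2
  have b := (re_bounds h.q.reg.symm).1
  rw [yy_comm] at b
  rw [fL, if_pos k2]
  rcases lt_trichotomy (yy u w - gdv w).im 0 with hz | hz | hz
  · have hr : 0 < (yy u w - gdv w).re := by
      rcases k2 with k2 | k2
      · rw [conj_im] at k2; linarith
      · rwa [conj_re] at k2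
    rw [fe_eq_ff (z := conj (yy u w - gdv w)) (by rwa [conj_re])
      (by rw [conj_re]; exact b.2), ff_conj, conj_conj, fe_eq_ff hr b.2]
  · have hr : 0 < (yy u w - gdv w).re := by
      rcases k2 with k2 | k2
      · rw [conj_im] at k2; linarith
      · rwa [conj_re] at k2
    rw [fe_eq_ff (z := conj (yy u w - gdv w)) (by rwa [conj_re])
      (by rw [conj_re]; exact b.2), ff_conj, conj_conj, fe_eq_ff hr b.2]
  · rw [fe_conj hz, conj_conj]

theorem EQ.fe3 : conj (fe (conj (yy u w + gdv w))) = fe (yy u w + gdv w) := by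
  have b := (re_bounds h.q.reg.symm).2
  rw [yy_comm] at b
  rcases lt_trichotomy (yy u w + gdv w).im 0 with hz | hz | hz
  · have k := fe_conj (z := conj (yy u w + gdv w)) (by rw [conj_im]; linarith)
    rw [conj_conj] at k
    exact k.symm
  · have hf := h.q.dE'.1
    have hr : 0 < (yy u w + gdv w).re := by
      rcases hf with hf | hf
      · exact absurd hz hf
      · exact hf.1
    rw [fe_eq_ff (z := conj (yy u w + gdv w)) (by rwa [conj_re])
      (by rw [conj_re]; exact b.2), ff_conj, conj_conj, fe_eq_ff hr b.2]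
  · rw [fe_conj hz, conj_conj]

/-- The identity of the second slot, principal branches. -/
theorem EQ.slB : 2 * Lam (gdv w) (bT u w) -
    Real.pi * I * (hh (gdv w + bT u w) - hh (gdv w)) -
    2 * Real.pi * I * (fe (yy u w - gdv w) + fe (yy u w + gdv w)) +
    4 * Real.pi * I * ff (yy u w + 1 / 2) + Real.pi * I * ((2 * yy u w - 1) * dS u w) +
    (dilog (-exp (2 * dS u w)) + 2 * (dS u w * (nS u w + dS u w))) - (Real.pi : ℂ) ^ 2 / 2 +
    2 * (Real.pi : ℂ) ^ 2 * (gdv w * bT u w) = 0 := by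
  have k := congrArg conj (slotS h.qp')
  have hd := h.qp'.ds
  have hr := h.q.reg
  have e1 : conj (Lam (gdv (conj w)) (bS (conj w) (conj u))) = Lam (gdv w) (bT u w) := by
    rw [← Lam_conj hd, bT_eq hr, conj_gdv hr.right]
  have e2 : conj (hh (gdv (conj w) + bS (conj w) (conj u))) = hh (gdv w + bT u w) := by
    rw [← hh_conj _ hd.s0 hd.s1', map_add, bT_eq hr, conj_gdv hr.right]
  have e3 : conj (hh (gdv (conj w))) = hh (gdv w) := by
    rw [← hh_conj _ hd.w0 hd.w1, conj_gdv hr.right]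
  have e4 : yy (conj w) (conj u) - gdv (conj w) = conj (yy u w - gdv w) := by
    rw [← conj_yy hr, ← conj_gdv hr.right, map_sub, conj_conj, conj_conj]
  have e5 : yy (conj w) (conj u) + gdv (conj w) = conj (yy u w + gdv w) := by
    rw [← conj_yy hr, ← conj_gdv hr.right, map_add, conj_conj, conj_conj]
  have e6 : conj (ff (yy (conj w) (conj u) + 1 / 2)) = ff (yy u w + 1 / 2) := by
    rw [← ff_conj, map_add, conj_yy hr]
    congr 2
    rw [map_div₀, map_one, map_ofNat]
  have e7 : conj (XS (conj w) (conj u)) =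
      dilog (-exp (2 * dS u w)) + 2 * (dS u w * (nS u w + dS u w)) := by
    unfold XS
    rw [map_sub, map_mul, map_mul, conj_dS hr, conj_nS hr, map_ofNat]
    have a1 : 1 - -exp (-(2 * dS (conj w) (conj u))) ∈ slitPlane := by
      rw [sub_neg_eq_add, ← exp_n2 hr.conj_left.conj_right.symm]
      refine mem_slitPlane_iff_arg.2 ⟨?_, Complex.exp_ne_zero _⟩
      rw [exp_n2 hr.conj_left.conj_right.symm]
      intro h0
      have h1 := congrArg Complex.im h.qp'.n2
      rw [Complex.log_im, h0, show (2 : ℂ) = ((2 : ℝ) : ℂ) by norm_num, im_ofReal_mul] at h1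
      have i3 := h.qp'.d_im
      have i4 := h.qp'.n_im
      linarith [i3.1, i3.2, i4.1, i4.2, Real.pi_pos]
    rw [← dilog_conj' a1, map_neg, ← exp_conj, map_neg, map_mul, conj_dS hr, map_ofNat]
    have a2 : -(2 * -dS u w) = 2 * dS u w := by ring
    rw [a2]
    ring
  have e8 := h.fe2
  have e9 := h.fe3
  have e10 := conj_dS hr
  have e11 := conj_yy hr
  have e12 := conj_gdv hr.right
  have e13 := bT_eq hr
  have k0 := slotS h.qp'
  unfold SlA at k0
  rw [e4, e5] at k0
  generalize Lam (gdv (conj w)) (bS (conj w) (conj u)) = A at k0 e1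
  generalize hh (gdv (conj w) + bS (conj w) (conj u)) = B at k0 e2
  generalize hh (gdv (conj w)) = C at k0 e3
  generalize fL (conj (yy u w - gdv w)) = F at k0 e8
  generalize fe (conj (yy u w + gdv w)) = G at k0 e9
  generalize ff (yy (conj w) (conj u) + 1 / 2) = E at k0 e6
  generalize XS (conj w) (conj u) = X at k0 e7
  generalize dS (conj w) (conj u) = D at k0 e10
  generalize yy (conj w) (conj u) = Y at k0 e11
  generalize gdv (conj w) = V at k0 e12
  generalize bS (conj w) (conj u) = b at k0 e13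
  have k1 := congrArg conj k0
  simp only [map_add, map_sub, map_mul, map_div₀, map_pow, conj_ofReal, conj_I, map_ofNat,
    map_zero, map_one] at k1
  rw [e1, e2, e3, e6, e7, e8, e9, e10, e11, e12, e13] at k1
  linear_combination k1

/-- **The identity of an edge.** -/
theorem EQ.edge : 2 * Lam (gdv u) (bS u w) - 2 * Lam (gdv w) (bT u w) +
    Real.pi * I * (2 * nS u w + dS u w) + 2 * XS u w =
      2 * Real.pi * I * (sP (yy u w) (.op (gdv u)) + sP (yy u w) (.op (gdv w))) -
        (Real.pi : ℂ) ^ 2 / 6 - 2 * (Real.pi : ℂ) ^ 2 * (gdv u * bS u w - gdv w * bT u w) := by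
  have hA := h.slA
  have hB := h.slB
  have e1 := h.qp.e1
  have f1 := h.f1
  have hinv := dilog_inv (-exp (-(2 * dS u w))) (by
    rw [neg_neg]
    refine mem_slitPlane_iff_arg.2 ⟨?_, Complex.exp_ne_zero _⟩
    intro h0
    have hd := h.qp.d_im
    have hl : Complex.log (exp (-(2 * dS u w))) = -(2 * dS u w) := by
      rw [Complex.log_exp]
      · rw [neg_im, show (2 : ℂ) = ((2 : ℝ) : ℂ) by norm_num, im_ofReal_mul]
        linarith [hd.1, hd.2, Real.pi_pos]
      · rw [neg_im, show (2 : ℂ) = ((2 : ℝ) : ℂ) by norm_num, im_ofReal_mul]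
        linarith [hd.1, hd.2, Real.pi_pos]
    have h1 := congrArg Complex.im hl
    rw [Complex.log_im, h0, neg_im, show (2 : ℂ) = ((2 : ℝ) : ℂ) by norm_num,
      im_ofReal_mul] at h1
    linarith [hd.1, hd.2, Real.pi_pos])
  have hd := h.qp.d_im
  have hl : Complex.log (exp (-(2 * dS u w))) = -(2 * dS u w) := by
    rw [Complex.log_exp]
    · rw [neg_im, show (2 : ℂ) = ((2 : ℝ) : ℂ) by norm_num, im_ofReal_mul]
      linarith [hd.1, hd.2, Real.pi_pos]
    · rw [neg_im, show (2 : ℂ) = ((2 : ℝ) : ℂ) by norm_num, im_ofReal_mul]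
      linarith [hd.1, hd.2, Real.pi_pos]
  rw [neg_neg, hl] at hinv
  have hi : (-exp (-(2 * dS u w)))⁻¹ = -exp (2 * dS u w) := by
    rw [inv_neg, Complex.exp_neg, inv_inv]
  rw [hi] at hinv
  have hX : XS u w = dilog (-exp (-(2 * dS u w))) - 2 * (dS u w * nS u w) := rfl
  rw [sP, sP]
  rw [e1] at hA
  rw [f1] at hB
  linear_combination hA - hB + hX + hinv

end edge

end Pool.Agent.S3.CV
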