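import Pool.Agent.S3.CV.SumS
import Pool.Agent.S3.CritCfg
import Pool.Agent.S3.G.Shapes

/-!
# Stage 3, complex volume: the solution of block E as a solution of the equations of a chain
-/

namespace Pool.Agent.S3.CV

open Pool.Agent.H63.VC3 Pool.Agent.H63.VC5 Complex
open Pool.Agent.H25.RK (gdv)
open Pool.Agent.S3.E (Zr uu qe qo ph)
open Pool.Agent.S3.G (Crt zz Xx ze im_shape)
open scoped ComplexConjugate

section general

variable {ι : Type*} [Finite ι] {a : ι → ℝ} {nl nr : ι → Option ι} {z : ι → ℂ}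

omit [Finite ι] in
theorem ZrS_arg (h : Zr a nl nr 1 z) (i : ι) : (cos (z i)).arg = -ph (z i).re (z i).im := by
  have hp := E.cos_polar (h.pos i).1 (h.pos i).2.1
  have e : cos (z i) = (‖cos (z i)‖ : ℂ) * (cos ((-ph (z i).re (z i).im : ℝ) : ℂ) +
      sin ((-ph (z i).re (z i).im : ℝ) : ℂ) * I) := by
    rw [← exp_mul_I]
    push_cast
    exact hp
  have h1 := h.phpos i
  have h2 := h.ph_le i
  calc (cos (z i)).arg = ((‖cos (z i)‖ : ℂ) * (cos ((-ph (z i).re (z i).im : ℝ) : ℂ) +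
      sin ((-ph (z i).re (z i).im : ℝ) : ℂ) * I)).arg := congrArg arg e
    _ = -ph (z i).re (z i).im := Complex.arg_mul_cos_add_sin_mul_I (h.norm_pos i)
      ⟨by linarith [Real.pi_pos], by linarith [Real.pi_pos]⟩

theorem ZrS_ph_lt (h : Zr a nl nr 1 z) (i : ι) : ph (z i).re (z i).im < Real.pi / 4 := by
  have hpi := Real.pi_gt_three
  rcases h.types i with h1 | ⟨h1, k, l, h2, h3⟩ | ⟨h1, k, h2⟩
  · have := h.ph_le' i (Or.inl h1)
    linarith
  · have := h.ph_le' i (Or.inr ⟨k, l, h2, h3⟩)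
    linarith
  · have h3 := h.ph_end h1 h2
    rw [Zr.be_one] at h3
    linarith [h.phpos k]

omit [Finite ι] in
theorem ZrS_sinh (h : Zr a nl nr 1 z) (i j : ι) :
    sinh (qe (z i) (z j)) = conj (cos (z j)) * tan (z i) := by
  rw [E.qe_eq (h.pos i).1 (h.pos i).2.1 (h.pos i).2.2 (h.pos j).1 (h.pos j).2.1 (h.pos j).2.2,
    sinh_arsh]

theorem ZrS_EQ (h : Zr a nl nr 1 z) {i j : ι} (hij : nl i = some j ∨ nr i = some j) :
    EQ (uu (z i)) (conj (uu (z j))) := by
  obtain ⟨g1, g2⟩ := h.good_edge hij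
  refine ⟨h.QO_edge hij, ?_, ?_, ?_, ?_, g1.1, g2.1⟩
  · rw [uu, UU_re]; exact h.xxpos i
  · rw [uu, UU_im]; exact h.thpos i
  · rw [conj_re, uu, UU_re]; exact h.xxpos j
  · rw [conj_im, uu, UU_im]; linarith [h.thpos j]

theorem ZrS_qq (z w : ℂ) : qq (uu z) (conj (uu w)) = qe z w := by
  rw [qe, uu, uu, UU_conj]

theorem ZrS_qq' (h : Zr a nl nr 1 z) {i j : ι} (hij : nl i = some j ∨ nr i = some j) :
    qq (conj (uu (z j))) (uu (z i)) = conj (qe (z j) (z i)) := by
  have hr := h.reg_edge hij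
  have e1 : qe (z j) (z i) = qq (uu (z j)) (conj (uu (z i))) := (ZrS_qq _ _).symm
  have e2 := qq_conj hr.symm
  rw [conj_conj] at e2
  rw [e1, e2, conj_conj]

theorem ZrS_gdv (h : Zr a nl nr 1 z) (i : ι) : gdv (uu (z i)) = z i / Real.pi ∧
    gdv (conj (uu (z i))) = conj (z i) / Real.pi := by
  have h1 := (h.gdv_uu i).1
  have ht : |(uu (z i)).im| < Real.pi / 2 := by
    rw [uu, UU_im]
    exact E.abs_th_lt (h.pos i).1 (h.pos i).2.1 (h.pos i).2.2
  refine ⟨h1, ?_⟩
  rw [gdv_conj ht, h1, map_div₀, conj_ofReal]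

end general

section chain

variable {m : ℕ}

/-- The vertex `i` of the chain. -/
def fx (m i : ℕ) : Fin (m + 1) := if h : i < m + 1 then ⟨i, h⟩ else 0

theorem fx_cs {i : ℕ} (h : i < m) : fx m i = Fin.castSucc ⟨i, h⟩ := by
  unfold fx
  rw [dif_pos (by omega)]
  rfl

theorem fx_su {i : ℕ} (h : i < m) : fx m (i + 1) = Fin.succ ⟨i, h⟩ := by
  unfold fx
  rw [dif_pos (by omega)]
  rfl

theorem fx_zero : fx m 0 = 0 := by
  unfold fx
  rw [dif_pos (by omega)]
  rfl

theorem fx_last : fx m m = Fin.last m := by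
  unfold fx
  rw [dif_pos (by omega)]
  rfl

theorem fx_val (i : Fin (m + 1)) : fx m i = i := by
  unfold fx
  rw [dif_pos i.2]

variable {a : Fin (m + 1) → ℕ} {z : Fin (m + 1) → ℂ}

/-- The left slot. -/
noncomputable def qL (m : ℕ) (z : Fin (m + 1) → ℂ) (i : ℕ) : ℂ := qo z (fx m i) (chL (fx m i))

/-- The right slot. -/
noncomputable def qR (m : ℕ) (z : Fin (m + 1) → ℂ) (i : ℕ) : ℂ := qo z (fx m i) (chR (fx m i))

theorem qL_zero : qL m z 0 = 0 := by
  unfold qL
  rw [fx_zero, chL_zero]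
  rfl

theorem qR_last : qR m z m = 0 := by
  unfold qR
  rw [fx_last, chR_last]
  rfl

theorem qL_succ {i : ℕ} (hi : i < m) : qL m z (i + 1) = qe (z (fx m (i + 1))) (z (fx m i)) := by
  unfold qL
  rw [fx_su hi, fx_cs hi, chL_succ]
  rfl

theorem qR_eq {i : ℕ} (hi : i < m) : qR m z i = qe (z (fx m i)) (z (fx m (i + 1))) := by
  unfold qR
  rw [fx_su hi, fx_cs hi, chR_castSucc]
  rfl

theorem ZrS_R {i : ℕ} (hi : i < m) :
    chL (fx m i) = some (fx m (i + 1)) ∨ chR (fx m i) = some (fx m (i + 1)) := by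
  rw [fx_su hi, fx_cs hi]
  exact Or.inr (chR_castSucc _)

theorem ZrS_L {i : ℕ} (hi : i < m) :
    chL (fx m (i + 1)) = some (fx m i) ∨ chR (fx m (i + 1)) = some (fx m i) := by
  rw [fx_su hi, fx_cs hi]
  exact Or.inl (chL_succ _)

/-- The structure of the volume block. -/
theorem crt_of (hm : 1 ≤ m) (h : Zr (fun i => (a i : ℝ)) chL chR 1 z) (ha : ∀ i, 2 ≤ a i) :
    Crt m (fun i => a (fx m i)) (fun i => z (fx m i)) (qL m z) (qR m z) where
  hR := hm
  ha := fun i _ => ha _
  zre := fun i _ => ⟨(h.pos _).1, (h.pos _).2.1⟩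
  zim := fun i _ => (h.pos _).2.2
  arg := fun i _ => by
    have h1 := h.phpos (fx m i)
    have h2 := ZrS_ph_lt h (fx m i)
    rw [ZrS_arg h]
    exact ⟨by linarith, by linarith⟩
  l0 := qL_zero
  rR := qR_last
  sl := fun i hi => by
    rw [qL_succ hi]
    exact ZrS_sinh h _ _
  sr := fun i hi => by
    rw [qR_eq hi]
    exact ZrS_sinh h _ _
  lre := fun i hi => by
    rw [qL_succ hi]
    exact (h.qe_pos (ZrS_L hi)).1
  lim := fun i hi => by
    rw [qL_succ hi]
    exact (h.qe_pos (ZrS_L hi)).2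
  rre := fun i hi => by
    rw [qR_eq hi]
    exact (h.qe_pos (ZrS_R hi)).1
  rim := fun i hi => by
    rw [qR_eq hi]
    exact (h.qe_pos (ZrS_R hi)).2
  eq := fun i _ => by
    have := h.vertex (fx m i)
    push_cast at this
    exact this

/-- The oriented variables. -/
noncomputable def Uv (b : Bool) (m : ℕ) (z : Fin (m + 1) → ℂ) (i : ℕ) : ℂ :=
  if lf b i then uu (z (fx m i)) else conj (uu (z (fx m i)))

theorem lf_succ (b : Bool) (i : ℕ) : lf b (i + 1) = !(lf b i) := rfl

theorem Uv_true {b : Bool} {i : ℕ} (hl : lf b i = true) : Uv b m z i = uu (z (fx m i)) ∧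
    Uv b m z (i + 1) = conj (uu (z (fx m (i + 1)))) := by
  unfold Uv
  rw [lf_succ, hl]
  exact ⟨rfl, rfl⟩

theorem Uv_false {b : Bool} {i : ℕ} (hl : lf b i = false) :
    Uv b m z i = conj (uu (z (fx m i))) ∧ Uv b m z (i + 1) = uu (z (fx m (i + 1))) := by
  unfold Uv
  rw [lf_succ, hl]
  exact ⟨rfl, rfl⟩

theorem eu_true {b : Bool} {i : ℕ} (hl : lf b i = true) :
    eu b (Uv b m z) i = uu (z (fx m i)) ∧ ew b (Uv b m z) i = conj (uu (z (fx m (i + 1)))) := by
  unfold eu ew
  rw [(Uv_true hl).1, (Uv_true hl).2, hl]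
  exact ⟨rfl, rfl⟩

theorem eu_false {b : Bool} {i : ℕ} (hl : lf b i = false) :
    eu b (Uv b m z) i = uu (z (fx m (i + 1))) ∧ ew b (Uv b m z) i = conj (uu (z (fx m i))) := by
  unfold eu ew
  rw [(Uv_false hl).1, (Uv_false hl).2, hl]
  exact ⟨rfl, rfl⟩

theorem edge_of (h : Zr (fun i => (a i : ℝ)) chL chR 1 z) (b : Bool) {i : ℕ} (hi : i < m) :
    EQ (eu b (Uv b m z) i) (ew b (Uv b m z) i) := by
  rcases hl : lf b i with _ | _
  · rw [(eu_false hl).1, (eu_false hl).2]
    exact ZrS_EQ h (ZrS_L hi)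
  · rw [(eu_true hl).1, (eu_true hl).2]
    exact ZrS_EQ h (ZrS_R hi)

theorem bRo_of (h : Zr (fun i => (a i : ℝ)) chL chR 1 z) (b : Bool) {i : ℕ} (hi : i ≤ m) :
    bRo m b (Uv b m z) i = if lf b i then -(I * qR m z i) / Real.pi
      else I * conj (qR m z i) / Real.pi := by
  unfold bRo
  by_cases him : i = m
  · rw [if_pos him, him, qR_last, map_zero, mul_zero, neg_zero, zero_div, ite_self]
  · rw [if_neg him]
    have hi' : i < m := by omega
    rcases hl : lf b i with _ | _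
    · simp only [Bool.false_eq_true, if_false]
      rw [(eu_false hl).1, (eu_false hl).2]
      unfold bT
      rw [ZrS_qq' h (ZrS_L hi'), qR_eq hi']
    · simp only [if_true]
      rw [(eu_true hl).1, (eu_true hl).2]
      unfold bS
      rw [ZrS_qq, qR_eq hi']

theorem bLo_of (h : Zr (fun i => (a i : ℝ)) chL chR 1 z) (b : Bool) {i : ℕ} (hi : i ≤ m) :
    bLo b (Uv b m z) i = if lf b i then -(I * qL m z i) / Real.pi
      else I * conj (qL m z i) / Real.pi := by
  rcases Nat.eq_zero_or_pos i with h0 | h0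
  · subst h0
    rw [qL_zero, map_zero, mul_zero, neg_zero, zero_div, ite_self]
    rfl
  · obtain ⟨j, rfl⟩ : ∃ j, i = j + 1 := ⟨i - 1, by omega⟩
    have hi' : j < m := by omega
    rw [bLo_succ, lf_succ]
    rcases hl : lf b j with _ | _
    · simp only [Bool.false_eq_true, if_false, Bool.not_false, if_true]
      rw [(eu_false hl).1, (eu_false hl).2]
      unfold bS
      rw [ZrS_qq, qL_succ hi']
    · simp only [if_true, Bool.not_true, Bool.false_eq_true, if_false]
      rw [(eu_true hl).1, (eu_true hl).2]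
      unfold bT
      rw [ZrS_qq' h (ZrS_R hi'), qL_succ hi']

theorem gdv_Uv (h : Zr (fun i => (a i : ℝ)) chL chR 1 z) (b : Bool) (i : ℕ) :
    gdv (Uv b m z i) = if lf b i then z (fx m i) / Real.pi else conj (z (fx m i)) / Real.pi := by
  unfold Uv
  split
  · exact (ZrS_gdv h _).1
  · exact (ZrS_gdv h _).2

theorem pi_ne' : (Real.pi : ℂ) ≠ 0 := Complex.ofReal_ne_zero.2 Real.pi_pos.ne'

theorem ver_of (h : Zr (fun i => (a i : ℝ)) chL chR 1 z) (b : Bool) {i : ℕ} (hi : i ≤ m) :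
    ((a (fx m i) : ℕ) : ℂ) * gdv (Uv b m z i) + bLo b (Uv b m z) i + bRo m b (Uv b m z) i = 1 := by
  have hv : ((a (fx m i) : ℕ) : ℂ) * z (fx m i) = Real.pi + I * (qL m z i + qR m z i) := by
    have := h.vertex (fx m i)
    push_cast at this
    exact this
  have hp := pi_ne'
  rw [bRo_of h b hi, bLo_of h b hi, gdv_Uv h b i]
  rcases hl : lf b i with _ | _
  · simp only [Bool.false_eq_true, if_false]
    have hv' := congrArg conj hv
    rw [map_mul, map_add, map_mul, map_add, conj_I, conj_ofReal, Complex.conj_natCast] at hv'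
    field_simp
    linear_combination hv'
  · simp only [if_true]
    field_simp
    linear_combination hv

/-- The angle of the layer `k`. -/
noncomputable def AA (m : ℕ) (z : Fin (m + 1) → ℂ) (i k : ℕ) : ℂ :=
  k * z (fx m i) - I * qL m z i

theorem zz_AA (i k : ℕ) : zz (fun i => z (fx m i)) (qL m z) i k =
    (sin (z (fx m i)) / sin (AA m z i k)) ^ 2 := by
  have e : conj (Xx (fun i => z (fx m i)) (qL m z) i k) =
      I * sin (AA m z i k) / sin (z (fx m i)) := by
    unfold Xx ze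
    rw [map_div₀, ← sinh_conj, ← sin_conj, conj_conj, map_sub, map_mul, map_mul, conj_conj,
      conj_conj, conj_I, Complex.conj_natCast]
    congr 1
    have e2 : qL m z i - -I * (k : ℂ) * z (fx m i) = AA m z i k * I := by
      unfold AA
      linear_combination (qL m z i) * I_sq
    rw [e2, sinh_mul_I]
    ring
  unfold zz
  rw [e, div_pow, div_pow, mul_pow, I_sq]
  by_cases h0 : sin (AA m z i k) = 0
  · rw [h0]
    simp
  · by_cases h1 : sin (z (fx m i)) = 0
    · rw [h1]
      simp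
    · field_simp

theorem AA_sin (hm : 1 ≤ m) (h : Zr (fun i => (a i : ℝ)) chL chR 1 z) (ha : ∀ i, 2 ≤ a i)
    {i k : ℕ} (hi : i ≤ m) (hk : k ∈ lay m (fun i => a (fx m i)) i) :
    0 < (AA m z i k).re ∧ (AA m z i k).re < Real.pi := by
  have hc := crt_of hm h ha
  obtain ⟨k1, k2, k3, k4⟩ := (TriS_mem_lay (fun i _ => ha _) hi).1 hk
  have e1 := hc.eq_re i hi
  have hz := hc.zre i hi
  have hl : 0 ≤ (qL m z i).im := by
    rcases Nat.eq_zero_or_pos i with h0 | h0
    · rw [h0, qL_zero]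
      simp
    · obtain ⟨j, rfl⟩ : ∃ j, i = j + 1 := ⟨i - 1, by omega⟩
      exact (hc.lim j (by omega)).1.le
  have hr : 0 ≤ (qR m z i).im := by
    rcases Nat.lt_or_ge i m with h0 | h0
    · exact (hc.rim i h0).1.le
    · have : i = m := by omega
      rw [this, qR_last]
      simp
  have e : (AA m z i k).re = k * (z (fx m i)).re + (qL m z i).im := by
    unfold AA
    rw [sub_re, I_mul_re, show ((k : ℕ) : ℂ) = (((k : ℕ) : ℝ) : ℂ) by push_cast; rfl,
      re_ofReal_mul]
    ring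
  rw [e]
  have hk1 : (1 : ℝ) ≤ k := by exact_mod_cast k1
  have hk2 : (k : ℝ) ≤ a (fx m i) := by exact_mod_cast k2
  have p1 := mul_le_mul_of_nonneg_right hk1 hz.1.le
  have p2 := mul_le_mul_of_nonneg_right hk2 hz.1.le
  refine ⟨by linarith [hz.1], ?_⟩
  rcases Nat.lt_or_ge i m with h0 | h0
  · have := (hc.rim i h0).1
    linarith
  · have hk3 : (k : ℝ) + 2 ≤ a (fx m i) := by exact_mod_cast k4 (by omega)
    have p3 := mul_le_mul_of_nonneg_right hk3 hz.1.le
    linarith [hz.1]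

theorem ZrS_hh {w : ℂ} (h0 : 0 < w.re) (h1 : w.re < 1) : exp (hh w) = 2 * sin (Real.pi * w) := by
  unfold hh
  rw [exp_log]
  exact mul_ne_zero two_ne_zero (LS_sin_ne h0 h1)

theorem pos_of (hm : 1 ≤ m) (h : Zr (fun i => (a i : ℝ)) chL chR 1 z) (ha : ∀ i, 2 ≤ a i)
    (b : Bool) {i k : ℕ} (hi : i ≤ m) (hk : k ∈ lay m (fun i => a (fx m i)) i) :
    0 < (zo b (Uv b m z) i k).im := by
  have hc := crt_of hm h ha
  obtain ⟨k1, k2, k3, k4⟩ := (TriS_mem_lay (fun i _ => ha _) hi).1 hk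
  have hA := AA_sin hm h ha hi hk
  have hz := hc.zre i hi
  have hpi := Real.pi_pos
  have hp := pi_ne'
  have hX : 0 < (zz (fun i => z (fx m i)) (qL m z) i k).im := by
    apply im_shape
    rcases Nat.lt_or_ge k (a (fx m i)) with h0 | h0
    · exact hc.X_pos i k hi k1 (by show k ≤ a (fx m i) - 1; omega) (fun h1 => by
        have := k3 h1.1; omega) (fun h1 => by
        have h2 := k4 h1.1
        have h3 : k = a (fx m i) - 1 := h1.2
        have h4 := ha (fx m i)
        omega)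
    · have e : k = a (fx m i) := by omega
      have him : i < m := by
        by_contra hc2
        have := k4 (by omega)
        omega
      rw [e]
      exact hc.X_end_quad i him
  rw [zz_AA] at hX
  have w0 : (z (fx m i) / Real.pi).re = (z (fx m i)).re / Real.pi := Complex.div_ofReal_re _ _
  have w1 : (AA m z i k / Real.pi).re = (AA m z i k).re / Real.pi := Complex.div_ofReal_re _ _
  have f0 : 0 < (z (fx m i) / Real.pi).re ∧ (z (fx m i) / Real.pi).re < 1 := by
    rw [w0]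
    exact ⟨div_pos hz.1 hpi, by rw [div_lt_one hpi]; linarith [hz.2]⟩
  have f1 : 0 < (AA m z i k / Real.pi).re ∧ (AA m z i k / Real.pi).re < 1 := by
    rw [w1]
    exact ⟨div_pos hA.1 hpi, by rw [div_lt_one hpi]; linarith [hA.2]⟩
  have g0 := ZrS_hh f0.1 f0.2
  have g1 := ZrS_hh f1.1 f1.2
  rw [mul_div_cancel₀ _ hp] at g0 g1
  have hd0 : exp (2 * (hh (AA m z i k / Real.pi) - hh (z (fx m i) / Real.pi))) =
      (sin (AA m z i k) / sin (z (fx m i))) ^ 2 := by
    rw [two_mul, Complex.exp_add, Complex.exp_sub, g0, g1]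
    rw [mul_div_mul_left _ _ two_ne_zero]
    ring
  unfold zo hd ak
  rw [bLo_of h b hi, gdv_Uv h b i]
  rcases hl : lf b i with _ | _
  · simp only [Bool.false_eq_true, if_false]
    have e1 : (k : ℂ) * (conj (z (fx m i)) / Real.pi) + I * conj (qL m z i) / Real.pi =
        conj (AA m z i k / Real.pi) := by
      unfold AA
      rw [map_div₀, map_sub, map_mul, map_mul, conj_I, conj_ofReal, Complex.conj_natCast]
      ring
    have e2 : conj (z (fx m i)) / Real.pi = conj (z (fx m i) / Real.pi) := by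
      rw [map_div₀, conj_ofReal]
    rw [e1, e2, hh_conj _ f1.1 f1.2, hh_conj _ f0.1 f0.2, ← map_sub]
    have e3 : 2 * conj (hh (AA m z i k / Real.pi) - hh (z (fx m i) / Real.pi)) =
        conj (2 * (hh (AA m z i k / Real.pi) - hh (z (fx m i) / Real.pi))) := by
      rw [map_mul, Complex.conj_ofNat]
    rw [e3, exp_conj, hd0, conj_im, neg_pos]
    have e4 : (sin (AA m z i k) / sin (z (fx m i))) ^ 2 =
        ((sin (z (fx m i)) / sin (AA m z i k)) ^ 2)⁻¹ := by
      rw [← inv_pow, inv_div]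
    rw [e4, Complex.inv_im, neg_div, neg_lt_zero]
    refine div_pos hX (Complex.normSq_pos.2 fun h0 => ?_)
    rw [h0] at hX
    simp at hX
  · simp only [if_true]
    have e1 : (k : ℂ) * (z (fx m i) / Real.pi) + -(I * qL m z i) / Real.pi =
        AA m z i k / Real.pi := by
      unfold AA
      ring
    rw [e1, Complex.exp_neg, hd0, ← inv_pow, inv_div]
    exact hX

/-- The solution of block E as a solution of the equations of a chain. -/
theorem cu_of (hm : 1 ≤ m) (h : Zr (fun i => (a i : ℝ)) chL chR 1 z) (ha : ∀ i, 2 ≤ a i)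
    (b : Bool) : CU m (fun i => a (fx m i)) b (Uv b m z) where
  hR := hm
  ha := fun _ _ => ha _
  edge := fun _ hi => edge_of h b hi
  ver := fun _ hi => ver_of h b hi
  pos := fun _ _ hi hk => pos_of hm h ha b hi hk

end chain

end Pool.Agent.S3.CV
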