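import Pool.Agent.S3.CV.TotS
import Pool.Agent.S3.CV.ZrS
import Pool.Agent.S3.G.ClEnd
import Pool.Agent.S3.G.Vol

/-!
# Stage 3, complex volume: the final theorem

`cv_main`: at the critical point of the chain with the twists `σ i * a i` the value of the potential
is the complex volume of the two-bridge link `C(a_0, ..., a_m)`.
-/

namespace Pool.Agent.S3.CV

open Pool.Agent.H63.VC3 Pool.Agent.H63.VC5 Complex
open Pool.Agent.H63.VC7 (inc sum_inc)
open Pool.Agent.H25.RK (gdv)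
open Pool.Agent.S3.E (Zr uu qe qo ph)
open Pool.Agent.S3.G (Crt SS cv Yy Yr Yl end_neg end_pos slv Wc)
open scoped ComplexConjugate BigOperators

theorem exp_yy {u w : ℂ} (h : Reg u w) :
    exp (2 * Real.pi * I * yy u w) = (1 + I * TT u w) / (1 - I * TT u w) := by
  have h1 := pi_yy h
  have h2 := exp_gd (arshT_im h)
  rw [← h1, sinh_arsh, cosh_arsh] at h2
  have h3 := csq_sq (TT u w)
  have h4 := csqT_ne h
  have e : exp (2 * Real.pi * I * yy u w) = exp (I * (Real.pi * yy u w)) ^ 2 := by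
    rw [← Complex.exp_nat_mul]
    congr 1
    push_cast
    ring
  have h5 : (1 + I * TT u w) * (1 - I * TT u w) = csq (TT u w) ^ 2 := by
    rw [h3]
    linear_combination (-(TT u w) ^ 2) * I_sq
  have h6 : 1 - I * TT u w ≠ 0 := fun h0 => by
    rw [h0, mul_zero] at h5
    exact pow_ne_zero 2 h4 h5.symm
  rw [e, h2, div_pow, div_eq_div_iff (pow_ne_zero 2 h4) h6]
  linear_combination (1 + I * TT u w) * h5

theorem exp_yy_chain {ι : Type*} [Finite ι] {a : ι → ℝ} {nl nr : ι → Option ι} {z : ι → ℂ}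
    (h : Zr a nl nr 1 z) {i j : ι} (hij : nl i = some j ∨ nr i = some j) :
    exp (2 * Real.pi * I * yy (uu (z i)) (conj (uu (z j)))) =
      Yy (conj (cos (z j))) (cosh (qe (z i) (z j))) := by
  have hr := h.reg_edge hij
  have hq := cosh_qq hr
  rw [ZrS_qq] at hq
  have cj := E.cosh_uu (h.pos j).1 (h.pos j).2.1 (h.pos j).2.2
  have cj' : cosh (conj (uu (z j))) * conj (cos (z j)) = 1 := by
    rw [← conj_cosh', ← map_mul, cj, map_one]
  have hne : conj (cos (z j)) ≠ 0 := by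
    rw [Ne, map_eq_zero]
    exact h.cos_ne j
  have hcw : cosh (conj (uu (z j))) ≠ 0 := cosh_ne hr.right
  have e : cosh (qe (z i) (z j)) = conj (cos (z j)) * TT (uu (z i)) (conj (uu (z j))) := by
    rw [hq, div_eq_iff hcw]
    linear_combination (-TT (uu (z i)) (conj (uu (z j)))) * cj'
  rw [exp_yy hr, e]
  unfold Yy
  have e1 : conj (cos (z j)) + I * (conj (cos (z j)) * TT (uu (z i)) (conj (uu (z j)))) =
      conj (cos (z j)) * (1 + I * TT (uu (z i)) (conj (uu (z j)))) := by ring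
  have e2 : conj (cos (z j)) - I * (conj (cos (z j)) * TT (uu (z i)) (conj (uu (z j)))) =
      conj (cos (z j)) * (1 - I * TT (uu (z i)) (conj (uu (z j)))) := by ring
  rw [e1, e2, mul_div_mul_left _ _ hne]

theorem FinS_inv {X Y q : ℂ} (h : X * conj Y = 1) (hY : Y = -(2 * cosh q - 1)⁻¹) :
    X = -(2 * cosh (conj q) - 1) := by
  have h1 : X = (conj Y)⁻¹ := eq_inv_of_mul_eq_one_left h
  rw [h1, hY, map_neg, map_inv₀, map_sub, map_mul, map_one, Complex.conj_ofNat, ← cosh_conj,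
    inv_neg, inv_inv]

theorem FinS_inv' {X Y q : ℂ} (h : Y * conj X = 1) (hY : Y = -(2 * cosh q - 1)⁻¹) :
    X = -(2 * cosh (conj q) - 1) := by
  refine FinS_inv (Y := Y) (q := q) ?_ hY
  have := congrArg conj h
  rw [map_mul, conj_conj, map_one] at this
  rw [mul_comm]
  exact this

section chain

variable {m : ℕ} {a : Fin (m + 1) → ℕ} {z : Fin (m + 1) → ℂ}

/-- The variable of the potential. -/
noncomputable def vv (b : Bool) (m : ℕ) (z : Fin (m + 1) → ℂ) (i : ℕ) : ℂ :=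
  (sg b i : ℂ) * gdv (Uv b m z i)

theorem vv_true {b : Bool} {i : ℕ} (hl : lf b i = true)
    (h : Zr (fun i => (a i : ℝ)) chL chR 1 z) : vv b m z i = z (fx m i) / Real.pi := by
  unfold vv
  rw [gdv_Uv h, sg_true b hl, hl]
  simp

theorem vv_false {b : Bool} {i : ℕ} (hl : lf b i = false)
    (h : Zr (fun i => (a i : ℝ)) chL chR 1 z) :
    vv b m z i = -conj (z (fx m i) / Real.pi) := by
  unfold vv
  rw [gdv_Uv h, sg_false b hl, hl, map_div₀, conj_ofReal]
  simp

/-- The variable of the edge. -/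
noncomputable def ye (b : Bool) (m : ℕ) (z : Fin (m + 1) → ℂ) (i : ℕ) : ℂ :=
  yy (eu b (Uv b m z) i) (ew b (Uv b m z) i)

theorem ye_re (h : Zr (fun i => (a i : ℝ)) chL chR 1 z) (b : Bool) {i : ℕ} (hi : i < m) :
    0 < (ye b m z i).re ∧ (ye b m z i).re < 1 / 2 := by
  have hr := (edge_of h b hi).q.reg
  exact ⟨yy_re_pos hr, yy_re_lt hr⟩

theorem ye_true {b : Bool} {i : ℕ} (hl : lf b i = true)
    (h : Zr (fun i => (a i : ℝ)) chL chR 1 z) (hi : i < m) :
    exp (2 * Real.pi * I * ye b m z i) = Yr (fun i => z (fx m i)) (qR m z) i := by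
  unfold ye Yr
  rw [(eu_true hl).1, (eu_true hl).2, exp_yy_chain h (ZrS_R hi), qR_eq hi]

theorem ye_false {b : Bool} {i : ℕ} (hl : lf b i = false)
    (h : Zr (fun i => (a i : ℝ)) chL chR 1 z) (hi : i < m) :
    exp (2 * Real.pi * I * ye b m z i) = Yl (fun i => z (fx m i)) (qL m z) i := by
  unfold ye Yl
  rw [(eu_false hl).1, (eu_false hl).2, exp_yy_chain h (ZrS_L hi), qL_succ hi]

/-- A closed left end. -/
theorem end_zero (hm : 1 ≤ m) (h : Zr (fun i => (a i : ℝ)) chL chR 1 z) (ha : ∀ i, 2 ≤ a i)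
    (h2 : a 0 = 2) (b : Bool) :
    sP (ye b m z 0) (.op (vv b m z 0)) + wr (-(sg b 0 : ℝ)) (vv b m z 0) =
      sP (ye b m z 0) (.cl (-sg b 0)) + (sg b 0 : ℂ) * (Real.pi * I) := by
  have hc := crt_of hm h ha
  obtain ⟨hS, hv, hY⟩ := hc.end_left (by show a (fx m 0) = 2; rw [fx_zero]; exact h2)
  have hre := ye_re h b (i := 0) (by omega)
  have hrel := hc.Y_rel 0 (by omega)
  rcases hl : lf b 0 with _ | _
  · have hy := ye_false hl h (show 0 < m by omega)
    rw [FinS_inv hrel hY] at hy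
    have key := (end_pos hS (v := vv b m z 0) (by rw [vv_false hl h, hv]) hre.1 hre.2 hy).2.2.2
    rw [sg_false b hl]
    push_cast
    rw [neg_neg]
    linear_combination key
  · have hy := ye_true hl h (show 0 < m by omega)
    rw [hY] at hy
    have key := (end_neg hS (v := vv b m z 0) (by rw [vv_true hl h]; exact hv) hre.1 hre.2
      hy).2.2.2
    rw [sg_true b hl]
    push_cast
    linear_combination key

/-- A closed right end. -/
theorem end_last (h : Zr (fun i => (a i : ℝ)) chL chR 1 z) (ha : ∀ i, 2 ≤ a i) {i : ℕ}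
    (hi : i + 1 = m) (h2 : a (fx m (i + 1)) = 2) (b : Bool) :
    sP (ye b m z i) (.op (vv b m z (i + 1))) + wr (-(sg b (i + 1) : ℝ)) (vv b m z (i + 1)) =
      sP (ye b m z i) (.cl (-sg b (i + 1))) + (sg b (i + 1) : ℂ) * (Real.pi * I) := by
  have hc := crt_of (by omega) h ha
  obtain ⟨hS, hv, hY⟩ := hc.end_right i hi h2
  have hre := ye_re h b (i := i) (by omega)
  have hrel := hc.Y_rel i (by omega)
  rcases hl : lf b i with _ | _
  · have hl' : lf b (i + 1) = true := by rw [lf_succ, hl]; rfl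
    have hy := ye_false hl h (show i < m by omega)
    rw [hY] at hy
    have key := (end_neg hS (v := vv b m z (i + 1)) (by rw [vv_true hl' h]; exact hv) hre.1 hre.2
      hy).2.2.2
    rw [sg_true b hl']
    push_cast
    linear_combination key
  · have hl' : lf b (i + 1) = false := by rw [lf_succ, hl]; rfl
    have hy := ye_true hl h (show i < m by omega)
    rw [FinS_inv' hrel hY] at hy
    have key := (end_pos hS (v := vv b m z (i + 1)) (by rw [vv_false hl' h, hv]) hre.1 hre.2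
      hy).2.2.2
    rw [sg_false b hl']
    push_cast
    rw [neg_neg]
    linear_combination key

/-! ### The configuration `cfgOf a σ z` -/

section cfg

variable {σ : Fin (m + 1) → ℤ}

theorem lf_sig (hσ : ∀ i, σ i = 1 ∨ σ i = -1) (hs : ∀ j : Fin m, σ j.succ = -σ j.castSucc)
    {i : ℕ} (hi : i ≤ m) : lf (decide (σ 0 = -1)) i = decide (σ (fx m i) = -1) := by
  induction i with
  | zero => rw [fx_zero]; rfl
  | succ i ih =>
    rw [lf_succ, ih (by omega), fx_su (by omega), hs, fx_cs (by omega)]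
    rcases hσ (Fin.castSucc ⟨i, by omega⟩) with h | h
    · rw [h]; rfl
    · rw [h]; rfl

theorem sg_sig (hσ : ∀ i, σ i = 1 ∨ σ i = -1) (hs : ∀ j : Fin m, σ j.succ = -σ j.castSucc)
    {i : ℕ} (hi : i ≤ m) : sg (decide (σ 0 = -1)) i = -σ (fx m i) := by
  have h1 := lf_sig hσ hs hi
  rcases hσ (fx m i) with h | h
  · rw [sg_false _ (by rw [h1, h]; rfl), h]
  · rw [sg_true _ (by rw [h1, h]; rfl), h]
    rfl

theorem yc_ye (hσ : ∀ i, σ i = 1 ∨ σ i = -1) (hs : ∀ j : Fin m, σ j.succ = -σ j.castSucc)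
    (j : Fin m) : (cfgOf a σ z).yc j = ye (decide (σ 0 = -1)) m z j := by
  have h1 := lf_sig hσ hs (i := j) j.2.le
  have e1 : fx m (j : ℕ) = j.castSucc := fx_cs j.2
  have e2 : fx m ((j : ℕ) + 1) = j.succ := fx_su j.2
  rw [e1] at h1
  rw [yc_eq]
  unfold ye
  by_cases hj : σ j.castSucc = -1
  · rw [if_pos hj]
    have hl : lf (decide (σ 0 = -1)) j = true := by rw [h1, hj]; rfl
    rw [(eu_true hl).1, (eu_true hl).2, e1, e2]
  · rw [if_neg hj]
    have hl : lf (decide (σ 0 = -1)) j = false := by rw [h1]; exact decide_eq_false hj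
    rw [(eu_false hl).1, (eu_false hl).2, e1, e2]

theorem vc_vv (h : Zr (fun i => (a i : ℝ)) chL chR 1 z) (hσ : ∀ i, σ i = 1 ∨ σ i = -1)
    (hs : ∀ j : Fin m, σ j.succ = -σ j.castSucc) (i : Fin (m + 1)) :
    (cfgOf a σ z).vc i = vv (decide (σ 0 = -1)) m z i := by
  have h1 := lf_sig hσ hs (i := i) (by have := i.2; omega)
  rw [fx_val] at h1
  unfold Cfg.vc
  rcases hσ i with hi | hi
  · have hl : lf (decide (σ 0 = -1)) i = false := by rw [h1, hi]; rfl
    rw [uc_pos hi, (h.gdv_uu i).2, vv_false hl h, fx_val, map_div₀, conj_ofReal, neg_div]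
  · have hl : lf (decide (σ 0 = -1)) i = true := by rw [h1, hi]; rfl
    rw [uc_neg hi, (h.gdv_uu i).1, vv_true hl h, fx_val]

theorem sP_even (y v : ℂ) : sP y (.op (-v)) = sP y (.op v) := by
  rw [sP, sP, sub_neg_eq_add, ← sub_eq_add_neg]
  ring

theorem sP_sg (b : Bool) (i : ℕ) (y v : ℂ) : sP y (.op ((sg b i : ℂ) * v)) = sP y (.op v) := by
  rcases hl : lf b i with _ | _
  · rw [sg_false b hl]
    push_cast
    rw [neg_one_mul, sP_even]
  · rw [sg_true b hl]
    push_cast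
    rw [one_mul]

/-- The sum of the two slots of an edge. -/
theorem sP_edge (b : Bool) (i : ℕ) :
    sP (yy (eu b (Uv b m z) i) (ew b (Uv b m z) i)) (.op (gdv (eu b (Uv b m z) i))) +
      sP (yy (eu b (Uv b m z) i) (ew b (Uv b m z) i)) (.op (gdv (ew b (Uv b m z) i))) =
    sP (ye b m z i) (.op (vv b m z i)) + sP (ye b m z i) (.op (vv b m z (i + 1))) := by
  unfold vv
  rw [sP_sg, sP_sg]
  unfold ye eu ew
  rcases hl : lf b i with _ | _
  · simp only [Bool.false_eq_true, if_false]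
    rw [add_comm]
  · simp only [if_true]

/-- The value in terms of the configuration. -/
theorem WU_cfg (h : Zr (fun i => (a i : ℝ)) chL chR 1 z) (hσ : ∀ i, σ i = 1 ∨ σ i = -1)
    (hs : ∀ j : Fin m, σ j.succ = -σ j.castSucc) :
    WU m (fun i => a (fx m i)) (decide (σ 0 = -1)) (Uv (decide (σ 0 = -1)) m z) =
      ∑ j : Fin m, (sP ((cfgOf a σ z).yc j) (.op ((cfgOf a σ z).vc j.castSucc)) +
        sP ((cfgOf a σ z).yc j) (.op ((cfgOf a σ z).vc j.succ))) +
      ∑ i, wr ((cfgOf a σ z).r i) ((cfgOf a σ z).vc i) := by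
  unfold WU
  rw [Finset.sum_range, Finset.sum_range]
  congr 1
  · refine Finset.sum_congr rfl fun j _ => ?_
    rw [sP_edge, yc_ye hσ hs, vc_vv h hσ hs, vc_vv h hσ hs]
    rfl
  · refine Finset.sum_congr rfl fun i _ => ?_
    have e : (cfgOf a σ z).r i = -(sg (decide (σ 0 = -1)) i : ℝ) * (a (fx m i) : ℝ) / 2 := by
      rw [sg_sig hσ hs (by have := i.2; omega), fx_val]
      show (σ i : ℝ) * a i / 2 = _
      push_cast
      ring
    rw [vc_vv h hσ hs, e]
    rfl

/-- The contribution of a closed left end. -/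
theorem end_cfg_zero (hm : 1 ≤ m) (h : Zr (fun i => (a i : ℝ)) chL chR 1 z) (ha : ∀ i, 2 ≤ a i)
    (hσ : ∀ i, σ i = 1 ∨ σ i = -1) (hs : ∀ j : Fin m, σ j.succ = -σ j.castSucc)
    (h2 : a 0 = 2) {j : Fin m} (hj : j.castSucc = 0) :
    wr ((cfgOf a σ z).r 0) ((cfgOf a σ z).vc 0) + (sP ((cfgOf a σ z).yc j)
        (.op ((cfgOf a σ z).vc 0)) - sP ((cfgOf a σ z).yc j) (.cl (σ 0))) =
      ((-σ 0 : ℤ) : ℂ) * (Real.pi * I) := by
  have hj0 : (j : ℕ) = 0 := by
    have := congrArg Fin.val hj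
    simpa using this
  have e1 : sg (decide (σ 0 = -1)) 0 = -σ 0 := by
    have := sg_sig hσ hs (i := 0) (by omega)
    rwa [fx_zero] at this
  have hr : (cfgOf a σ z).r 0 = -(sg (decide (σ 0 = -1)) 0 : ℝ) := by
    rw [e1]
    show (σ 0 : ℝ) * a 0 / 2 = _
    rw [h2]
    push_cast
    ring
  have key := end_zero hm h ha h2 (decide (σ 0 = -1))
  have e2 : (cfgOf a σ z).vc 0 = vv (decide (σ 0 = -1)) m z 0 := vc_vv h hσ hs 0
  rw [hr, e2, yc_ye hσ hs, hj0]
  rw [e1] at key ⊢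
  rw [neg_neg] at key
  linear_combination key

/-- The contribution of a closed right end. -/
theorem end_cfg_last (h : Zr (fun i => (a i : ℝ)) chL chR 1 z) (ha : ∀ i, 2 ≤ a i)
    (hσ : ∀ i, σ i = 1 ∨ σ i = -1) (hs : ∀ j : Fin m, σ j.succ = -σ j.castSucc)
    (h2 : a (Fin.last m) = 2) {j : Fin m} (hj : j.succ = Fin.last m) :
    wr ((cfgOf a σ z).r (Fin.last m)) ((cfgOf a σ z).vc (Fin.last m)) +
      (sP ((cfgOf a σ z).yc j) (.op ((cfgOf a σ z).vc (Fin.last m))) -
        sP ((cfgOf a σ z).yc j) (.cl (σ (Fin.last m)))) =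
      ((-σ (Fin.last m) : ℤ) : ℂ) * (Real.pi * I) := by
  have hj0 : (j : ℕ) + 1 = m := by
    have := congrArg Fin.val hj
    simpa using this
  have ef : fx m ((j : ℕ) + 1) = Fin.last m := by rw [fx_su j.2]; exact hj
  have e1 : sg (decide (σ 0 = -1)) ((j : ℕ) + 1) = -σ (Fin.last m) := by
    have := sg_sig hσ hs (i := (j : ℕ) + 1) (by omega)
    rwa [ef] at this
  have hr : (cfgOf a σ z).r (Fin.last m) = -(sg (decide (σ 0 = -1)) ((j : ℕ) + 1) : ℝ) := by
    rw [e1]
    show (σ (Fin.last m) : ℝ) * a (Fin.last m) / 2 = _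
    rw [h2]
    push_cast
    ring
  have key := end_last h ha hj0 (by rw [ef]; exact h2) (decide (σ 0 = -1))
  have e2 : (cfgOf a σ z).vc (Fin.last m) = vv (decide (σ 0 = -1)) m z ((j : ℕ) + 1) := by
    rw [vc_vv h hσ hs]
    congr 1
    rw [Fin.val_last, hj0]
  rw [hr, e2, yc_ye hσ hs]
  rw [e1] at key ⊢
  rw [neg_neg] at key
  linear_combination key

/-- The contribution of a vertex to the difference of the two values. -/
theorem end_cfg (hm : 1 ≤ m) (h : Zr (fun i => (a i : ℝ)) chL chR 1 z) (ha : ∀ i, 2 ≤ a i)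
    (hσ : ∀ i, σ i = 1 ∨ σ i = -1) (hs : ∀ j : Fin m, σ j.succ = -σ j.castSucc)
    {i : Fin (m + 1)} (hi : clo a i) :
    wr ((cfgOf a σ z).r i) ((cfgOf a σ z).vc i) +
      ∑ j ∈ inc (Fin.castSucc (n := m)) Fin.succ i, (sP ((cfgOf a σ z).yc j)
        (.op ((cfgOf a σ z).vc i)) - sP ((cfgOf a σ z).yc j) (.cl (σ i))) =
      ((-σ i : ℤ) : ℂ) * (Real.pi * I) := by
  obtain ⟨h2, h3⟩ := hi
  rw [sum_inc_ch]
  rcases h3 with h3 | h3
  · subst h3
    obtain ⟨j, hj⟩ := eR_none (i := (0 : Fin (m + 1))) (fun h0 => by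
      have := congrArg Fin.val h0
      simp at this
      omega)
    have e1 : eR (0 : Fin (m + 1)) = some j := eR_eq_some.2 hj
    rw [eL_zero, e1, Option.elim_none, Option.elim_some, zero_add]
    exact end_cfg_zero hm h ha hσ hs h2 hj.symm
  · subst h3
    obtain ⟨j, hj⟩ := eL_none (i := Fin.last m) (fun h0 => by
      have := congrArg Fin.val h0
      simp at this
      omega)
    have e1 : eL (Fin.last m) = some j := eL_eq_some.2 hj
    rw [eR_last, e1, Option.elim_none, Option.elim_some, add_zero]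
    exact end_cfg_last h ha hσ hs h2 hj.symm

/-- The value with closed ends. -/
theorem Wc_cfg (hm : 1 ≤ m) (h : Zr (fun i => (a i : ℝ)) chL chR 1 z) (ha : ∀ i, 2 ≤ a i)
    (hσ : ∀ i, σ i = 1 ∨ σ i = -1) (hs : ∀ j : Fin m, σ j.succ = -σ j.castSucc) :
    WU m (fun i => a (fx m i)) (decide (σ 0 = -1)) (Uv (decide (σ 0 = -1)) m z) =
      Wc (cfgOf a σ z).r (cfgOf a σ z).Op (cfgOf a σ z).s (cfgOf a σ z).yc (cfgOf a σ z).vc +
        ((∑ i ∈ Finset.univ.filter (fun i => clo a i), -σ i : ℤ) : ℂ) * (Real.pi * I) := by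
  have hst : ∀ j : Fin m, Fin.castSucc j ≠ Fin.succ j := fun j => (ne_cs j).symm
  set c := cfgOf a σ z with hc
  have hsum := sum_inc (Fin.castSucc (n := m)) Fin.succ hst
    (fun i j => sP (c.yc j) (.op (c.vc i)) - sP (c.yc j) (slv c.Op c.s c.vc i))
  have hop : ∀ i, ¬ clo a i → slv c.Op c.s c.vc i = .op (c.vc i) := by
    intro i hi
    unfold slv
    rw [if_pos (mem_Op.2 hi)]
  have hcl : ∀ i, clo a i → slv c.Op c.s c.vc i = .cl (σ i) := by
    intro i hi
    unfold slv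
    rw [if_neg (fun h1 => mem_Op.1 h1 hi)]
    rfl
  have hvert : ∀ i, (if clo a i then wr (c.r i) (c.vc i) else 0) +
      ∑ j ∈ inc (Fin.castSucc (n := m)) Fin.succ i,
        (sP (c.yc j) (.op (c.vc i)) - sP (c.yc j) (slv c.Op c.s c.vc i)) =
      if clo a i then ((-σ i : ℤ) : ℂ) * (Real.pi * I) else 0 := by
    intro i
    by_cases hi : clo a i
    · rw [if_pos hi, if_pos hi, hcl i hi]
      exact end_cfg hm h ha hσ hs hi
    · rw [if_neg hi, if_neg hi, hop i hi]
      simp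
  have hv := Finset.sum_congr (rfl : (Finset.univ : Finset (Fin (m + 1))) = Finset.univ)
    (fun i _ => hvert i)
  rw [Finset.sum_add_distrib, hsum, ← Finset.sum_filter, ← Finset.sum_filter,
    ← Finset.sum_mul] at hv
  have hW : ∑ i, wr (c.r i) (c.vc i) = ∑ i ∈ Finset.univ.filter (fun i => clo a i),
      wr (c.r i) (c.vc i) + ∑ i ∈ c.Op, wr (c.r i) (c.vc i) :=
    (Finset.sum_filter_add_sum_filter_not _ _ _).symm
  rw [WU_cfg h hσ hs, ← hc, hW]
  unfold Wc
  rw [Finset.sum_add_distrib] at hv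
  simp only [Finset.sum_sub_distrib] at hv
  simp only [Finset.sum_add_distrib]
  push_cast at hv ⊢
  linear_combination hv

theorem FinS_list : List.ofFn a = (List.range (m + 1)).map (fun i => a (fx m i)) := by
  apply List.ext_getElem
  · simp
  · intro i h1 h2
    simp only [List.getElem_ofFn, List.getElem_map, List.getElem_range]
    rw [List.length_ofFn] at h1
    congr 1
    unfold fx
    rw [dif_pos h1]

/-- **The complex volume of the two-bridge link `C(a_0, ..., a_m)` is the value of the potential at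
the critical point.** -/
theorem cv_main (hm : 1 ≤ m) (h : Zr (fun i => (a i : ℝ)) chL chR 1 z) (ha : ∀ i, 2 ≤ a i)
    (hσ : ∀ i, σ i = 1 ∨ σ i = -1) (hs : ∀ j : Fin m, σ j.succ = -σ j.castSucc) :
    ∃ Z : ℂ, IsComplexVolume (List.ofFn a) (decide (σ 0 = -1)) Z ∧
      ∃ k : ℤ, Z = 2 * Real.pi * I * Wc (cfgOf a σ z).r (cfgOf a σ z).Op (cfgOf a σ z).s
        (cfgOf a σ z).yc (cfgOf a σ z).vc +
        (Real.pi : ℂ) ^ 2 / 2 * ∑ i, (σ i : ℂ) * (a i : ℂ) + k * (Real.pi : ℂ) ^ 2 := by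
  obtain ⟨Z, hZ, n, hn⟩ := (cu_of hm h ha (decide (σ 0 = -1))).main
  rw [FinS_list]
  refine ⟨Z, hZ, ?_⟩
  have e : ∑ i ∈ Finset.range (m + 1), ((a (fx m i) : ℕ) : ℂ) = ∑ i, (a i : ℂ) := by
    rw [Finset.sum_range]
    refine Finset.sum_congr rfl fun i _ => ?_
    rw [fx_val]
  have e2 : ∃ l : ℤ, ∑ i, (a i : ℂ) = ∑ i, (σ i : ℂ) * (a i : ℂ) + 2 * l := by
    refine ⟨∑ i, (if σ i = 1 then 0 else (a i : ℤ)), ?_⟩
    push_cast
    rw [Finset.mul_sum, ← Finset.sum_add_distrib]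
    refine Finset.sum_congr rfl fun i _ => ?_
    rcases hσ i with h1 | h1
    · rw [h1, if_pos rfl]
      push_cast
      ring
    · rw [h1, if_neg (by decide)]
      push_cast
      ring
  obtain ⟨l, hl⟩ := e2
  rw [e, Wc_cfg hm h ha hσ hs, hl] at hn
  refine ⟨n + l - 2 * ∑ i ∈ Finset.univ.filter (fun i => clo a i), -σ i, ?_⟩
  rw [hn]
  push_cast
  linear_combination (2 * (Real.pi : ℂ) ^ 2 *
    ∑ i ∈ Finset.univ.filter (fun i => clo a i), -(σ i : ℂ)) * I_sq

end cfg

end chain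

end Pool.Agent.S3.CV
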