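import Pool.Agent.S3.CV.SumS

/-!
# Stage 3, complex volume: the hinges and the identifications
-/

namespace Pool.Agent.S3.CV

open Pool.Agent.H63.VC3 Pool.Agent.H63.VC5 Complex
open Pool.Agent.H25.RK (gdv)

variable {R : ℕ} {a : ℕ → ℕ} {b : Bool} {U : ℕ → ℂ}

theorem pmo_succ (i : ℕ) : pmo R a b (i + 1) =
    pmo R a b i + (if cS a b i (a i + 1) = -om R a b then sg b i else 0) := rfl

theorem LNo_succ (i : ℕ) : LNo a b U (i + 1) = LNo a b U i + hd b U i (a i) := rfl

section withh

variable (h : CU R a b U)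
include h

theorem CU.ak_last {i : ℕ} (hi : i ≤ R) : ak b U i (a i) = 1 - bRo R b U i := by
  have hv := h.ver i hi
  unfold ak
  linear_combination hv

theorem CU.ak_pred {i : ℕ} (hi : i ≤ R) : ak b U i (a i - 1) = 1 - gdv (U i) - bRo R b U i := by
  have hv := h.ver i hi
  have h1 := h.ha i hi
  unfold ak
  rw [Nat.cast_sub (by omega)]
  push_cast
  linear_combination hv

/-- The change of the logarithm at a hinge. -/
theorem CU.hd_last {i : ℕ} (hi : i < R) : hd b U i (a i) =
    (sg b i : ℂ) * (dS (eu b U i) (ew b U i) - Real.pi * I / 2) := by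
  have he := h.edge i hi
  unfold hd
  rw [h.ak_last hi.le, hhx_refl]
  unfold bRo
  rw [if_neg (Nat.ne_of_lt hi)]
  rcases hl : lf b i with _ | _
  · have e : ew b U i = U i := by unfold ew; rw [hl]; rfl
    have k := he.f0
    simp only [Bool.false_eq_true, if_false]
    rw [e] at k ⊢
    rw [k, sg_false b hl]
    push_cast
    ring
  · have e : eu b U i = U i := by unfold eu; rw [hl]; rfl
    have k := he.qp.e0
    simp only [if_true]
    rw [e] at k ⊢
    rw [k, sg_true b hl]
    push_cast
    ring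

theorem CU.hd_zero {i : ℕ} (hi : i < R) : hd b U (i + 1) 0 =
    -((sg b i : ℂ) * (dS (eu b U i) (ew b U i) - Real.pi * I / 2)) := by
  have he := h.edge i hi
  unfold hd ak
  rw [Nat.cast_zero, zero_mul, zero_add, bLo_succ]
  rcases hl : lf b i with _ | _
  · have e : eu b U i = U (i + 1) := by unfold eu; rw [hl]; rfl
    have k := he.qp.e0
    simp only [Bool.false_eq_true, if_false]
    rw [e] at k ⊢
    rw [k, sg_false b hl]
    push_cast
    ring
  · have e : ew b U i = U (i + 1) := by unfold ew; rw [hl]; rfl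
    have k := he.f0
    simp only [if_true]
    rw [e] at k ⊢
    rw [k, sg_true b hl]
    push_cast
    ring

theorem CU.hd_sum {i : ℕ} (hi : i < R) : hd b U i (a i - 1) + hd b U (i + 1) 1 =
    2 * nS (eu b U i) (ew b U i) + dS (eu b U i) (ew b U i) := by
  have he := h.edge i hi
  have e0 : hd b U i (a i - 1) = hh (gdv (U i) + bRo R b U i) - hh (gdv (U i)) := by
    unfold hd
    rw [h.ak_pred hi.le, ← hhx_refl (gdv (U i) + bRo R b U i)]
    congr 2
    ring
  have e1 : hd b U (i + 1) 1 = hh (gdv (U (i + 1)) + bLo b U (i + 1)) - hh (gdv (U (i + 1))) := by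
    unfold hd ak
    rw [Nat.cast_one, one_mul]
  rw [e0, e1, bLo_succ]
  unfold bRo
  rw [if_neg (Nat.ne_of_lt hi)]
  rcases hl : lf b i with _ | _
  · have e : eu b U i = U (i + 1) := by unfold eu; rw [hl]; rfl
    have e' : ew b U i = U i := by unfold ew; rw [hl]; rfl
    have k := he.qp.e1
    have k' := he.f1
    simp only [Bool.false_eq_true, if_false]
    rw [e, e'] at k k' ⊢
    rw [k, k']
    ring
  · have e : eu b U i = U i := by unfold eu; rw [hl]; rfl
    have e' : ew b U i = U (i + 1) := by unfold ew; rw [hl]; rfl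
    have k := he.qp.e1
    have k' := he.f1
    simp only [if_true]
    rw [e, e'] at k k' ⊢
    rw [k, k']
    ring

theorem CU.zo_hinge {i : ℕ} (hi : i < R) : zo b U i (a i) = zH (eu b U i) (ew b U i) := by
  unfold zo
  rw [h.hd_last hi, ← zH_exp]
  congr 1
  rcases hl : lf b i with _ | _
  · rw [sg_false b hl]
    simp only [Bool.false_eq_true, if_false]
    push_cast
    ring
  · rw [sg_true b hl]
    simp only [if_true]
    push_cast
    ring

/-- The layer of a hinge. -/
theorem CU.hin {i : ℕ} (hi : i < R) :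
    ∃ P Q : ℤ, Complex.log (zo b U i (a i)) + P * (Real.pi * I) =
        2 * lgL b (LPo R a b U) (lamo R a b U) i (a i) -
          2 * lgR b (LPo R a b U) (lamo R a b U) i (a i) ∧
      -Complex.log (1 - zo b U i (a i)) + Q * (Real.pi * I) =
        2 * lgR b (LPo R a b U) (lamo R a b U) i (a i) - lamo R a b U i (a i - 1) -
          lgN a (lamo R a b U) i (a i) ∧
      2 * rogers (zo b U i (a i)) P Q =
        2 * XS (eu b U i) (ew b U i) + Real.pi * I *
          (2 * nS (eu b U i) (ew b U i) + dS (eu b U i) (ew b U i)) + (Real.pi : ℂ) ^ 2 / 6 -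
          (if cS a b i (a i + 1) = -om R a b then (Real.pi : ℂ) ^ 2 / 2 else 0) -
          Real.pi * I * (Uto R a b U i (a i - 1) - Uto R a b U (i + 1) 0) := by
  have he := h.edge i hi
  have ha := h.ha i hi.le
  have eL := h.hd_last hi
  have eZ := h.hd_zero hi
  have eS := h.hd_sum hi
  have hzo := h.zo_hinge hi
  have ej : a i - 1 + 1 = a i := by omega
  have ej2 : cS a b i (a i + 1) = cS a b i (a i - 1) := by
    rw [← TriS_cS_succ a b i (a i - 1)]
    congr 1
    omega
  have hc := cl3 R a b i (a i - 1)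
  rw [ej] at hc
  have hN : lgN a (lamo R a b U) i (a i) = lamo R a b U (i + 1) 1 := by
    unfold lgN
    rw [if_pos rfl]
  rw [hzo, hN, ej2]
  generalize hX1 : hd b U i (a i - 1) = X1 at eS
  generalize hX2 : hd b U (i + 1) 1 = X2 at eS
  rcases hc with ⟨c1, c2, c3⟩ | ⟨c1, c2, c3⟩ | ⟨c1, c2, c3⟩
  · have p1 : pmo R a b (i + 1) = pmo R a b i := by
      rw [pmo_succ, ej2, if_neg c2, add_zero]
    have m1 : muo R a b i (a i) = pmo R a b i := by
      unfold muo; rw [if_neg (fun h => h.1 c1), add_zero]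
    have m2 : muo R a b i (a i - 1) = pmo R a b i := by
      unfold muo; rw [if_neg (fun h => h.1 c1), add_zero]
    have m3 : muo R a b (i + 1) 1 = pmo R a b i - sg b i := by
      unfold muo
      rw [TriS_cP_succ, TriS_cS_one, ej2, if_pos ⟨c3, c2⟩, p1, sg_succ]
      ring
    have u1 : Uto R a b U i (a i - 1) = 0 := by
      unfold Uto; rw [if_pos c1]
    have u2 : Uto R a b U (i + 1) 0 = hd b U (i + 1) 0 := by
      unfold Uto
      rw [TriS_cP_succ, if_neg c3, TriS_cS_zero, if_neg (fun h => h c1)]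
    rw [u1, u2, eZ, if_neg c2]
    unfold lgL lgR LPo lamo
    rw [m1, m2, m3, LNo_succ, eL, hX1, hX2]
    rcases hl : lf b i with _ | _
    · rw [sg_false b hl]
      simp only [Bool.false_eq_true, if_false]
      refine ⟨0, -1, ?_, ?_, ?_⟩
      · rw [he.log_zH]; push_cast; ring
      · rw [he.log_one_sub_zH]; push_cast; linear_combination eS
      · rw [he.hinge]; push_cast; linear_combination (-(Real.pi : ℂ) ^ 2 / 2) * Complex.I_sq
    · rw [sg_true b hl]
      simp only [if_true]
      refine ⟨0, 0, ?_, ?_, ?_⟩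
      · rw [he.log_zH]; push_cast; ring
      · rw [he.log_one_sub_zH]; push_cast; linear_combination eS
      · rw [he.hinge]; push_cast; linear_combination (-(Real.pi : ℂ) ^ 2 / 2) * Complex.I_sq
  · have p1 : pmo R a b (i + 1) = pmo R a b i + sg b i := by
      rw [pmo_succ, ej2, if_pos c2]
    have m1 : muo R a b i (a i) = pmo R a b i + sg b i := by
      unfold muo; rw [if_pos ⟨c1, c3⟩]
    have m2 : muo R a b i (a i - 1) = pmo R a b i := by
      unfold muo; rw [if_neg (fun h => h.2 c2), add_zero]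
    have m3 : muo R a b (i + 1) 1 = pmo R a b i + sg b i := by
      unfold muo
      rw [TriS_cP_succ, TriS_cS_one, ej2, if_neg (fun h => h.2 c2), p1, add_zero]
    have u1 : Uto R a b U i (a i - 1) = hd b U i (a i - 1) := by
      unfold Uto; rw [if_neg c1, if_neg (fun h => h c2)]
    have u2 : Uto R a b U (i + 1) 0 = -hd b U (i + 1) 1 := by
      unfold Uto
      rw [TriS_cP_succ, if_neg c3, TriS_cS_zero, if_pos c1]
    rw [u1, u2, if_pos c2]
    unfold lgL lgR LPo lamo
    rw [m1, m2, m3, LNo_succ, eL, hX1, hX2]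
    rcases hl : lf b i with _ | _
    · rw [sg_false b hl]
      simp only [Bool.false_eq_true, if_false]
      refine ⟨-1, 0, ?_, ?_, ?_⟩
      · rw [he.log_zH]; push_cast; ring
      · rw [he.log_one_sub_zH]; push_cast; linear_combination eS
      · rw [he.hinge]; push_cast; linear_combination (Real.pi * I) * eS
    · rw [sg_true b hl]
      simp only [if_true]
      refine ⟨-1, 0, ?_, ?_, ?_⟩
      · rw [he.log_zH]; push_cast; ring
      · rw [he.log_one_sub_zH]; push_cast; linear_combination eS
      · rw [he.hinge]; push_cast; linear_combination (Real.pi * I) * eS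
  · have p1 : pmo R a b (i + 1) = pmo R a b i := by
      rw [pmo_succ, ej2, if_neg c2, add_zero]
    have m1 : muo R a b i (a i) = pmo R a b i := by
      unfold muo; rw [if_neg (fun h => h.2 c3), add_zero]
    have m2 : muo R a b i (a i - 1) = pmo R a b i + sg b i := by
      unfold muo; rw [if_pos ⟨c1, c2⟩]
    have m3 : muo R a b (i + 1) 1 = pmo R a b i := by
      unfold muo
      rw [TriS_cP_succ, TriS_cS_one, ej2, if_neg (fun h => h.1 c3), p1, add_zero]
    have u1 : Uto R a b U i (a i - 1) = -hd b U i (a i) := by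
      unfold Uto; rw [if_neg c1, if_pos c2, ej]
    have u2 : Uto R a b U (i + 1) 0 = 0 := by
      unfold Uto
      rw [TriS_cP_succ, if_pos c3]
    rw [u1, u2, eL, if_neg c2]
    unfold lgL lgR LPo lamo
    rw [m1, m2, m3, LNo_succ, eL, hX1, hX2]
    rcases hl : lf b i with _ | _
    · rw [sg_false b hl]
      simp only [Bool.false_eq_true, if_false]
      refine ⟨0, 0, ?_, ?_, ?_⟩
      · rw [he.log_zH]; push_cast; ring
      · rw [he.log_one_sub_zH]; push_cast; linear_combination eS
      · rw [he.hinge]; push_cast; linear_combination (-(Real.pi : ℂ) ^ 2 / 2) * Complex.I_sq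
    · rw [sg_true b hl]
      simp only [if_true]
      refine ⟨0, -1, ?_, ?_, ?_⟩
      · rw [he.log_zH]; push_cast; ring
      · rw [he.log_one_sub_zH]; push_cast; linear_combination eS
      · rw [he.hinge]; push_cast; linear_combination (-(Real.pi : ℂ) ^ 2 / 2) * Complex.I_sq

/-! ### The identifications -/

omit h in
theorem lab_first : lamo R a b U 0 1 = LPo R a b U 0 := by
  have hc := cl3 R a b 0 0
  have h0 := cS_first R a b
  have m : muo R a b 0 1 = pmo R a b 0 := by
    unfold muo
    rcases hc with ⟨c1, -, -⟩ | ⟨-, c2, -⟩ | ⟨-, -, c3⟩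
    · rw [if_neg (fun h => h.1 c1), add_zero]
    · exact absurd c2 h0
    · rw [if_neg (fun h => h.2 c3), add_zero]
  have e : hd b U 0 1 = 0 := by
    unfold hd ak bLo
    rw [Nat.cast_one, one_mul, add_zero, sub_self]
  unfold lamo LPo
  rw [m, e, add_zero]

theorem CU.lab_last : lamo R a b U R (a R - 1) = LPo R a b U R := by
  have ha := h.ha R le_rfl
  have ej : a R - 1 + 1 = a R := by omega
  have hc := cl3 R a b R (a R - 1)
  rw [ej] at hc
  have h0 := cS_last R a b
  have m : muo R a b R (a R - 1) = pmo R a b R := by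
    unfold muo
    rcases hc with ⟨c1, -, -⟩ | ⟨-, c2, -⟩ | ⟨-, -, c3⟩
    · rw [if_neg (fun h => h.1 c1), add_zero]
    · rw [if_neg (fun h => h.2 c2), add_zero]
    · exact absurd c3 h0
  have e : hd b U R (a R - 1) = 0 := by
    unfold hd
    rw [h.ak_pred le_rfl]
    have e2 : bRo R b U R = 0 := by unfold bRo; rw [if_pos rfl]
    rw [e2, sub_zero, hhx_refl, sub_self]
  unfold lamo LPo
  rw [m, e, add_zero]

theorem CU.lab_left {i : ℕ} (hi : i < R) : lamo R a b U (i + 1) 0 = LPo R a b U i := by
  have ha := h.ha i hi.le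
  have ej : a i - 1 + 1 = a i := by omega
  have ej2 : cS a b i (a i + 1) = cS a b i (a i - 1) := by
    rw [← TriS_cS_succ a b i (a i - 1)]
    congr 1
    omega
  have hc := cl3 R a b i (a i - 1)
  rw [ej] at hc
  have m : muo R a b (i + 1) 0 = pmo R a b i := by
    unfold muo
    rw [TriS_cP_succ, TriS_cS_zero, pmo_succ, ej2, sg_succ]
    rcases hc with ⟨c1, c2, c3⟩ | ⟨c1, c2, c3⟩ | ⟨c1, c2, c3⟩
    · rw [if_neg c2, if_neg (fun h => h.2 c1)]; ring
    · rw [if_pos c2, if_pos ⟨c3, c1⟩]; ring
    · rw [if_neg c2, if_neg (fun h => h.1 c3)]; ring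
  unfold lamo LPo
  rw [m, LNo_succ, h.hd_last hi, h.hd_zero hi]
  ring

theorem CU.lab_right {i : ℕ} (hi : i < R) : lamo R a b U i (a i) = LPo R a b U (i + 1) := by
  have ha := h.ha i hi.le
  have ej : a i - 1 + 1 = a i := by omega
  have ej2 : cS a b i (a i + 1) = cS a b i (a i - 1) := by
    rw [← TriS_cS_succ a b i (a i - 1)]
    congr 1
    omega
  have hc := cl3 R a b i (a i - 1)
  rw [ej] at hc
  have m : muo R a b i (a i) = pmo R a b (i + 1) := by
    unfold muo
    rw [pmo_succ, ej2]
    rcases hc with ⟨c1, c2, c3⟩ | ⟨c1, c2, c3⟩ | ⟨c1, c2, c3⟩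
    · rw [if_neg (fun h => h.1 c1), if_neg c2]
    · rw [if_pos ⟨c1, c3⟩, if_pos c2]
    · rw [if_neg (fun h => h.2 c3), if_neg c2]
  unfold lamo LPo
  rw [m, LNo_succ]

end withh

end Pool.Agent.S3.CV
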