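import Pool.Agent.H63.VC5.LamB

/-!
# Stage 3, complex volume: the function `Lam` on the strips

The functional equations of `Lam` on the domain `0 < re w`, `0 < re b`, `re w + re b < 1`.
-/

namespace Pool.Agent.S3.CV

open Pool.Agent.H63.VC Pool.Agent.H63.VC3 Pool.Agent.H63.VC4 Pool.Agent.H63.VC5 Complex Filter
open Topology
open scoped BigOperators

/-- The domain of `Lam`. -/
structure Ds (w b : ℂ) : Prop where
  w0 : 0 < w.re
  b0 : 0 < b.re
  s1 : w.re + b.re < 1

theorem Ds.refl {w b : ℂ} (h : Ds w b) : Ds w (1 - w - b) := by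
  have h1 := h.w0
  have h2 := h.b0
  have h3 := h.s1
  refine ⟨h1, ?_, ?_⟩
  · rw [Complex.sub_re, Complex.sub_re, Complex.one_re]
    linarith
  · rw [Complex.sub_re, Complex.sub_re, Complex.one_re]
    linarith

theorem hh_im_lt {z : ℂ} (h0 : 0 < z.re) (h1 : z.re < 1) : |(hh z).im| < Real.pi / 2 := by
  have hs := Clausen_sin_re z h0 h1
  have h2 : |Complex.arg (2 * Complex.sin (Real.pi * z))| < Real.pi / 2 :=
    Complex.abs_arg_lt_pi_div_two_iff.mpr (Or.inl hs)
  unfold hh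
  rw [Complex.log_im]
  exact h2

theorem Ds.w1 {w b : ℂ} (h : Ds w b) : w.re < 1 := by
  have := h.b0
  have := h.s1
  linarith

theorem Ds.b1 {w b : ℂ} (h : Ds w b) : b.re < 1 := by
  have := h.w0
  have := h.s1
  linarith

theorem Ds.s0 {w b : ℂ} (h : Ds w b) : 0 < (w + b).re := by
  have := h.w0
  have := h.b0
  rw [Complex.add_re]
  linarith

theorem Ds.s1' {w b : ℂ} (h : Ds w b) : (w + b).re < 1 := by
  rw [Complex.add_re]
  exact h.s1

theorem LS_exp_w {w b : ℂ} (h : Ds w b) : exp (hh w) = 2 * sin (Real.pi * w) :=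
  hh_exp w h.w0 h.w1

theorem LS_exp_b {w b : ℂ} (h : Ds w b) : exp (hh b) = 2 * sin (Real.pi * b) :=
  hh_exp b h.b0 h.b1

theorem LS_exp_s {w b : ℂ} (h : Ds w b) :
    exp (hh (w + b)) = 2 * sin (Real.pi * (w + b)) := hh_exp (w + b) h.s0 h.s1'

theorem LS_der_w {w b : ℂ} (h : Ds w b) :
    HasDerivAt hh (Real.pi * Complex.cot (Real.pi * w)) w := hh_hasDerivAt w h.w0 h.w1

theorem LS_der_b {w b : ℂ} (h : Ds w b) :
    HasDerivAt hh (Real.pi * Complex.cot (Real.pi * b)) b := hh_hasDerivAt b h.b0 h.b1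

theorem LS_der_s {w b : ℂ} (h : Ds w b) :
    HasDerivAt hh (Real.pi * Complex.cot (Real.pi * (w + b))) (w + b) :=
  hh_hasDerivAt (w + b) h.s0 h.s1'

theorem LS_der_sw {w b : ℂ} (h : Ds w b) :
    HasDerivAt (fun w => hh (w + b)) (Real.pi * Complex.cot (Real.pi * (w + b))) w :=
  HasDerivAt.comp_add_const w b (LS_der_s h)

theorem LS_der_sb {w b : ℂ} (h : Ds w b) :
    HasDerivAt (fun b => hh (w + b)) (Real.pi * Complex.cot (Real.pi * (w + b))) b :=
  HasDerivAt.comp_const_add w b (LS_der_s h)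

theorem LS_sin_ne {z : ℂ} (h0 : 0 < z.re) (h1 : z.re < 1) : sin (Real.pi * z) ≠ 0 := by
  intro h
  have h2 := hh_exp z h0 h1
  rw [h, mul_zero] at h2
  exact exp_ne_zero _ h2

theorem LS_rel1 {w b : ℂ} (h : Ds w b) :
    exp (hh (w + b) - hh w + Real.pi * I * b) +
      exp (-(-(hh b - hh w) - Real.pi * I * (w + b) + Real.pi * I)) = 1 := by
  have hw := LS_exp_w h
  have hb := LS_exp_b h
  have hs := LS_exp_s h
  have hw0 : (2 * sin (Real.pi * w) : ℂ) ≠ 0 := by
    rw [← hw]; exact Complex.exp_ne_zero _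
  have e1 : exp (hh (w + b) - hh w + Real.pi * I * b) =
      2 * sin (Real.pi * (w + b)) / (2 * sin (Real.pi * w)) * exp ((Real.pi * b) * I) := by
    rw [Complex.exp_add, Complex.exp_sub, hs, hw]
    congr 2
    ring
  have e2 : exp (-(-(hh b - hh w) - Real.pi * I * (w + b) + Real.pi * I)) =
      -(2 * sin (Real.pi * b) / (2 * sin (Real.pi * w)) *
        exp ((Real.pi * w + Real.pi * b) * I)) := by
    have : -(-(hh b - hh w) - Real.pi * I * (w + b) + Real.pi * I) =
        (hh b - hh w) + (Real.pi * w + Real.pi * b) * I - Real.pi * I := by ring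
    rw [this, Complex.exp_sub, Complex.exp_add, Complex.exp_sub, hb, hw, Complex.exp_pi_mul_I]
    ring
  rw [e1, e2]
  have ht := LamA_trig (Real.pi * w) (Real.pi * b)
  have e3 : (Real.pi : ℂ) * (w + b) = Real.pi * w + Real.pi * b := by ring
  rw [e3]
  exact LamA_alg _ _ _ _ _ hw0 ht

theorem LS_rel2 {w b : ℂ} (h : Ds w b) :
    exp (hh (w + b) - hh b + Real.pi * I * w) +
      exp (-(hh b - hh w - Real.pi * I * (w + b) + Real.pi * I)) = 1 := by
  have hw := LS_exp_w h
  have hb := LS_exp_b h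
  have hs := LS_exp_s h
  have hb0 : (2 * sin (Real.pi * b) : ℂ) ≠ 0 := by
    rw [← hb]; exact Complex.exp_ne_zero _
  have e1 : exp (hh (w + b) - hh b + Real.pi * I * w) =
      2 * sin (Real.pi * (w + b)) / (2 * sin (Real.pi * b)) * exp ((Real.pi * w) * I) := by
    rw [Complex.exp_add, Complex.exp_sub, hs, hb]
    congr 2
    ring
  have e2 : exp (-(hh b - hh w - Real.pi * I * (w + b) + Real.pi * I)) =
      -(2 * sin (Real.pi * w) / (2 * sin (Real.pi * b)) *
        exp ((Real.pi * b + Real.pi * w) * I)) := by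
    have : -(hh b - hh w - Real.pi * I * (w + b) + Real.pi * I) =
        (hh w - hh b) + (Real.pi * b + Real.pi * w) * I - Real.pi * I := by ring
    rw [this, Complex.exp_sub, Complex.exp_add, Complex.exp_sub, hb, hw, Complex.exp_pi_mul_I]
    ring
  rw [e1, e2]
  have ht := LamA_trig (Real.pi * b) (Real.pi * w)
  have e3 : (Real.pi : ℂ) * (w + b) = Real.pi * b + Real.pi * w := by ring
  rw [e3]
  exact LamA_alg _ _ _ _ _ hb0 ht

theorem LS_bd1 {w b : ℂ} (h : Ds w b) :
    |(hh (w + b) - hh w + Real.pi * I * b).im| < 2 * Real.pi := by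
  have hp := Real.pi_pos
  have h1 := abs_lt.1 (hh_im_lt h.s0 h.s1')
  have h2 := abs_lt.1 (hh_im_lt h.w0 h.w1)
  have h3 := h.b0
  have h4 := h.b1
  rw [Complex.add_im, Complex.sub_im, LamA_im_pi]
  have h5 : Real.pi * b.re < Real.pi * 1 := mul_lt_mul_of_pos_left h4 hp
  have h6 : 0 < Real.pi * b.re := mul_pos hp h3
  rw [abs_lt]
  constructor <;> linarith [h1.1, h1.2, h2.1, h2.2]

theorem LS_bd2 {w b : ℂ} (h : Ds w b) :
    |(hh (w + b) - hh b + Real.pi * I * w).im| < 2 * Real.pi := by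
  have hp := Real.pi_pos
  have h1 := abs_lt.1 (hh_im_lt h.s0 h.s1')
  have h2 := abs_lt.1 (hh_im_lt h.b0 h.b1)
  have h3 := h.w0
  have h4 := h.w1
  rw [Complex.add_im, Complex.sub_im, LamA_im_pi]
  have h5 : Real.pi * w.re < Real.pi * 1 := mul_lt_mul_of_pos_left h4 hp
  have h6 : 0 < Real.pi * w.re := mul_pos hp h3
  rw [abs_lt]
  constructor <;> linarith [h1.1, h1.2, h2.1, h2.2]

theorem LS_open {w b : ℂ} (h : Ds w b) : ∀ᶠ p : ℂ × ℂ in 𝓝 (w, b), Ds p.1 p.2 := by
  have e1 : ∀ᶠ p : ℂ × ℂ in 𝓝 (w, b), 0 < p.1.re :=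
    (isOpen_lt (by fun_prop) (by fun_prop)).mem_nhds h.w0
  have e2 : ∀ᶠ p : ℂ × ℂ in 𝓝 (w, b), 0 < p.2.re :=
    (isOpen_lt (by fun_prop) (by fun_prop)).mem_nhds h.b0
  have e3 : ∀ᶠ p : ℂ × ℂ in 𝓝 (w, b), p.1.re + p.2.re < 1 :=
    (isOpen_lt (by fun_prop) (by fun_prop)).mem_nhds h.s1
  filter_upwards [e1, e2, e3] with p q1 q2 q3
  exact ⟨q1, q2, q3⟩

theorem LS_nhds_w {w b : ℂ} (h : Ds w b) : ∀ᶠ w' in 𝓝 w, Ds w' b := by
  have hc : ContinuousAt (fun x : ℂ => (x, b)) w := by fun_prop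
  exact hc.eventually (LS_open h)

theorem LS_nhds_b {w b : ℂ} (h : Ds w b) : ∀ᶠ b' in 𝓝 b, Ds w b' := by
  have hc : ContinuousAt (fun x : ℂ => (w, x)) b := by fun_prop
  exact hc.eventually (LS_open h)

/-! ### The derivatives -/

theorem LS_w (w b : ℂ) (h : Ds w b) : HasDerivAt (fun w => Lam w b)
    ((hh (w + b) - hh b) * (Real.pi * Complex.cot (Real.pi * w)) +
      (hh b - hh w) * (Real.pi * Complex.cot (Real.pi * (w + b))) +
      (Real.pi : ℂ) ^ 2 * b) w := by
  have dw := LS_der_w h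
  have ds := LS_der_sw h
  set c := (Real.pi : ℂ) * Complex.cot (Real.pi * w) with hc
  set c1 := (Real.pi : ℂ) * Complex.cot (Real.pi * (w + b)) with hc1
  have did : HasDerivAt (fun w : ℂ => w) 1 w := hasDerivAt_id w
  have df : HasDerivAt (fun w => hh (w + b) - hh w + Real.pi * I * b) (c1 - c) w :=
    (ds.sub dw).add_const _
  have dg : HasDerivAt (fun w => -(hh b - hh w) - Real.pi * I * (w + b) + Real.pi * I)
      (c - Real.pi * I) w := by
    have := (((dw.const_sub (hh b)).neg).sub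
      ((did.add_const b).const_mul ((Real.pi : ℂ) * I))).add_const ((Real.pi : ℂ) * I)
    refine this.congr_deriv ?_
    ring
  have df2 : HasDerivAt (fun w => hh (w + b) - hh b + Real.pi * I * w) (c1 + Real.pi * I) w := by
    have := (ds.sub_const (hh b)).add (did.const_mul ((Real.pi : ℂ) * I))
    refine this.congr_deriv ?_
    ring
  have dg2 : HasDerivAt (fun w => hh b - hh w - Real.pi * I * (w + b) + Real.pi * I)
      (-c - Real.pi * I) w := by
    have := ((dw.const_sub (hh b)).sub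
      ((did.add_const b).const_mul ((Real.pi : ℂ) * I))).add_const ((Real.pi : ℂ) * I)
    refine this.congr_deriv ?_
    ring
  have hn := LS_nhds_w h
  have r1 := RG_hasDerivAt _ _ _ _ w df dg (hn.mono fun w' h' => LS_rel1 h') (LS_bd1 h)
  have r2 := RG_hasDerivAt _ _ _ _ w df2 dg2 (hn.mono fun w' h' => LS_rel2 h') (LS_bd2 h)
  have r3 : HasDerivAt (fun w : ℂ => (Real.pi : ℂ) ^ 2 / 2 * (w - b)) ((Real.pi : ℂ) ^ 2 / 2) w := by
    have := (did.sub_const b).const_mul ((Real.pi : ℂ) ^ 2 / 2)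
    refine this.congr_deriv ?_
    ring
  have r4 : HasDerivAt (fun w : ℂ => (Real.pi : ℂ) * I / 2 * (hh b - hh w))
      (-((Real.pi : ℂ) * I / 2 * c)) w := by
    have := (dw.const_sub (hh b)).const_mul ((Real.pi : ℂ) * I / 2)
    refine this.congr_deriv ?_
    ring
  have r := ((((r1.neg).add r2).add r3).add r4).add_const ((Real.pi : ℂ) ^ 2 / 6)
  refine r.congr_deriv ?_
  linear_combination ((Real.pi : ℂ) ^ 2 / 2 - (Real.pi : ℂ) ^ 2 * b) * Complex.I_sq

theorem LS_b (w b : ℂ) (h : Ds w b) : HasDerivAt (fun b => Lam w b)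
    ((hh b - hh w) * (Real.pi * Complex.cot (Real.pi * (w + b))) +
      (hh w - hh (w + b)) * (Real.pi * Complex.cot (Real.pi * b)) -
      (Real.pi : ℂ) ^ 2 * w) b := by
  have dw := LS_der_b h
  have ds := LS_der_sb h
  set c := (Real.pi : ℂ) * Complex.cot (Real.pi * b) with hc
  set c1 := (Real.pi : ℂ) * Complex.cot (Real.pi * (w + b)) with hc1
  have did : HasDerivAt (fun b : ℂ => b) 1 b := hasDerivAt_id b
  have df : HasDerivAt (fun b => hh (w + b) - hh w + Real.pi * I * b) (c1 + Real.pi * I) b := by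
    have := (ds.sub_const (hh w)).add (did.const_mul ((Real.pi : ℂ) * I))
    refine this.congr_deriv ?_
    ring
  have dg : HasDerivAt (fun b => -(hh b - hh w) - Real.pi * I * (w + b) + Real.pi * I)
      (-c - Real.pi * I) b := by
    have := (((dw.sub_const (hh w)).neg).sub
      ((did.const_add w).const_mul ((Real.pi : ℂ) * I))).add_const ((Real.pi : ℂ) * I)
    refine this.congr_deriv ?_
    ring
  have df2 : HasDerivAt (fun b => hh (w + b) - hh b + Real.pi * I * w) (c1 - c) b :=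
    (ds.sub dw).add_const _
  have dg2 : HasDerivAt (fun b => hh b - hh w - Real.pi * I * (w + b) + Real.pi * I)
      (c - Real.pi * I) b := by
    have := ((dw.sub_const (hh w)).sub
      ((did.const_add w).const_mul ((Real.pi : ℂ) * I))).add_const ((Real.pi : ℂ) * I)
    refine this.congr_deriv ?_
    ring
  have hn := LS_nhds_b h
  have r1 := RG_hasDerivAt _ _ _ _ b df dg (hn.mono fun w' h' => LS_rel1 h') (LS_bd1 h)
  have r2 := RG_hasDerivAt _ _ _ _ b df2 dg2 (hn.mono fun w' h' => LS_rel2 h') (LS_bd2 h)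
  have r3 : HasDerivAt (fun b : ℂ => (Real.pi : ℂ) ^ 2 / 2 * (w - b))
      (-((Real.pi : ℂ) ^ 2 / 2)) b := by
    have := (did.const_sub w).const_mul ((Real.pi : ℂ) ^ 2 / 2)
    refine this.congr_deriv ?_
    ring
  have r4 : HasDerivAt (fun b : ℂ => (Real.pi : ℂ) * I / 2 * (hh b - hh w))
      ((Real.pi : ℂ) * I / 2 * c) b :=
    (dw.sub_const (hh w)).const_mul ((Real.pi : ℂ) * I / 2)
  have r := ((((r1.neg).add r2).add r3).add r4).add_const ((Real.pi : ℂ) ^ 2 / 6)
  refine r.congr_deriv ?_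
  linear_combination ((Real.pi : ℂ) ^ 2 * w - (Real.pi : ℂ) ^ 2 / 2) * Complex.I_sq

theorem LS_conv {a c x y : ℝ} (ha : 0 ≤ a) (hc : 0 ≤ c) (hac : a + c = 1) (hx : 0 < x)
    (hy : 0 < y) : 0 < a * x + c * y := by
  rcases ha.eq_or_lt with h | h
  · have : c = 1 := by linarith
    rw [← h, this]
    linarith
  · have h1 := mul_pos h hx
    have h2 := mul_nonneg hc hy.le
    linarith

theorem Ds_convex {w b w' b' : ℂ} (h : Ds w b) (h' : Ds w' b') {a c : ℝ}
    (ha : 0 ≤ a) (hc : 0 ≤ c) (hac : a + c = 1) : Ds (a • w + c • w') (a • b + c • b') := by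
  refine ⟨?_, ?_, ?_⟩
  · simp only [Complex.add_re, Complex.smul_re, smul_eq_mul]
    exact LS_conv ha hc hac h.w0 h'.w0
  · simp only [Complex.add_re, Complex.smul_re, smul_eq_mul]
    exact LS_conv ha hc hac h.b0 h'.b0
  · simp only [Complex.add_re, Complex.smul_re, smul_eq_mul]
    have h1 := LS_conv ha hc hac (sub_pos.2 h.s1) (sub_pos.2 h'.s1)
    have h2 : c = 1 - a := by linarith
    subst h2
    linarith

theorem LS_const (S : Set ℂ) (hS : Convex ℝ S) (F : ℂ → ℂ) (hF : ∀ x ∈ S, HasDerivAt F 0 x)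
    (x y : ℂ) (hx : x ∈ S) (hy : y ∈ S) : F x = F y := by
  have h1 := hS.norm_image_sub_le_of_norm_hasDerivWithin_le (f := F) (f' := fun _ => 0) (C := 0)
    (fun z hz => (hF z hz).hasDerivWithinAt) (fun z _ => by simp) hy hx
  rw [zero_mul] at h1
  exact sub_eq_zero.1 (norm_le_zero_iff.1 h1)

/-- A function with vanishing partial derivatives is constant. -/
theorem Ds_const (F : ℂ → ℂ → ℂ)
    (hw : ∀ w b, Ds w b → HasDerivAt (fun w => F w b) 0 w)
    (hb : ∀ w b, Ds w b → HasDerivAt (fun b => F w b) 0 b) (w b : ℂ) (h : Ds w b) :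
    F w b = F (1 / 3) (1 / 3) := by
  have hcw : ∀ b : ℂ, Convex ℝ {w : ℂ | Ds w b} := by
    intro b x hx y hy a c ha hc hac
    have := Ds_convex (h := (hx : Ds x b)) (h' := (hy : Ds y b)) ha hc hac
    rwa [← add_smul, hac, one_smul] at this
  have hcb : ∀ w : ℂ, Convex ℝ {b : ℂ | Ds w b} := by
    intro w x hx y hy a c ha hc hac
    have := Ds_convex (h := (hx : Ds w x)) (h' := (hy : Ds w y)) ha hc hac
    rwa [← add_smul, hac, one_smul] at this
  have h1 := h.w0
  have h2 := h.b0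
  have h3 := h.s1
  set t : ℝ := min (1 / 3) ((1 - b.re) / 2) with ht
  have ht0 : 0 < t := lt_min (by norm_num) (by linarith)
  have ht1 : t ≤ 1 / 3 := min_le_left _ _
  have ht2 : t ≤ (1 - b.re) / 2 := min_le_right _ _
  have h13 : (1 / 3 : ℂ) = ((1 / 3 : ℝ) : ℂ) := by push_cast; ring
  have hA : Ds (t : ℂ) b := ⟨by rwa [Complex.ofReal_re], h2, by rw [Complex.ofReal_re]; linarith⟩
  have hB : Ds (t : ℂ) (1 / 3) := by
    rw [h13]
    refine ⟨by rwa [Complex.ofReal_re], by rw [Complex.ofReal_re]; norm_num, ?_⟩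
    rw [Complex.ofReal_re, Complex.ofReal_re]
    linarith
  have hC : Ds (1 / 3) (1 / 3) := by
    rw [h13]
    refine ⟨by rw [Complex.ofReal_re]; norm_num, by rw [Complex.ofReal_re]; norm_num, ?_⟩
    rw [Complex.ofReal_re]
    norm_num
  calc F w b = F t b := LS_const _ (hcw b) (fun w => F w b) (fun x hx => hw x b hx) w t h hA
    _ = F t (1 / 3) := LS_const _ (hcb t) (fun b => F t b) (fun x hx => hb t x hx) b _ hA hB
    _ = F (1 / 3) (1 / 3) :=
      LS_const _ (hcw (1 / 3)) (fun w => F w (1 / 3)) (fun x hx => hw x _ hx) t _ hB hC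

/-- The same on the smaller domain of `Rr`. -/
theorem Ds_const' (F : ℂ → ℂ → ℂ)
    (hw : ∀ w b, Ds w b → Ds w (w + b) → HasDerivAt (fun w => F w b) 0 w)
    (hb : ∀ w b, Ds w b → Ds w (w + b) → HasDerivAt (fun b => F w b) 0 b) (w b : ℂ)
    (h : Ds w b) (h' : Ds w (w + b)) : F w b = F (1 / 4) (1 / 4) := by
  have hcw : ∀ b : ℂ, Convex ℝ {w : ℂ | Ds w b ∧ Ds w (w + b)} := by
    intro b x hx y hy a c ha hc hac
    have e1 := Ds_convex (h := hx.1) (h' := hy.1) ha hc hac
    have e2 := Ds_convex (h := hx.2) (h' := hy.2) ha hc hac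
    rw [← add_smul, hac, one_smul] at e1
    have e3 : a • (x + b) + c • (y + b) = (a • x + c • y) + b := by
      have : b = (a + c) • b := by rw [hac, one_smul]
      conv_rhs => rw [this]
      rw [add_smul, smul_add, smul_add]
      abel
    rw [e3] at e2
    exact ⟨e1, e2⟩
  have hcb : ∀ w : ℂ, Convex ℝ {b : ℂ | Ds w b ∧ Ds w (w + b)} := by
    intro w x hx y hy a c ha hc hac
    have e1 := Ds_convex (h := hx.1) (h' := hy.1) ha hc hac
    have e2 := Ds_convex (h := hx.2) (h' := hy.2) ha hc hac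
    rw [← add_smul, hac, one_smul] at e1 e2
    have e3 : a • (w + x) + c • (w + y) = w + (a • x + c • y) := by
      have : w = (a + c) • w := by rw [hac, one_smul]
      conv_rhs => rw [this]
      rw [add_smul, smul_add, smul_add]
      abel
    rw [e3] at e2
    exact ⟨e1, e2⟩
  have h1 := h.w0
  have h2 := h.b0
  have h3 := h'.s1
  rw [Complex.add_re] at h3
  set t : ℝ := min (1 / 4) ((1 - b.re) / 4) with ht
  have ht0 : 0 < t := lt_min (by norm_num) (by linarith)
  have ht1 : t ≤ 1 / 4 := min_le_left _ _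
  have ht2 : t ≤ (1 - b.re) / 4 := min_le_right _ _
  have h14 : (1 / 4 : ℂ) = ((1 / 4 : ℝ) : ℂ) := by push_cast; ring
  have hA : Ds (t : ℂ) b ∧ Ds (t : ℂ) (t + b) := by
    refine ⟨⟨by rwa [Complex.ofReal_re], h2, ?_⟩, ⟨by rwa [Complex.ofReal_re], ?_, ?_⟩⟩
    · rw [Complex.ofReal_re]; linarith
    · rw [Complex.add_re, Complex.ofReal_re]; linarith
    · rw [Complex.add_re, Complex.ofReal_re]; linarith
  have hB : Ds (t : ℂ) (1 / 4) ∧ Ds (t : ℂ) (t + 1 / 4) := by
    rw [h14]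
    refine ⟨⟨by rwa [Complex.ofReal_re], ?_, ?_⟩, ⟨by rwa [Complex.ofReal_re], ?_, ?_⟩⟩
    · rw [Complex.ofReal_re]; norm_num
    · rw [Complex.ofReal_re, Complex.ofReal_re]; linarith
    · rw [Complex.add_re, Complex.ofReal_re, Complex.ofReal_re]; linarith
    · rw [Complex.add_re, Complex.ofReal_re, Complex.ofReal_re]; linarith
  have hC : Ds (1 / 4) (1 / 4) ∧ Ds (1 / 4) (1 / 4 + 1 / 4) := by
    rw [h14]
    refine ⟨⟨?_, ?_, ?_⟩, ⟨?_, ?_, ?_⟩⟩ <;>
      simp only [Complex.add_re, Complex.ofReal_re] <;> norm_num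
  calc F w b = F t b := LS_const _ (hcw b) (fun w => F w b)
        (fun x hx => hw x b hx.1 hx.2) w t ⟨h, h'⟩ hA
    _ = F t (1 / 4) := LS_const _ (hcb t) (fun b => F t b)
        (fun x hx => hb t x hx.1 hx.2) b _ hA hB
    _ = F (1 / 4) (1 / 4) := LS_const _ (hcw (1 / 4)) (fun w => F w (1 / 4))
        (fun x hx => hw x _ hx.1 hx.2) t _ hB hC

theorem LS_hh_cont {z : ℂ} (h0 : 0 < z.re) (h1 : z.re < 1) : ContinuousAt hh z :=
  (hh_hasDerivAt z h0 h1).continuousAt

theorem LS_Cw_cont {w b : ℂ} (h : Ds w b) :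
    ContinuousAt (fun p : ℂ × ℂ => LamB_Cw p.1 p.2) (w, b) := by
  have a1 : ContinuousAt (fun p : ℂ × ℂ => hh (p.1 + p.2)) (w, b) :=
    LamB_comp (LS_hh_cont h.s0 h.s1') (by fun_prop) rfl
  have a2 : ContinuousAt (fun p : ℂ × ℂ => hh p.2) (w, b) :=
    LamB_comp (LS_hh_cont h.b0 h.b1) (by fun_prop) rfl
  have a3 : ContinuousAt (fun p : ℂ × ℂ => hh p.1) (w, b) :=
    LamB_comp (LS_hh_cont h.w0 h.w1) (by fun_prop) rfl
  have a4 : ContinuousAt (fun p : ℂ × ℂ => Complex.cot (Real.pi * p.1)) (w, b) :=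
    LamB_comp (g := fun x : ℂ => Complex.cot (Real.pi * x)) (q := fun p : ℂ × ℂ => p.1)
      (LamB_cot_cont (LS_sin_ne h.w0 h.w1)) continuous_fst rfl
  have a5 : ContinuousAt (fun p : ℂ × ℂ => Complex.cot (Real.pi * (p.1 + p.2))) (w, b) :=
    LamB_comp (g := fun x : ℂ => Complex.cot (Real.pi * x)) (q := fun p : ℂ × ℂ => p.1 + p.2)
      (LamB_cot_cont (LS_sin_ne h.s0 h.s1')) (by fun_prop) rfl
  unfold LamB_Cw
  exact (((a1.sub a2).mul (continuousAt_const.mul a4)).add
    ((a2.sub a3).mul (continuousAt_const.mul a5))).add (by fun_prop)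

theorem LS_Cb_cont {w b : ℂ} (h : Ds w b) :
    ContinuousAt (fun p : ℂ × ℂ => LamB_Cb p.1 p.2) (w, b) := by
  have a1 : ContinuousAt (fun p : ℂ × ℂ => hh (p.1 + p.2)) (w, b) :=
    LamB_comp (LS_hh_cont h.s0 h.s1') (by fun_prop) rfl
  have a2 : ContinuousAt (fun p : ℂ × ℂ => hh p.2) (w, b) :=
    LamB_comp (LS_hh_cont h.b0 h.b1) (by fun_prop) rfl
  have a3 : ContinuousAt (fun p : ℂ × ℂ => hh p.1) (w, b) :=
    LamB_comp (LS_hh_cont h.w0 h.w1) (by fun_prop) rfl
  have a4 : ContinuousAt (fun p : ℂ × ℂ => Complex.cot (Real.pi * p.2)) (w, b) :=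
    LamB_comp (g := fun x : ℂ => Complex.cot (Real.pi * x)) (q := fun p : ℂ × ℂ => p.2)
      (LamB_cot_cont (LS_sin_ne h.b0 h.b1)) continuous_snd rfl
  have a5 : ContinuousAt (fun p : ℂ × ℂ => Complex.cot (Real.pi * (p.1 + p.2))) (w, b) :=
    LamB_comp (g := fun x : ℂ => Complex.cot (Real.pi * x)) (q := fun p : ℂ × ℂ => p.1 + p.2)
      (LamB_cot_cont (LS_sin_ne h.s0 h.s1')) (by fun_prop) rfl
  unfold LamB_Cb
  exact (((a2.sub a3).mul (continuousAt_const.mul a5)).add
    ((a3.sub a1).mul (continuousAt_const.mul a4))).sub (by fun_prop)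

theorem LS_total {w b : ℂ} (h : Ds w b) {u v : ℂ → ℂ} {t u' v' : ℂ}
    (hu : HasDerivAt u u' t) (hv : HasDerivAt v v' t) (hut : u t = w) (hvt : v t = b) :
    HasDerivAt (fun t => Lam (u t) (v t)) (LamB_Cw w b * u' + LamB_Cb w b * v') t := by
  have hF : HasStrictFDerivAt (fun p : ℂ × ℂ => Lam p.1 p.2)
      ((ContinuousLinearMap.toSpanSingleton ℂ (LamB_Cw w b)).coprod
        (ContinuousLinearMap.toSpanSingleton ℂ (LamB_Cb w b))) (w, b) := by
    refine hasStrictFDerivAt_uncurry_coprod (u := (w, b)) (f := Lam)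
      (f₁ := fun x y => ContinuousLinearMap.toSpanSingleton ℂ (LamB_Cw x y))
      (f₂ := fun x y => ContinuousLinearMap.toSpanSingleton ℂ (LamB_Cb x y)) ?_ ?_ ?_ ?_
    · filter_upwards [LS_open h] with p hp
      exact (LS_w p.1 p.2 hp).hasFDerivAt
    · filter_upwards [LS_open h] with p hp
      exact (LS_b p.1 p.2 hp).hasFDerivAt
    · have h1 := LS_Cw_cont h
      have h2 : Continuous fun c : ℂ => ContinuousLinearMap.toSpanSingleton ℂ c :=
        (ContinuousLinearMap.toSpanSingletonCLE (𝕜 := ℂ) (E := ℂ)).continuous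
      exact h2.continuousAt.comp h1
    · have h1 := LS_Cb_cont h
      have h2 : Continuous fun c : ℂ => ContinuousLinearMap.toSpanSingleton ℂ c :=
        (ContinuousLinearMap.toSpanSingletonCLE (𝕜 := ℂ) (E := ℂ)).continuous
      exact h2.continuousAt.comp h1
  subst hut
  subst hvt
  have h1 := hF.hasFDerivAt.comp_hasDerivAt t (hu.prodMk hv)
  refine h1.congr_deriv ?_
  simp [mul_comm]

theorem LS_refl (w b : ℂ) (h : Ds w b) :
    Lam w b + Lam w (1 - w - b) = (Real.pi : ℂ) ^ 2 * w := by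
  have key := Ds_const (fun w b => Lam w b + Lam w (1 - w - b) - (Real.pi : ℂ) ^ 2 * w) ?_ ?_ w b h
  · have e1 : (1 : ℂ) - 1 / 3 - 1 / 3 = 1 / 3 := by norm_num
    rw [e1, Lam_diag] at key
    linear_combination key
  · intro w b h
    have h1 := LS_total h (hasDerivAt_id w) (hasDerivAt_const w b) rfl rfl
    have h2 := LS_total h.refl (u := fun w => w) (v := fun w => 1 - w - b)
      (hasDerivAt_id w) (((hasDerivAt_id w).const_sub 1).sub_const b) rfl rfl
    have h3 := (h1.add h2).sub ((hasDerivAt_id w).const_mul ((Real.pi : ℂ) ^ 2))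
    refine h3.congr_deriv ?_
    rw [LamB_Cb_refl]
    linear_combination LamB_Cw_refl w b
  · intro w b h
    have h1 := LS_total h (hasDerivAt_const b w) (hasDerivAt_id b) rfl rfl
    have h2 := LS_total h.refl (u := fun _ => w) (v := fun b => 1 - w - b)
      (hasDerivAt_const b w) ((hasDerivAt_id b).const_sub (1 - w)) rfl rfl
    have h3 := (h1.add h2).sub_const ((Real.pi : ℂ) ^ 2 * w)
    refine h3.congr_deriv ?_
    rw [LamB_Cb_refl]
    ring

theorem LS_rel {w b : ℂ} (h : Ds w b) (h' : Ds w (w + b)) :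
    exp (2 * (hh w - hh (w + b))) + exp (-(2 * hh (w + b) - hh b - hh (2 * w + b))) = 1 := by
  have e0 : w + (w + b) = 2 * w + b := by ring
  have o0 := h'.s0
  have o1 := h'.s1'
  rw [e0] at o0 o1
  have x0 := hh_exp b h.b0 h.b1
  have x1 := hh_exp (w + b) h.s0 h.s1'
  have x2 := hh_exp (2 * w + b) o0 o1
  have x := hh_exp w h.w0 h.w1
  have n1 := LS_sin_ne h.s0 h.s1'
  have a1 : exp (2 * (hh w - hh (w + b))) = exp (hh w) ^ 2 / exp (hh (w + b)) ^ 2 := by
    rw [← exp_nat_mul, ← exp_nat_mul, ← exp_sub]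
    congr 1
    push_cast
    ring
  have a2 : exp (-(2 * hh (w + b) - hh b - hh (2 * w + b))) =
      exp (hh b) * exp (hh (2 * w + b)) / exp (hh (w + b)) ^ 2 := by
    rw [← exp_nat_mul, ← exp_add, ← exp_sub]
    congr 1
    push_cast
    ring
  rw [a1, a2, x, x0, x1, x2]
  have t := LamB_trig (Real.pi * w) (Real.pi * b)
  have e1 : (Real.pi : ℂ) * (w + b) = Real.pi * w + Real.pi * b := by ring
  have e2 : (Real.pi : ℂ) * (2 * w + b) = 2 * (Real.pi * w) + Real.pi * b := by ring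
  rw [e1] at n1 ⊢
  rw [e2]
  have hne : (2 * sin (Real.pi * w + Real.pi * b)) ^ 2 ≠ 0 :=
    pow_ne_zero _ (mul_ne_zero two_ne_zero n1)
  rw [← add_div, div_eq_one_iff_eq hne]
  linear_combination 4 * t

theorem LS_im {w b : ℂ} (h : Ds w b) : |(2 * (hh w - hh (w + b))).im| < 2 * Real.pi := by
  have i1 := abs_lt.1 (hh_im_lt h.w0 h.w1)
  have i2 := abs_lt.1 (hh_im_lt h.s0 h.s1')
  have e : (2 * (hh w - hh (w + b))).im = 2 * ((hh w).im - (hh (w + b)).im) := by
    simp
  rw [e, abs_lt]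
  constructor <;> linarith [i1.1, i1.2, i2.1, i2.2]

theorem LS_open2 {w b : ℂ} (h : Ds w b) (h' : Ds w (w + b)) :
    ∀ᶠ p : ℂ × ℂ in 𝓝 (w, b), Ds p.1 p.2 ∧ Ds p.1 (p.1 + p.2) := by
  have h1 := LS_open h
  have hc : ContinuousAt (fun p : ℂ × ℂ => (p.1, p.1 + p.2)) (w, b) := by fun_prop
  have h2 := hc.eventually (LS_open h')
  filter_upwards [h1, h2] with p q1 q2
  exact ⟨q1, q2⟩

theorem LS_Rr_w {w b : ℂ} (h : Ds w b) (h' : Ds w (w + b)) :
    HasDerivAt (fun w => Rr w b)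
      ((2 * hh (w + b) - hh b - hh (2 * w + b)) * (Real.pi * Complex.cot (Real.pi * w)) +
      (hh b + hh (2 * w + b) - 2 * hh w) * (Real.pi * Complex.cot (Real.pi * (w + b))) +
      2 * (hh w - hh (w + b)) * (Real.pi * Complex.cot (Real.pi * (2 * w + b)))) w := by
  have e0 : w + (w + b) = 2 * w + b := by ring
  have o0 := h'.s0
  have o1 := h'.s1'
  rw [e0] at o0 o1
  have d := LS_der_w h
  have d1 : HasDerivAt (fun w => hh (w + b)) (Real.pi * Complex.cot (Real.pi * (w + b))) w := by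
    have := (LS_der_s h).comp w ((hasDerivAt_id w).add_const b)
    refine this.congr_deriv ?_
    ring
  have d2 : HasDerivAt (fun w => hh (2 * w + b))
      (2 * (Real.pi * Complex.cot (Real.pi * (2 * w + b)))) w := by
    have := (hh_hasDerivAt _ o0 o1).comp w (((hasDerivAt_id w).const_mul 2).add_const b)
    refine this.congr_deriv ?_
    ring
  have hf : HasDerivAt (fun w => 2 * (hh w - hh (w + b)))
      (2 * (Real.pi * Complex.cot (Real.pi * w) - Real.pi * Complex.cot (Real.pi * (w + b)))) w :=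
    (d.sub d1).const_mul 2
  have hg : HasDerivAt (fun w => 2 * hh (w + b) - hh b - hh (2 * w + b))
      (2 * (Real.pi * Complex.cot (Real.pi * (w + b))) -
        2 * (Real.pi * Complex.cot (Real.pi * (2 * w + b)))) w :=
    ((d1.const_mul 2).sub_const (hh b)).sub d2
  have hev : ∀ᶠ x in 𝓝 w, exp (2 * (hh x - hh (x + b))) +
      exp (-(2 * hh (x + b) - hh b - hh (2 * x + b))) = 1 := by
    have hc : ContinuousAt (fun x : ℂ => (x, b)) w := by fun_prop
    filter_upwards [hc.eventually (LS_open2 h h')] with x hx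
    exact LS_rel hx.1 hx.2
  have hR := RG_hasDerivAt _ _ _ _ w hf hg hev (LS_im h)
  have hfun : (fun w => Rr w b) = fun w => GG (2 * (hh w - hh (w + b))) +
      (2 * (hh w - hh (w + b))) * (2 * hh (w + b) - hh b - hh (2 * w + b)) / 2 :=
    funext fun w => LamB_Rr_eq w b
  rw [hfun]
  refine hR.congr_deriv ?_
  ring

theorem LS_Rr_b {w b : ℂ} (h : Ds w b) (h' : Ds w (w + b)) :
    HasDerivAt (fun b => Rr w b)
      ((hh b + hh (2 * w + b) - 2 * hh w) * (Real.pi * Complex.cot (Real.pi * (w + b))) +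
      (hh w - hh (w + b)) * (Real.pi * Complex.cot (Real.pi * b)) +
      (hh w - hh (w + b)) * (Real.pi * Complex.cot (Real.pi * (2 * w + b)))) b := by
  have e0 : w + (w + b) = 2 * w + b := by ring
  have o0 := h'.s0
  have o1 := h'.s1'
  rw [e0] at o0 o1
  have d0 := LS_der_b h
  have d1 : HasDerivAt (fun b => hh (w + b)) (Real.pi * Complex.cot (Real.pi * (w + b))) b := by
    have := (LS_der_s h).comp b ((hasDerivAt_id b).const_add w)
    refine this.congr_deriv ?_
    ring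
  have d2 : HasDerivAt (fun b => hh (2 * w + b))
      (Real.pi * Complex.cot (Real.pi * (2 * w + b))) b := by
    have := (hh_hasDerivAt _ o0 o1).comp b ((hasDerivAt_id b).const_add (2 * w))
    refine this.congr_deriv ?_
    ring
  have hf : HasDerivAt (fun b => 2 * (hh w - hh (w + b)))
      (2 * (-(Real.pi * Complex.cot (Real.pi * (w + b))))) b :=
    (d1.const_sub (hh w)).const_mul 2
  have hg : HasDerivAt (fun b => 2 * hh (w + b) - hh b - hh (2 * w + b))
      (2 * (Real.pi * Complex.cot (Real.pi * (w + b))) - Real.pi * Complex.cot (Real.pi * b) -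
        Real.pi * Complex.cot (Real.pi * (2 * w + b))) b :=
    ((d1.const_mul 2).sub d0).sub d2
  have hev : ∀ᶠ x in 𝓝 b, exp (2 * (hh w - hh (w + x))) +
      exp (-(2 * hh (w + x) - hh x - hh (2 * w + x))) = 1 := by
    have hc : ContinuousAt (fun x : ℂ => (w, x)) b := by fun_prop
    filter_upwards [hc.eventually (LS_open2 h h')] with x hx
    exact LS_rel hx.1 hx.2
  have hR := RG_hasDerivAt _ _ _ _ b hf hg hev (LS_im h)
  have hfun : (fun b => Rr w b) = fun b => GG (2 * (hh w - hh (w + b))) +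
      (2 * (hh w - hh (w + b))) * (2 * hh (w + b) - hh b - hh (2 * w + b)) / 2 :=
    funext fun b => LamB_Rr_eq w b
  rw [hfun]
  refine hR.congr_deriv ?_
  ring

theorem LS_step (w b : ℂ) (h : Ds w b) (h' : Ds w (w + b)) :
    Rr w b = Lam w b - Lam w (w + b) := by
  have key := Ds_const' (fun w b => Rr w b - Lam w b + Lam w (w + b)) ?_ ?_ w b h h'
  · -- the constant
    have e1 : (1 / 4 : ℂ) + 1 / 4 = 1 / 2 := by norm_num
    have e2 : 2 * (1 / 4 : ℂ) + 1 / 4 = 3 / 4 := by norm_num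
    have hD : Ds (1 / 4) (1 / 4) := by
      have h14 : (1 / 4 : ℂ) = ((1 / 4 : ℝ) : ℂ) := by push_cast; ring
      rw [h14]
      refine ⟨?_, ?_, ?_⟩ <;> simp only [Complex.ofReal_re] <;> norm_num
    have hr := LS_refl (1 / 4) (1 / 4) hD
    have e3 : (1 : ℂ) - 1 / 4 - 1 / 4 = 1 / 2 := by norm_num
    rw [e3, Lam_diag] at hr
    have h34 : hh (3 / 4) = ((Real.log 2 / 2 : ℝ) : ℂ) := by
      have := hhx_refl (1 / 4)
      rw [show (1 : ℂ) - 1 / 4 = 3 / 4 by norm_num] at this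
      rw [this, LamB_hh_quarter]
    have hRr : Rr (1 / 4) (1 / 4) = (Real.pi : ℂ) ^ 2 / 12 := by
      unfold Rr
      rw [e1, e2, h34, LamB_hh_quarter, LamB_hh_half]
      have e4 : 2 * (((Real.log 2 / 2 : ℝ) : ℂ) - ((Real.log 2 : ℝ) : ℂ)) =
          -((Real.log 2 : ℝ) : ℂ) := by
        push_cast
        ring
      rw [e4, LamB_GG_log2]
      push_cast
      ring
    rw [e1, hRr, Lam_diag] at key
    linear_combination key + hr
  · intro w b h h'
    have h1 := LS_Rr_w h h'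
    have h2 := LS_total h (u := fun w => w) (v := fun _ => b) (hasDerivAt_id w)
      (hasDerivAt_const w b) rfl rfl
    have h3 := LS_total h' (u := fun w => w) (v := fun w => w + b) (hasDerivAt_id w)
      ((hasDerivAt_id w).add_const b) rfl rfl
    refine ((h1.sub h2).add h3).congr_deriv ?_
    unfold LamB_Cw LamB_Cb
    rw [show w + (w + b) = 2 * w + b by ring]
    ring
  · intro w b h h'
    have h1 := LS_Rr_b h h'
    have h2 := LS_total h (u := fun _ => w) (v := fun b => b) (hasDerivAt_const b w)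
      (hasDerivAt_id b) rfl rfl
    have h3 := LS_total h' (u := fun _ => w) (v := fun b => w + b) (hasDerivAt_const b w)
      ((hasDerivAt_id b).const_add w) rfl rfl
    refine ((h1.sub h2).add h3).congr_deriv ?_
    unfold LamB_Cb
    rw [show w + (w + b) = 2 * w + b by ring]
    ring

end Pool.Agent.S3.CV
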