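import Pool.Agent.H63.VC5.OrdTerm
import Pool.Agent.H63.VC5.RogGG
import Pool.Agent.S3.CV.EdgeS

/-!
# Stage 3, complex volume: the layers
-/

namespace Pool.Agent.S3.CV

open Pool.Agent.H63.VC3 Pool.Agent.H63.VC5 Complex Filter Topology
open Pool.Agent.H25.RK (gdv gdv_re_lt gdv_hasDerivAt)
open scoped ComplexConjugate

theorem im_two_mul (x : ℂ) : (2 * x).im = 2 * x.im := by
  rw [show (2 : ℂ) = ((2 : ℝ) : ℂ) by norm_num, im_ofReal_mul]

theorem EQ.d_pos {u w : ℂ} (h : EQ u w) : 0 < (dS u w).im := by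
  have hl := h.q.reg.left
  have hf := h.q.facts
  have h1 : 0 < (Lc u).im := by
    refine lt_of_le_of_ne hf.2.2.1 fun h0 => ?_
    unfold Lc at h0
    rw [log_im] at h0
    have h2 := (Complex.arg_eq_zero_iff.1 h0.symm).2
    rw [cosh_im'] at h2
    have s1 : 0 < Real.sin u.im := Real.sin_pos_of_pos_of_lt_pi h.ui
      (by have := (abs_lt.1 hl).2; linarith [Real.pi_pos])
    have s2 : 0 < Real.sinh u.re := Real.sinh_pos_iff.2 h.ur
    have := mul_pos s2 s1
    linarith
  unfold dS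
  rw [sub_im]
  linarith [hf.2.2.2.1]

/-- The shape of the hinge. -/
noncomputable def zH (u w : ℂ) : ℂ := -exp (-(2 * dS u w))

theorem zH_exp (u w : ℂ) : exp (-(2 * dS u w) + Real.pi * I) = zH u w := by
  unfold zH
  rw [Complex.exp_add, Complex.exp_pi_mul_I, mul_neg_one]

theorem EQ.log_zH {u w : ℂ} (h : EQ u w) :
    Complex.log (zH u w) = -(2 * dS u w) + Real.pi * I := by
  have hd := h.qp.d_im
  have e : (-(2 * dS u w) + Real.pi * I).im = Real.pi - 2 * (dS u w).im := by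
    rw [add_im, neg_im, im_two_mul, im_ofReal_mul, I_im, mul_one]
    ring
  rw [← zH_exp, Complex.log_exp]
  · rw [e]
    linarith [hd.1, hd.2, Real.pi_pos]
  · rw [e]
    linarith [hd.1, hd.2, Real.pi_pos]

theorem EQ.log_one_sub_zH {u w : ℂ} (h : EQ u w) :
    Complex.log (1 - zH u w) = 2 * nS u w := by
  unfold zH
  rw [sub_neg_eq_add, h.qp.n2]

theorem EQ.zH_im {u w : ℂ} (h : EQ u w) : 0 < (zH u w).im := by
  have h1 := h.d_pos
  have hd := h.qp.d_im
  unfold zH
  rw [neg_im, exp_im, neg_im, im_two_mul, Real.sin_neg, mul_neg, neg_neg]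
  apply mul_pos (Real.exp_pos _)
  apply Real.sin_pos_of_pos_of_lt_pi
  · linarith
  · linarith [hd.2]

/-- The layer of a hinge. -/
theorem EQ.hinge {u w : ℂ} (h : EQ u w) (p q : ℤ) :
    2 * rogers (zH u w) p q = 2 * XS u w + 2 * Real.pi * I * nS u w +
      Real.pi * I * (2 * p * nS u w + q * (-(2 * dS u w) + Real.pi * I)) -
        (Real.pi : ℂ) ^ 2 / 3 := by
  unfold rogers
  rw [h.log_zH, h.log_one_sub_zH]
  unfold XS zH
  ring

theorem LayS_rel {w b : ℂ} (h : Ds w b) (h' : Ds w (w + b)) :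
    exp (-(2 * hh (w + b) - hh b - hh (2 * w + b))) = 1 - exp (2 * (hh w - hh (w + b))) := by
  have := LS_rel h h'
  linear_combination this

/-- The layers of a fan. -/
theorem fanS (l : Bool) {w b : ℂ} (h : Ds w b) (h' : Ds w (w + b)) {z : ℂ}
    (hz : z = if l then exp (2 * (hh w - hh (w + b))) else exp (-(2 * (hh w - hh (w + b)))))
    (him : 0 < z.im) {LP l0 l1 l2 N : ℂ} {m mk m0 : ℤ} (hP : LP = N + Real.pi * I / 2 * m)
    (h1 : l1 = N + (hh (w + b) - hh w) + Real.pi * I / 2 * mk)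
    (h0 : l0 = N + (hh b - hh w) + Real.pi * I / 2 * m0)
    (h2 : l2 = N + (hh (2 * w + b) - hh w) + Real.pi * I / 2 * m0) :
    ∃ P Q : ℤ, Complex.log z + P * (Real.pi * I) =
        2 * (if l then LP else l1) - 2 * (if l then l1 else LP) ∧
      -Complex.log (1 - z) + Q * (Real.pi * I) = 2 * (if l then l1 else LP) - l0 - l2 ∧
      Cg (2 * rogers z P Q) ((if l then (1 : ℂ) else -1) * (2 * (Lam w b - Lam w (w + b)) -
        (Real.pi : ℂ) ^ 2 / 3 + Real.pi * I * (((mk : ℂ) - m0) * (2 * (hh w - hh (w + b))) -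
          ((m : ℂ) - mk) * (2 * hh (w + b) - hh b - hh (2 * w + b))))) := by
  have hexp := LayS_rel h h'
  have hW := LS_im h
  have hR : GG (2 * (hh w - hh (w + b))) + 2 * (hh w - hh (w + b)) *
      (2 * hh (w + b) - hh b - hh (2 * w + b)) / 2 = Lam w b - Lam w (w + b) := by
    rw [← LS_step w b h h', Rr]
    ring
  set W0 : ℂ := 2 * (hh w - hh (w + b)) with hW0
  set W1 : ℂ := 2 * hh (w + b) - hh b - hh (2 * w + b) with hW1
  cases l with
  | true =>
    simp only [if_true] at hz ⊢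
    have hzi : (exp W0).im ≠ 0 := by rw [← hz]; exact him.ne'
    obtain ⟨M, hM⟩ := RogGG_even0 _ W0 hzi rfl
    obtain ⟨n, hn⟩ := RogGG_even1 _ W1 hzi hexp
    have e1 : Complex.log (exp W0) + ((2 * M + (m - mk) : ℤ) : ℂ) * (Real.pi * I) =
        W0 + ((m - mk : ℤ) : ℂ) * (Real.pi * I) := by
      push_cast
      linear_combination -hM
    have e2 : -Complex.log (1 - exp W0) + ((2 * n + (mk - m0) : ℤ) : ℂ) * (Real.pi * I) =
        W1 + ((mk - m0 : ℤ) : ℂ) * (Real.pi * I) := by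
      push_cast
      linear_combination -hn
    have key := rogers_GG (exp W0) W0 W1 hzi rfl hexp hW _ _ (m - mk) (mk - m0) e1 e2
    refine ⟨2 * M + (m - mk), 2 * n + (mk - m0), ?_, ?_, ?_⟩
    · rw [hz, e1, hP, h1, hW0]
      push_cast
      ring
    · rw [hz, e2, h1, h0, h2, hW1]
      push_cast
      ring
    · rw [hz]
      refine key.trans (Cg.of_eq ?_)
      rw [hR]
      push_cast
      ring
  | false =>
    simp only [Bool.false_eq_true, if_false] at hz ⊢
    have hz' : z = (exp W0)⁻¹ := by rw [hz, Complex.exp_neg]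
    have hzi : (exp W0).im ≠ 0 := by
      intro h00
      rw [hz', Complex.inv_im, h00] at him
      simp at him
    obtain ⟨M, hM⟩ := RogGG_even0 _ W0 hzi rfl
    obtain ⟨n, hn⟩ := RogGG_even1 _ W1 hzi hexp
    have e1 : Complex.log (exp W0) + ((2 * M + (m - mk) : ℤ) : ℂ) * (Real.pi * I) =
        W0 + ((m - mk : ℤ) : ℂ) * (Real.pi * I) := by
      push_cast
      linear_combination -hM
    have e2 : -Complex.log (1 - exp W0) + ((2 * n + (mk - m0) : ℤ) : ℂ) * (Real.pi * I) =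
        W1 + ((mk - m0 : ℤ) : ℂ) * (Real.pi * I) := by
      push_cast
      linear_combination -hn
    obtain ⟨P, Q, ⟨f1, f2⟩, -⟩ := OrdTerm_inv hzi ⟨e1, e2⟩
    have key := rogers_inv_GG (exp W0) W0 W1 hzi rfl hexp hW P Q (m - mk) (mk - m0) f1 f2
    refine ⟨P, Q, ?_, ?_, ?_⟩
    · rw [hz', f1, hP, h1, hW0]
      push_cast
      ring
    · rw [hz', f2, hP, h0, h2, hW0, hW1]
      push_cast
      ring
    · rw [hz']
      refine key.trans (Cg.of_eq ?_)
      rw [hR]
      push_cast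
      ring

end Pool.Agent.S3.CV
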