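import Pool.Agent.S3.CV.LamS
import Pool.Agent.S3.Bridge
import Pool.Agent.H63.VC5.SlotC

/-!
# Stage 3, complex volume: the identity of a slot

In the coordinates `(u, w)` of an edge: `v = gdv u`, `y = yy u w`, `b = -i q(u, w) / π`,
`δ = log cosh u - log cosh w`, `η = -log cosh u - log cos (π y)`.
-/

namespace Pool.Agent.S3.CV

open Pool.Agent.H63.VC3 Pool.Agent.H63.VC5 Complex Filter Topology
open Pool.Agent.H63.VC4 (bet)
open Pool.Agent.H25.RK (gdv gdv_re_lt gdv_hasDerivAt)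
open scoped ComplexConjugate

/-- The open quadrant. -/
structure QP (u w : ℂ) : Prop where
  q : QO u w
  ur : 0 < u.re
  ui : 0 < u.im

/-- The variable of the slot. -/
noncomputable def bS (u w : ℂ) : ℂ := -(I * qq u w) / Real.pi

/-- The logarithm of the ratio of the pivots. -/
noncomputable def dS (u w : ℂ) : ℂ := Lc u - Lc w

/-- Half of `log (1 + e^{-2 δ})`. -/
noncomputable def nS (u w : ℂ) : ℂ := -Lc u - lcy u w

/-- The dilogarithm of the hinge. -/
noncomputable def XS (u w : ℂ) : ℂ := dilog (-exp (-(2 * dS u w))) - 2 * (dS u w * nS u w)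

/-- The two sides of the identity of a slot. -/
noncomputable def SlA (F G : ℂ → ℂ) (u w : ℂ) : ℂ :=
  2 * Lam (gdv u) (bS u w) + Real.pi * I * (hh (gdv u + bS u w) - hh (gdv u)) +
    2 * Real.pi * I * (F (yy u w - gdv u) + G (yy u w + gdv u)) -
    4 * Real.pi * I * ff (yy u w + 1 / 2) + Real.pi * I * ((2 * yy u w - 1) * dS u w) +
    XS u w - (Real.pi : ℂ) ^ 2 / 2 + 2 * (Real.pi : ℂ) ^ 2 * (gdv u * bS u w)

theorem pi_bS (u w : ℂ) : (Real.pi : ℂ) * bS u w = -(I * qq u w) := by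
  have hpi : (Real.pi : ℂ) ≠ 0 := by exact_mod_cast Real.pi_ne_zero
  unfold bS
  field_simp

theorem sin_bS (u w : ℂ) : sin (Real.pi * bS u w) = -(I * sinh (qq u w)) := by
  rw [pi_bS, Complex.sin_neg, mul_comm I, Complex.sin_mul_I, mul_comm]

theorem cos_bS (u w : ℂ) : cos (Real.pi * bS u w) = cosh (qq u w) := by
  rw [pi_bS, Complex.cos_neg, mul_comm I, Complex.cos_mul_I]

theorem bS_re (u w : ℂ) : (bS u w).re = (qq u w).im / Real.pi := by
  unfold bS
  rw [Complex.div_ofReal_re]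
  simp

theorem im_div_pos {a b : ℂ} (hb : b ≠ 0) (h : 0 < a.im * b.re - a.re * b.im) :
    0 < (a / b).im := by
  rw [Complex.div_im, ← sub_div]
  exact div_pos h (Complex.normSq_pos.2 hb)

theorem QP.qpos {u w : ℂ} (h : QP u w) : 0 < (qq u w).im ∧ (qq u w).im < Real.pi / 2 := by
  have f := h.q.facts
  have hl := h.q.reg.left
  have hr := h.q.reg.right
  have hw := cosh_ne hr
  refine ⟨lt_of_le_of_ne f.1 fun h0 => ?_, f.2.1⟩
  have h1 := congrArg Complex.im (sinh_qq u w)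
  rw [sinh_im', ← h0, Real.sin_zero, mul_zero] at h1
  have h2 : 0 < (sinh u / cosh w).im := by
    apply im_div_pos hw
    rw [sinh_re', sinh_im', cosh_re', cosh_im']
    have c1 := cos_pos' hl
    have c2 := cos_pos' hr
    have s1 : 0 < Real.sin u.im := Real.sin_pos_of_pos_of_lt_pi h.ui
      (by have := (abs_lt.1 hl).2; linarith only [this, f.2.1, f.1])
    have s2 : Real.sin w.im ≤ 0 := by
      apply Real.sin_nonpos_of_nonpos_of_neg_pi_le h.q.wi
      have := (abs_lt.1 hr).1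
      linarith only [this, f.2.1, f.1]
    have s3 : 0 < Real.sinh u.re := Real.sinh_pos_iff.2 h.ur
    have s4 : 0 ≤ Real.sinh w.re := Real.sinh_nonneg_iff.2 h.q.wr
    have c3 := Real.cosh_pos u.re
    have c4 := Real.cosh_pos w.re
    have p1 : 0 < Real.cosh u.re * Real.sin u.im * (Real.cosh w.re * Real.cos w.im) := by
      positivity
    have p2 : Real.sinh u.re * Real.cos u.im * (Real.sinh w.re * Real.sin w.im) ≤ 0 := by
      have : 0 ≤ Real.sinh u.re * Real.cos u.im := by positivity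
      exact mul_nonpos_of_nonneg_of_nonpos this (mul_nonpos_of_nonneg_of_nonpos s4 s2)
    linarith only [p2, p1]
  linarith only [h2, h1]

theorem gdv_re_pos {u : ℂ} (h : |u.im| < Real.pi / 2) (h0 : 0 < u.re) : 0 < (gdv u).re := by
  have h1 := gd_re_pos h0 h
  rw [UU_eta, gd_eq h, re_ofReal_mul] at h1
  exact (pos_iff_pos_of_mul_pos h1).1 Real.pi_pos

theorem QP.ds {u w : ℂ} (h : QP u w) : Ds (gdv u) (bS u w) := by
  have hpi := Real.pi_pos
  have h1 := gdv_re_pos h.q.reg.left h.ur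
  have h2 := (abs_lt.1 (gdv_re_lt h.q.reg.left)).2
  have h3 := h.qpos
  have h4 : (bS u w).re < 1 / 2 := by
    rw [bS_re, div_lt_iff₀ hpi]
    linarith only [h3.2]
  refine ⟨h1, ?_, by linarith only [h4, h2]⟩
  rw [bS_re]
  exact div_pos h3.1 hpi

theorem exp_neg_half : exp (-(Real.pi * I / 2)) = -I := by
  rw [show -((Real.pi : ℂ) * I / 2) = -(Real.pi / 2 * I) by ring, Complex.exp_neg,
    Complex.exp_pi_div_two_mul_I, inv_I]

theorem sinh_ne_of {u w : ℂ} (hr : Reg u w) (hd : Ds (gdv u) (bS u w)) : sinh u ≠ 0 := by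
  intro h0
  have h1 := LS_sin_ne hd.w0 hd.w1
  rw [sin_pi_gdv hr.left, tanh_eq_sinh_div_cosh, h0, zero_div] at h1
  exact h1 rfl

theorem exp_e0 {u w : ℂ} (hr : Reg u w) (hd : Ds (gdv u) (bS u w)) :
    exp (hh (bS u w) - hh (gdv u)) = exp (dS u w - Real.pi * I / 2) := by
  have hu := cosh_ne hr.left
  have hw := cosh_ne hr.right
  have hs := sinh_ne_of hr hd
  rw [Complex.exp_sub, LS_exp_b hd, LS_exp_w hd, sin_bS, sin_pi_gdv hr.left, sinh_qq,
    sub_eq_add_neg (dS u w), Complex.exp_add, exp_neg_half, dS, Complex.exp_sub, exp_Lc hr.left,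
    exp_Lc hr.right, tanh_eq_sinh_div_cosh]
  field_simp

theorem exp_e1 {u w : ℂ} (hr : Reg u w) (hd : Ds (gdv u) (bS u w)) :
    exp (hh (gdv u + bS u w) - hh (gdv u)) =
      exp (nS u w + dS u w - Real.pi * I / 2 + Real.pi * I * yy u w) := by
  have hu := cosh_ne hr.left
  have hw := cosh_ne hr.right
  have hs := sinh_ne_of hr hd
  have hc := cos_yy_ne hr
  have e1 : nS u w + dS u w - Real.pi * I / 2 + Real.pi * I * yy u w =
      -(Real.pi * I / 2) + (Real.pi * yy u w) * I - (lcy u w + Lc w) := by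
    unfold nS dS
    ring
  rw [e1, Complex.exp_sub, Complex.exp_sub, Complex.exp_add, exp_neg_half, Complex.exp_add,
    exp_lcy hr, exp_Lc hr.right, LS_exp_s hd, LS_exp_w hd, mul_add, Complex.sin_add, sin_bS,
    cos_bS, sin_pi_gdv hr.left, cos_pi_gdv hr.left, sinh_qq, cosh_qq hr, Complex.exp_mul_I,
    sin_yy hr, tanh_eq_sinh_div_cosh]
  field_simp
  linear_combination (TT u w) * I_sq

theorem exp_n2 {u w : ℂ} (hr : Reg u w) : exp (2 * nS u w) = 1 + exp (-(2 * dS u w)) := by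
  have hu := cosh_ne hr.left
  have hw := cosh_ne hr.right
  have hc := cos_yy_ne hr
  have h1 := cos_yy_sq hr
  have e1 : exp (2 * nS u w) = (exp (Lc u) ^ 2 * exp (lcy u w) ^ 2)⁻¹ := by
    rw [← Complex.exp_nat_mul, ← Complex.exp_nat_mul, ← Complex.exp_add, ← Complex.exp_neg]
    congr 1
    unfold nS
    push_cast
    ring
  have e2 : exp (-(2 * dS u w)) = exp (Lc w) ^ 2 / exp (Lc u) ^ 2 := by
    rw [← Complex.exp_nat_mul, ← Complex.exp_nat_mul, ← Complex.exp_sub]
    congr 1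
    unfold dS
    push_cast
    ring
  rw [e1, e2, exp_Lc hr.left, exp_Lc hr.right, exp_lcy hr]
  rw [inv_eq_one_div, div_eq_iff (mul_ne_zero (pow_ne_zero _ hu) (pow_ne_zero _ hc))]
  field_simp
  linear_combination -h1

theorem half_im (x : ℂ) : (x - Real.pi * I / 2).im = x.im - Real.pi / 2 := by
  rw [sub_im]
  congr 1
  rw [show (Real.pi : ℂ) * I / 2 = ((Real.pi / 2 : ℝ) : ℂ) * I by push_cast; ring, im_ofReal_mul,
    I_im, mul_one]

section exact

variable {u w : ℂ} (h : QP u w)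
include h

theorem QP.d_im : 0 ≤ (dS u w).im ∧ (dS u w).im < Real.pi / 2 := by
  obtain ⟨h1, h2, h3, h4, h5, h6, h7⟩ := h.q.facts
  unfold dS
  rw [sub_im]
  constructor <;> linarith

theorem QP.n_im : -(dS u w).im ≤ (nS u w).im ∧ (nS u w).im ≤ 0 := by
  obtain ⟨h1, h2, h3, h4, h5, h6, h7⟩ := h.q.facts
  unfold dS nS
  rw [sub_im, sub_im, neg_im]
  constructor <;> linarith

/-- `log (sin (π b) / sin (π v)) = δ - π i / 2`. -/
theorem QP.e0 : hh (bS u w) - hh (gdv u) = dS u w - Real.pi * I / 2 := by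
  have hpi := Real.pi_pos
  have hd := h.ds
  apply log_unique (exp_e0 h.q.reg hd)
  have i1 := abs_lt.1 (hh_im_lt hd.b0 hd.b1)
  have i2 := abs_lt.1 (hh_im_lt hd.w0 hd.w1)
  have i3 := h.d_im
  rw [half_im, sub_im, abs_lt]
  constructor <;> linarith [i1.1, i1.2, i2.1, i2.2, i3.1, i3.2]

/-- `log (sin (π (v + b)) / sin (π v)) = η + δ - π i / 2 + π i y`. -/
theorem QP.e1 : hh (gdv u + bS u w) - hh (gdv u) =
    nS u w + dS u w - Real.pi * I / 2 + Real.pi * I * yy u w := by
  have hpi := Real.pi_pos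
  have hd := h.ds
  apply log_unique (exp_e1 h.q.reg hd)
  have i1 := abs_lt.1 (hh_im_lt hd.s0 hd.s1')
  have i2 := abs_lt.1 (hh_im_lt hd.w0 hd.w1)
  have i3 := h.d_im
  have i4 := h.n_im
  have y0 := yy_re_pos h.q.reg
  have y1 := yy_re_lt h.q.reg
  have e : (Real.pi * I * yy u w).im = Real.pi * (yy u w).re := by
    rw [mul_assoc, im_ofReal_mul]
    simp
  have p1 : 0 < Real.pi * (yy u w).re := by positivity
  have p2 : Real.pi * (yy u w).re < Real.pi * (1 / 2) := mul_lt_mul_of_pos_left y1 hpi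
  rw [sub_im, add_im, e, half_im, add_im, abs_lt]
  constructor <;> linarith [i1.1, i1.2, i2.1, i2.2, i3.1, i3.2, i4.1, i4.2]

/-- `log (1 + e^{-2 δ}) = 2 η`. -/
theorem QP.n2 : Complex.log (1 + exp (-(2 * dS u w))) = 2 * nS u w := by
  have hpi := Real.pi_pos
  have i3 := h.d_im
  have i4 := h.n_im
  rw [← exp_n2 h.q.reg, Complex.log_exp]
  · rw [show (2 : ℂ) = ((2 : ℝ) : ℂ) by norm_num, im_ofReal_mul]
    linarith only [i4.1, i3.2]
  · rw [show (2 : ℂ) = ((2 : ℝ) : ℂ) by norm_num, im_ofReal_mul]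
    linarith only [i4.2, hpi]

end exact

/-! ### The derivative -/

theorem LS_fderiv {w b : ℂ} (h : Ds w b) : HasStrictFDerivAt (fun p : ℂ × ℂ => Lam p.1 p.2)
    ((ContinuousLinearMap.toSpanSingleton ℂ (LamB_Cw w b)).coprod
      (ContinuousLinearMap.toSpanSingleton ℂ (LamB_Cb w b))) (w, b) := by
  refine hasStrictFDerivAt_uncurry_coprod (u := (w, b)) (f := Lam)
    (f₁ := fun x y => ContinuousLinearMap.toSpanSingleton ℂ (LamB_Cw x y))
    (f₂ := fun x y => ContinuousLinearMap.toSpanSingleton ℂ (LamB_Cb x y)) ?_ ?_ ?_ ?_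
  · filter_upwards [LS_open h] with p hp
    exact (LS_w p.1 p.2 hp).hasFDerivAt
  · filter_upwards [LS_open h] with p hp
    exact (LS_b p.1 p.2 hp).hasFDerivAt
  · have h1 := LS_Cw_cont h
    have h2 : Continuous fun c : ℂ => ContinuousLinearMap.toSpanSingleton ℂ c :=
      (ContinuousLinearMap.toSpanSingletonCLE (𝕜 := ℂ) (E := ℂ)).continuous
    exact h2.continuousAt.comp h1
  · have h1 := LS_Cb_cont h
    have h2 : Continuous fun c : ℂ => ContinuousLinearMap.toSpanSingleton ℂ c :=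
      (ContinuousLinearMap.toSpanSingletonCLE (𝕜 := ℂ) (E := ℂ)).continuous
    exact h2.continuousAt.comp h1

theorem LS_totalR {u v : ℝ → ℂ} {t : ℝ} {u' v' : ℂ} (h : Ds (u t) (v t))
    (hu : HasDerivAt u u' t) (hv : HasDerivAt v v' t) :
    HasDerivAt (fun t => Lam (u t) (v t))
      (LamB_Cw (u t) (v t) * u' + LamB_Cb (u t) (v t) * v') t := by
  have h1 := ((LS_fderiv h).hasFDerivAt.restrictScalars ℝ).comp_hasDerivAt t (hu.prodMk hv)
  refine h1.congr_deriv ?_
  simp [mul_comm]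

theorem exp_deriv_eq {f g : ℝ → ℂ} {f' g' : ℂ} {t : ℝ} (hf : HasDerivAt f f' t)
    (hg : HasDerivAt g g' t) (he : ∀ᶠ x in 𝓝 t, exp (f x) = exp (g x)) : f' = g' := by
  have h1 := hf.cexp
  have h2 := hg.cexp
  have h3 := h2.congr_of_eventuallyEq he
  have h4 := h1.unique h3
  rw [← he.self_of_nhds] at h4
  exact mul_left_cancel₀ (Complex.exp_ne_zero _) h4

theorem Reg_open {u w : ℝ → ℂ} {t : ℝ} (h : Reg (u t) (w t)) (hu : ContinuousAt u t)
    (hw : ContinuousAt w t) : ∀ᶠ x in 𝓝 t, Reg (u x) (w x) := by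
  have hc : ContinuousAt (fun x => |(u x).im| + |(w x).im|) t :=
    ((Complex.continuous_im.continuousAt.comp hu).abs).add
      ((Complex.continuous_im.continuousAt.comp hw).abs)
  exact hc.eventually_lt_const h

/-- The identity of a slot does not depend on the point. -/
theorem SlotS_deriv {u w : ℝ → ℂ} {u' w' : ℂ} {t : ℝ} (h : QP (u t) (w t))
    (hu : HasDerivAt u u' t) (hw : HasDerivAt w w' t) :
    HasDerivAt (fun t => SlA fL fe (u t) (w t)) 0 t := by
  have hr := h.q.reg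
  have hD := h.ds
  have hpi : (Real.pi : ℂ) ≠ 0 := by exact_mod_cast Real.pi_ne_zero
  obtain ⟨y', hy⟩ := yy_curve hr hu hw
  have hv := HasDerivAt.scomp (g₁ := gdv) (h := u) t (gdv_hasDerivAt hr.left) hu
  set v' := u' • (1 / ((Real.pi : ℂ) * cosh (u t))) with hv'
  have hb := ((hasDerivAt_qq hr hu hw).const_mul I).neg.div_const (Real.pi : ℂ)
  set b' := -(I * ((u' * cosh (u t) * cosh (w t) - w' * sinh (u t) * sinh (w t))
        / (cosh (w t) * TT (u t) (w t)))) / (Real.pi : ℂ) with hb'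
  have hb2 : HasDerivAt (fun t => bS (u t) (w t)) b' t := hb
  obtain ⟨l', hl⟩ : ∃ l', HasDerivAt (fun t => lcy (u t) (w t)) l' t := by
    have h1 := HasDerivAt.scomp (g₁ := cos) (h := fun t => (Real.pi : ℂ) * yy (u t) (w t)) t
      (Complex.hasDerivAt_cos _) (hy.const_mul (Real.pi : ℂ))
    exact ⟨_, h1.clog_real (mem_slitPlane_iff.2 (Or.inl (cos_yy_re_pos hr)))⟩
  have hLu := HasDerivAt.scomp (g₁ := Lc) (h := u) t (hasDerivAt_Lc hr.left) hu
  have hLw := HasDerivAt.scomp (g₁ := Lc) (h := w) t (hasDerivAt_Lc hr.right) hw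
  have hd := hLu.sub hLw
  have hn := hLu.neg.sub hl
  set d' := u' • tanh (u t) - w' • tanh (w t) with hd'
  set n' := -(u' • tanh (u t)) - l' with hn'
  have hd2 : HasDerivAt (fun t => dS (u t) (w t)) d' t := hd
  have hn2 : HasDerivAt (fun t => nS (u t) (w t)) n' t := hn
  -- the derivatives of the logarithms
  have cv := HasDerivAt.scomp (g₁ := hh) (h := fun t => gdv (u t)) t (LS_der_w hD) hv
  have cb := HasDerivAt.scomp (g₁ := hh) (h := fun t => bS (u t) (w t)) t (LS_der_b hD) hb2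
  have cs := HasDerivAt.scomp (g₁ := hh) (h := fun t => gdv (u t) + bS (u t) (w t)) t
    (LS_der_s hD) (hv.add hb2)
  have hreg := Reg_open hr hu.continuousAt hw.continuousAt
  have hds : ∀ᶠ x in 𝓝 t, Ds (gdv (u x)) (bS (u x) (w x)) := by
    have hc : ContinuousAt (fun x => (gdv (u x), bS (u x) (w x))) t :=
      hv.continuousAt.prodMk hb2.continuousAt
    exact hc.eventually (LS_open hD)
  have E0 := exp_deriv_eq (cb.sub cv) (hd2.sub_const ((Real.pi : ℂ) * I / 2)) (by
    filter_upwards [hreg, hds] with x x1 x2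
    exact exp_e0 x1 x2)
  have E1 := exp_deriv_eq (cs.sub cv)
    (((hn2.add hd2).sub_const ((Real.pi : ℂ) * I / 2)).add (hy.const_mul ((Real.pi : ℂ) * I))) (by
    filter_upwards [hreg, hds] with x x1 x2
    exact exp_e1 x1 x2)
  simp only [smul_eq_mul] at E0 E1
  -- the functions
  have dL := h.q.dL
  have dE := h.q.dE
  have hF := HasDerivAt.scomp (g₁ := fL) (h := fun t => yy (u t) (w t) - gdv (u t)) t
    (fL_hasDerivAt dL.1) (hy.sub hv)
  rw [dL.2] at hF
  have hG := HasDerivAt.scomp (g₁ := fe) (h := fun t => yy (u t) (w t) + gdv (u t)) t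
    (fe_hasDerivAt dE.1) (hy.add hv)
  rw [dE.2] at hG
  have l0 : HasDerivAt ff (hh (yy (u t) (w t) + 1 / 2)) (yy (u t) (w t) + 1 / 2) := by
    have y0 := yy_re_pos hr
    have y1 := yy_re_lt hr
    apply ff_hasDerivAt
    · rw [add_re]; norm_num; linarith only [y0]
    · rw [add_re]; norm_num; linarith only [y1]
  have hf := HasDerivAt.scomp (g₁ := ff) (h := fun t => yy (u t) (w t) + 1 / 2) t l0
    (hy.add_const (1 / 2))
  rw [hh_half hr] at hf
  have hX := HasDerivAt.scomp (g₁ := dilog) (h := fun t => -exp (-(2 * dS (u t) (w t)))) t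
    (dilog_hasDerivAt (-exp (-(2 * dS (u t) (w t)))) (neg_ne_zero.2 (Complex.exp_ne_zero _)) (by
      rw [sub_neg_eq_add, ← exp_n2 hr]
      refine mem_slitPlane_iff_arg.2 ⟨?_, Complex.exp_ne_zero _⟩
      rw [exp_n2 hr]
      intro h0
      have h1 := congrArg Complex.im h.n2
      rw [Complex.log_im, h0, show (2 : ℂ) = ((2 : ℝ) : ℂ) by norm_num, im_ofReal_mul] at h1
      have i3 := h.d_im
      have i4 := h.n_im
      linarith only [i4.2, i3.2, i3.1, h1])) ((hd2.const_mul 2).neg.cexp.neg)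
  rw [sub_neg_eq_add, h.n2] at hX
  have hL := LS_totalR hD hv hb2
  have total := (((((((hL.const_mul 2).add ((cs.sub cv).const_mul ((Real.pi : ℂ) * I))).add
    ((hF.add hG).const_mul (2 * Real.pi * I : ℂ))).sub (hf.const_mul (4 * Real.pi * I : ℂ))).add
    ((((hy.const_mul 2).sub_const 1).mul hd2).const_mul (Real.pi * I : ℂ))).add
    (hX.sub ((hd2.mul hn2).const_mul 2))).sub_const ((Real.pi : ℂ) ^ 2 / 2)).add
    ((hv.mul hb2).const_mul (2 * (Real.pi : ℂ) ^ 2))
  refine total.congr_deriv ?_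
  have hE := Complex.exp_ne_zero (-(2 * dS (u t) (w t)))
  have hX' : -(exp (-(2 * dS (u t) (w t))) * -(2 * d')) *
      -(2 * nS (u t) (w t) / -exp (-(2 * dS (u t) (w t)))) = 4 * nS (u t) (w t) * d' := by
    field_simp
    ring
  have hq : qq (u t) (w t) = Real.pi * I * bS (u t) (w t) := by
    have := pi_bS (u t) (w t)
    linear_combination -I * this + qq (u t) (w t) * I_sq
  have e0 := h.e0
  have e1 := h.e1
  simp only [smul_eq_mul, Function.comp_apply, Pi.neg_apply]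
  unfold Lm Lp LamB_Cw LamB_Cb
  have hD2 : dS (u t) (w t) = Lc (u t) - Lc (w t) := rfl
  linear_combination (2 * (hh (bS (u t) (w t)) - hh (gdv (u t))) + Real.pi * I) * E1 -
    2 * (hh (gdv (u t) + bS (u t) (w t)) - hh (gdv (u t))) * E0 +
    2 * (n' + d' + Real.pi * I * y') * e0 - 2 * d' * e1 +
    4 * Real.pi * I * v' * hq + (4 * (Real.pi : ℂ) ^ 2 * v' * bS (u t) (w t)) * I_sq + hX' +
    4 * Real.pi * I * y' * hD2

/-! ### The constant -/

theorem SlotS_cvx {x y s : ℝ} (hs0 : 0 ≤ s) (hs1 : s ≤ 1) (hx : 0 < x) (hy : 0 < y) :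
    0 < x + s * (y - x) := by
  rcases hs1.eq_or_lt with h | h
  · rw [h]; linarith only [hy]
  · have h1 := mul_pos (sub_pos.2 h) hx
    have h2 := mul_nonneg hs0 hy.le
    linarith only [h2, h1]

theorem QP.seg {u w u' w' : ℂ} (h : QP u w) (h' : QP u' w') {s : ℝ} (hs0 : 0 ≤ s)
    (hs1 : s ≤ 1) : QP (u + s * (u' - u)) (w + s * (w' - w)) := by
  have hs2 : 0 ≤ 1 - s := by linarith only [hs1]
  have e1 : ∀ a a' : ℂ, (a + s * (a' - a)).re = a.re + s * (a'.re - a.re) := fun a a' => by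
    rw [add_re, re_ofReal_mul, sub_re]
  have e2 : ∀ a a' : ℂ, (a + s * (a' - a)).im = a.im + s * (a'.im - a.im) := fun a a' => by
    rw [add_im, im_ofReal_mul, sub_im]
  have r1 : u.im + -w.im < Real.pi / 2 := by
    have := h.q.reg
    unfold Reg at this
    rwa [abs_of_nonneg h.q.ui, abs_of_nonpos h.q.wi] at this
  have r2 : u'.im + -w'.im < Real.pi / 2 := by
    have := h'.q.reg
    unfold Reg at this
    rwa [abs_of_nonneg h'.q.ui, abs_of_nonpos h'.q.wi] at this
  have ur := SlotS_cvx hs0 hs1 h.ur h'.ur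
  have ui := SlotS_cvx hs0 hs1 h.ui h'.ui
  have wr : 0 ≤ w.re + s * (w'.re - w.re) := by
    have k1 := mul_nonneg hs2 h.q.wr
    have k2 := mul_nonneg hs0 h'.q.wr
    linarith only [k2, k1]
  have wi : w.im + s * (w'.im - w.im) ≤ 0 := by
    have k1 := mul_nonpos_of_nonneg_of_nonpos hs2 h.q.wi
    have k2 := mul_nonpos_of_nonneg_of_nonpos hs0 h'.q.wi
    linarith only [k2, k1]
  have rr := SlotS_cvx hs0 hs1 (sub_pos.2 r1) (sub_pos.2 r2)
  refine ⟨⟨?_, ?_, ?_, ?_, ?_⟩, ?_, ?_⟩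
  · unfold Reg
    rw [e2, e2, abs_of_pos ui, abs_of_nonpos wi]
    linarith only [rr]
  · rw [e1]; exact ur.le
  · rw [e1]; exact wr
  · rw [e2]; exact ui.le
  · rw [e2]; exact wi
  · rw [e1]; exact ur
  · rw [e2]; exact ui

theorem SlotS_const {u w u' w' : ℂ} (h : QP u w) (h' : QP u' w') :
    SlA fL fe u' w' = SlA fL fe u w := by
  have k := const_of_ray (g := fun s : ℝ =>
    SlA fL fe (u + (s : ℂ) * (u' - u)) (w + (s : ℂ) * (w' - w))) (by
      intro s hs
      exact SlotS_deriv (u := fun s : ℝ => u + (s : ℂ) * (u' - u))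
        (w := fun s : ℝ => w + (s : ℂ) * (w' - w)) (h.seg h' hs.1 hs.2)
        ((hasDerivAt_ray (u' - u) s).const_add u) ((hasDerivAt_ray (w' - w) s).const_add w))
  simp only [ofReal_one, one_mul, ofReal_zero, zero_mul, add_zero, add_sub_cancel] at k
  exact k

theorem yy00 : yy 0 0 = 1 / 4 := by
  have hpi := Real.pi_pos
  have hpi' : (Real.pi : ℂ) ≠ 0 := by exact_mod_cast Real.pi_ne_zero
  have h1 := sin_yy reg0
  have hT : TT 0 0 = 1 := by simp [TT, Lc]
  rw [hT, one_mul] at h1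
  have h2 : sin (Real.pi * (yy 0 0 - 1 / 4)) = 0 := by
    have e : (Real.pi : ℂ) * (yy 0 0 - 1 / 4) = Real.pi * yy 0 0 - ((Real.pi / 4 : ℝ) : ℂ) := by
      push_cast
      ring
    rw [e, Complex.sin_sub, h1, ← Complex.ofReal_cos, ← Complex.ofReal_sin, Real.cos_pi_div_four,
      Real.sin_pi_div_four]
    ring
  obtain ⟨k, hk⟩ := Complex.sin_eq_zero_iff.1 h2
  have h3 : yy 0 0 = 1 / 4 + k := by
    apply mul_left_cancel₀ hpi'
    linear_combination hk
  have h4 := yy_re_pos reg0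
  have h5 := yy_re_lt reg0
  have h6 : ((1 : ℂ) / 4 + k).re = 1 / 4 + k := by
    rw [add_re]
    norm_num
  rw [h3, h6] at h4 h5
  have k1 : (-1 : ℝ) < k := by linarith only [h4]
  have k2 : (k : ℝ) < 1 := by linarith only [h5]
  have k1' : -1 < k := by exact_mod_cast k1
  have k2' : k < 1 := by exact_mod_cast k2
  have k3 : k = 0 := by omega
  rw [h3, k3]
  simp

theorem qq_zero_right {u : ℂ} (h : |u.im| < Real.pi / 2) : qq u 0 = u := by
  unfold qq
  rw [cosh_zero, div_one]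
  exact (eq_arsh rfl h).symm

theorem hh_gdv_half {u : ℂ} (h : |u.im| < Real.pi / 2) :
    hh (gdv u + 1 / 2) = Real.log 2 - Lc u := by
  have h1 := lt_of_le_of_lt (Lc_im_abs h) h
  rw [hh, mul_add, show (Real.pi : ℂ) * (1 / 2) = (Real.pi : ℂ) / 2 by ring,
    Complex.sin_add_pi_div_two, cos_pi_gdv h, ← exp_Lc h, one_div, ← Complex.exp_neg,
    ← exp_log_two, ← Complex.exp_add, log_exp]
  · ring
  · have := (abs_lt.1 h1).1
    rw [add_im, ofReal_im, neg_im]
    linarith only [(abs_lt.1 h1).2, Real.pi_pos]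
  · rw [add_im, ofReal_im, neg_im]
    linarith only [(abs_lt.1 h1).1, Real.pi_pos]

theorem SlotS_near : ∃ r : ℝ, 0 < r ∧ ∀ u : ℂ, ‖u‖ < r →
    ‖gdv u - u / Real.pi‖ ≤ 1 / 100 * ‖u‖ ∧ ‖yy u 0 - 1 / 4‖ ≤ 1 / 100 := by
  have hz : |(0 : ℂ).im| < Real.pi / 2 := by simp; exact Real.pi_pos
  have h1 := gdv_hasDerivAt hz
  rw [cosh_zero, mul_one] at h1
  have h2 := (hasDerivAt_iff_isLittleO_nhds_zero.1 h1).def (show (0 : ℝ) < 1 / 100 by norm_num)
  have c1 : ContinuousAt (fun u : ℂ => TT u 0) 0 := by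
    unfold TT
    have d1 : ContinuousAt (fun u : ℂ => Lc (u + 0)) 0 := by
      refine ContinuousAt.comp (g := Lc) (f := fun u : ℂ => u + 0) ?_ (by fun_prop)
      simp only [add_zero]
      exact (hasDerivAt_Lc hz).continuousAt
    have d2 : ContinuousAt (fun u : ℂ => Lc (u - 0)) 0 := by
      refine ContinuousAt.comp (g := Lc) (f := fun u : ℂ => u - 0) ?_ (by fun_prop)
      simp only [sub_zero]
      exact (hasDerivAt_Lc hz).continuousAt
    exact ((d1.add d2).div_const 2).cexp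
  have c2 : ContinuousAt (fun u : ℂ => arsh (TT u 0)) 0 :=
    ContinuousAt.comp (g := arsh) (f := fun u : ℂ => TT u 0)
      (hasDerivAt_arsh (slitT reg0)).continuousAt c1
  have c3 : ContinuousAt (fun u : ℂ => yy u 0) 0 :=
    ContinuousAt.comp (g := gdv) (f := fun u : ℂ => arsh (TT u 0))
      (gdv_hasDerivAt (arshT_im reg0)).continuousAt c2
  have h3 : ∀ᶠ u in 𝓝 (0 : ℂ), ‖yy u 0 - 1 / 4‖ < 1 / 100 := by
    have c4 : ContinuousAt (fun u : ℂ => ‖yy u 0 - 1 / 4‖) 0 := (c3.sub_const _).norm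
    have c5 := c4.eventually_lt_const (u := 1 / 100) (by
      show ‖yy 0 0 - 1 / 4‖ < 1 / 100
      rw [yy00, sub_self, norm_zero]
      norm_num)
    exact c5
  obtain ⟨r, hr, h4⟩ := Metric.eventually_nhds_iff.1 (h2.and h3)
  refine ⟨r, hr, fun u hu => ?_⟩
  obtain ⟨g1, g2⟩ := h4 (y := u) (by rwa [dist_zero_right])
  rw [zero_add, gdv_zero, sub_zero] at g1
  refine ⟨?_, g2.le⟩
  have e : u / (Real.pi : ℂ) = u • (1 / (Real.pi : ℂ)) := by
    rw [smul_eq_mul]; ring
  rw [e]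
  exact g1

theorem SlotS_base : ∃ u : ℂ, QP u 0 ∧ SlA fL fe u 0 = 0 := by
  have hpi := Real.pi_pos
  have hp3 := Real.pi_gt_three
  have hp4 := Real.pi_lt_d2
  have hpi' : (Real.pi : ℂ) ≠ 0 := by exact_mod_cast Real.pi_ne_zero
  obtain ⟨r, hr, hnear⟩ := SlotS_near
  set e : ℝ := min (r / 10) (1 / 100) with he
  have he0 : 0 < e := lt_min (by linarith only [hr]) (by norm_num)
  have he1 : e ≤ r / 10 := min_le_left _ _
  have he2 : e ≤ 1 / 100 := min_le_right _ _
  set u : ℂ := ((4 * e : ℝ) : ℂ) + ((e : ℝ) : ℂ) * I with hu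
  have ure : u.re = 4 * e := by rw [hu]; simp
  have uim : u.im = e := by rw [hu]; simp
  have un : ‖u‖ ≤ 5 * e := by
    have := Complex.norm_le_abs_re_add_abs_im u
    rw [ure, uim, abs_of_pos (by linarith only [he0]), abs_of_pos he0] at this
    linarith only [this]
  obtain ⟨g1, g2⟩ := hnear u (by linarith only [un, he1, he0])
  have hl : |u.im| < Real.pi / 2 := by
    rw [uim, abs_of_pos he0]
    linarith only [he2, hp4, hp3]
  have hQ : QP u 0 := by
    refine ⟨⟨?_, ?_, ?_, ?_, ?_⟩, ?_, ?_⟩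
    · unfold Reg
      simpa using hl
    · rw [ure]; linarith only [he0]
    · simp
    · rw [uim]; exact he0.le
    · simp
    · rw [ure]; linarith only [he0]
    · rw [uim]; exact he0
  refine ⟨u, hQ, ?_⟩
  have hr0 := hQ.q.reg
  -- the numbers
  have hv1 : |(gdv u).re - 4 * e / Real.pi| ≤ 1 / 20 * e := by
    have k1 := Complex.abs_re_le_norm (gdv u - u / Real.pi)
    rw [sub_re, Complex.div_ofReal_re, ure] at k1
    linarith only [k1, g1, un]
  have hv2 : |(gdv u).im - e / Real.pi| ≤ 1 / 20 * e := by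
    have k1 := Complex.abs_im_le_norm (gdv u - u / Real.pi)
    rw [sub_im, Complex.div_ofReal_im, uim] at k1
    linarith only [k1, g1, un]
  have hb : bS u 0 = -(I * u) / Real.pi := by
    unfold bS
    rw [qq_zero_right hl]
  have hbre : (bS u 0).re = e / Real.pi := by
    rw [hb, Complex.div_ofReal_re]
    simp [uim]
  have hbim : (bS u 0).im = -(4 * e / Real.pi) := by
    rw [hb, Complex.div_ofReal_im]
    simp [ure]
    ring
  have q1 : e / Real.pi < e / 3 := div_lt_div_of_pos_left he0 (by norm_num) hp3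
  have q2 : 3 / 10 * e < e / Real.pi := by
    rw [lt_div_iff₀ hpi]
    linarith only [mul_pos (sub_pos.2 hp4) (sub_pos.2 he0), mul_pos (sub_pos.2 hp3) (sub_pos.2 he0)]
  have q3 : 4 * e / Real.pi = 4 * (e / Real.pi) := by ring
  rw [q3] at hv1 hbim
  set d := e / Real.pi with hd
  have a1 := abs_le.1 hv1
  have a2 := abs_le.1 hv2
  have hvn : ‖gdv u‖ ≤ 7 / 100 := by
    have k1 := Complex.norm_le_abs_re_add_abs_im (gdv u)
    have k2 : |(gdv u).re| ≤ 5 * e := by rw [abs_le]; constructor <;> linarith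
    have k3 : |(gdv u).im| ≤ e := by rw [abs_le]; constructor <;> linarith
    linarith only [k3, k2, k1, q2, q1, he2]
  have hDm : Dm 1 (((1 : ℝ) : ℂ) * gdv u) (bS u 0) := by
    rw [ofReal_one, one_mul]
    refine ⟨Or.inl rfl, ?_, ?_, ?_, ?_, ?_, ?_⟩
    · rw [abs_lt]; constructor <;> linarith
    · linarith only [a1.2, q2, q1, he2]
    · unfold HS
      rw [hbre, hbim]
      linarith only [q2, he0]
    · unfold HS
      simp only [sub_re, sub_im, one_re, one_im]
      rw [hbre, hbim]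
      linarith only [a2.1, a1.2, q2, q1, he2]
    · rw [hbim, abs_lt]; constructor <;> linarith
    · rw [add_im, hbim, abs_lt]; constructor <;> linarith
  -- the logarithms
  have yre := Complex.abs_re_le_norm (yy u 0 - 1 / 4)
  have y14 : ((1 : ℂ) / 4).re = 1 / 4 := by norm_num
  rw [sub_re, y14] at yre
  have y1 := abs_le.1 (yre.trans g2)
  have p1 : 0 < (yy u 0 - gdv u).re := by rw [sub_re]; linarith only [y1.1, a1.2, q2, q1, he2]
  have p2 : (yy u 0 - gdv u).re < 1 := by rw [sub_re]; linarith only [y1.2, a1.1, q2, q1, he2]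
  have p3 : 0 < (yy u 0 + gdv u).re := by rw [add_re]; linarith only [y1.1, a1.1, q2, q1, he2]
  have p4 : (yy u 0 + gdv u).re < 1 := by rw [add_re]; linarith only [y1.2, a1.2, q2, q1, he2]
  have l1 : hh (yy u 0 - gdv u) = Lm u 0 := by
    have k := hQ.q.dL.2
    rw [S3.hL, if_pos (Or.inr p1), he_eq_log (Or.inr ⟨p1, p2⟩) (by linarith only [p1, q2, q1, he2]) p2] at k
    exact k
  have l2 : hh (yy u 0 + gdv u) = Lp u 0 := by
    have k := hQ.q.dE.2
    rw [he_eq_log (Or.inr ⟨p3, p4⟩) (by linarith only [p3, q2, q1, he2]) p4] at k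
    exact k
  have hbet : bS u 0 = bet (gdv u) (some (yy u 0)) / (2 * Real.pi) := by
    have k : bet (gdv u) (some (yy u 0)) =
      -I * (hh (yy u 0 + gdv u) - hh (yy u 0 - gdv u)) := rfl
    rw [k, l1, l2]
    unfold bS Lm Lp
    field_simp
    ring
  have key := slot_lam 1 (gdv u) (yy u 0) (bS u 0) hvn g2 hbet hDm
  have hmm : mm (gdv u) (yy u 0) - hh (yy u 0 + 1 / 2) = -dS u 0 := by
    unfold mm dS
    rw [l1, l2, hh_half hr0]
    unfold Lm Lp
    ring
  have hXX : XX (gdv u) (yy u 0) = XS u 0 := by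
    unfold XX XS
    rw [hmm, hh_gdv_half hl, hh_half hr0]
    have e1 : 2 * -dS u 0 = -(2 * dS u 0) := by ring
    rw [e1]
    unfold nS
    ring
  have hbv : Real.pi * gdv u * bet (gdv u) (some (yy u 0)) =
      2 * (Real.pi : ℂ) ^ 2 * (gdv u * bS u 0) := by
    rw [hbet]
    field_simp
  unfold SlotT at key
  rw [hXX, hmm, hbv] at key
  unfold SlA
  rw [fL, if_pos (Or.inr p1), fe_eq_ff p1 p2, fe_eq_ff p3 p4]
  simp only [ofReal_one, one_mul] at key
  linear_combination key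

/-- **The identity of a slot.** -/
theorem slotS {u w : ℂ} (h : QP u w) : SlA fL fe u w = 0 := by
  obtain ⟨u0, h0, e0⟩ := SlotS_base
  rw [SlotS_const h0 h, e0]

end Pool.Agent.S3.CV
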