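import Pool.Agent.S3.CV.ConstS
import Pool.Agent.S3.CV.LayS
import Pool.Agent.S3.CV.TriS

/-!
# Stage 3, complex volume: the labels and the layers of a chain
-/

namespace Pool.Agent.S3.CV

open Pool.Agent.H63.VC3 Pool.Agent.H63.VC5 Complex
open Pool.Agent.H25.RK (gdv)

section combinatorics

variable (R : ℕ) (a : ℕ → ℕ) (b : Bool)

private theorem SumS_three : ∀ x y z w : Fin 3, x ≠ y → x ≠ z → y ≠ z →
    (x = w ∧ y ≠ w ∧ z ≠ w) ∨ (x ≠ w ∧ y = w ∧ z ≠ w) ∨ (x ≠ w ∧ y ≠ w ∧ z = w) := by
  decide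

private theorem SumS_neg : ∀ x : Fin 3, x ≠ 0 → x ≠ -x := by
  decide

theorem om_ne : om R a b ≠ 0 := by
  unfold om
  split
  · decide
  · assumption

theorem cS_last : cS a b R (a R) ≠ -om R a b := by
  unfold om
  split
  · next h => rw [h]; decide
  · next h => exact SumS_neg _ h

theorem cS_first : cS a b 0 0 ≠ -om R a b := by
  have h : cS a b 0 0 = 0 := by
    unfold cS clR
    rw [if_pos (by decide)]
  rw [h]
  intro h2
  exact om_ne R a b (neg_eq_zero.1 h2.symm)

/-- One of the three classes of a triangle is `-w`. -/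
theorem cl3 (i k : ℕ) :
    (cP a b i = -om R a b ∧ cS a b i k ≠ -om R a b ∧ cS a b i (k + 1) ≠ -om R a b) ∨
    (cP a b i ≠ -om R a b ∧ cS a b i k = -om R a b ∧ cS a b i (k + 1) ≠ -om R a b) ∨
    (cP a b i ≠ -om R a b ∧ cS a b i k ≠ -om R a b ∧ cS a b i (k + 1) = -om R a b) := by
  obtain ⟨h1, h2, h3⟩ := clR_ne a b i
  apply SumS_three
  · unfold cP cS
    split
    · exact h1
    · exact h2
  · unfold cP cS
    split
    · exact h1
    · exact h2
  · unfold cS
    rcases Nat.even_or_odd k with hk | hk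
    · rw [if_pos hk, if_neg (by
        intro h; rw [Nat.even_add_one] at h; exact h hk)]
      exact h3
    · have hk' : ¬ Even k := Nat.not_even_iff_odd.2 hk
      rw [if_neg hk', if_pos (Nat.even_add_one.2 hk')]
      exact h3.symm

theorem sg_succ (i : ℕ) : sg b (i + 1) = -sg b i := by
  unfold sg
  rw [lf]
  cases lf b i <;> simp

theorem sg_true {i : ℕ} (h : lf b i = true) : sg b i = 1 := by
  unfold sg
  rw [h]
  rfl

theorem sg_false {i : ℕ} (h : lf b i = false) : sg b i = -1 := by
  unfold sg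
  rw [h]
  rfl

end combinatorics

section defs

variable (R : ℕ) (a : ℕ → ℕ) (b : Bool) (U : ℕ → ℂ)

/-- The variable of the region with the pivot at the left end. -/
noncomputable def eu (i : ℕ) : ℂ := if lf b i then U i else U (i + 1)

/-- The variable of the region with the pivot at the right end. -/
noncomputable def ew (i : ℕ) : ℂ := if lf b i then U (i + 1) else U i

/-- The angle at the end of the region `i`. -/
noncomputable def bRo (i : ℕ) : ℂ :=
  if i = R then 0 else if lf b i then bS (eu b U i) (ew b U i) else bT (eu b U i) (ew b U i)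

/-- The angle at the beginning of the region `i`. -/
noncomputable def bLo : ℕ → ℂ
  | 0 => 0
  | i + 1 => if lf b i then bT (eu b U i) (ew b U i) else bS (eu b U i) (ew b U i)

/-- The angle of the layer `k`. -/
noncomputable def ak (i k : ℕ) : ℂ := k * gdv (U i) + bLo b U i

/-- The logarithm of the slope `S_{i,k}`, without the branch. -/
noncomputable def hd (i k : ℕ) : ℂ := hh (ak b U i k) - hh (gdv (U i))

/-- The shapes. -/
noncomputable def zo (i k : ℕ) : ℂ :=
  exp (if lf b i then -(2 * hd b U i k) else 2 * hd b U i k)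

/-- The logarithms of the pivots, without the branch. -/
noncomputable def LNo : ℕ → ℂ
  | 0 => 0
  | i + 1 => LNo i + hd b U i (a i)

/-- The branch of the pivots. -/
def pmo : ℕ → ℤ
  | 0 => 0
  | i + 1 => pmo i + (if cS a b i (a i + 1) = -om R a b then sg b i else 0)

/-- The branch of the slopes. -/
def muo (i k : ℕ) : ℤ :=
  pmo R a b i + (if cP a b i ≠ -om R a b ∧ cS a b i k ≠ -om R a b then sg b i else 0)

/-- The logarithms of the pivots. -/
noncomputable def LPo (i : ℕ) : ℂ := LNo a b U i + Real.pi * I / 2 * (pmo R a b i)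

/-- The logarithms of the slopes. -/
noncomputable def lamo (i k : ℕ) : ℂ :=
  LNo a b U i + hd b U i k + Real.pi * I / 2 * (muo R a b i k)

/-- The telescoping terms. -/
noncomputable def Uto (i k : ℕ) : ℂ :=
  if cP a b i = -om R a b then 0
  else if cS a b i k ≠ -om R a b then -hd b U i (k + 1) else hd b U i k

/-- A solution of the equations of a chain, in the oriented variables. -/
structure CU : Prop where
  hR : 1 ≤ R
  ha : ∀ i, i ≤ R → 2 ≤ a i
  edge : ∀ i, i < R → EQ (eu b U i) (ew b U i)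
  ver : ∀ i, i ≤ R → (a i : ℂ) * gdv (U i) + bLo b U i + bRo R b U i = 1
  pos : ∀ i k, i ≤ R → k ∈ lay R a i → 0 < (zo b U i k).im

end defs

section labels

variable {R : ℕ} {a : ℕ → ℕ} {b : Bool} {U : ℕ → ℂ}

theorem zsign (i j : ℕ) : zo b U i (j + 1) = (if cS a b i j = -om R a b then -1 else 1) *
    exp (2 * lgL b (LPo R a b U) (lamo R a b U) i (j + 1) -
      2 * lgR b (LPo R a b U) (lamo R a b U) i (j + 1)) := by
  have hc := cl3 R a b i j
  unfold lgL lgR zo LPo lamo muo
  rcases hl : lf b i with _ | _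
  · rw [sg_false b hl]
    simp only [Bool.false_eq_true, if_false]
    rcases hc with ⟨c1, c2, c3⟩ | ⟨c1, c2, c3⟩ | ⟨c1, c2, c3⟩
    · rw [if_neg c2, if_neg (fun h => h.1 c1), one_mul]
      congr 1
      push_cast
      ring
    · rw [if_pos c2, if_pos ⟨c1, c3⟩]
      have e : 2 * (LNo a b U i + hd b U i (j + 1) +
          Real.pi * I / 2 * ((pmo R a b i + -1 : ℤ) : ℂ)) -
          2 * (LNo a b U i + Real.pi * I / 2 * (pmo R a b i)) =
          2 * hd b U i (j + 1) - Real.pi * I := by
        push_cast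
        ring
      rw [e, Complex.exp_sub, Complex.exp_pi_mul_I]
      ring
    · rw [if_neg c2, if_neg (fun h => h.2 c3), one_mul]
      congr 1
      push_cast
      ring
  · rw [sg_true b hl]
    simp only [if_true]
    rcases hc with ⟨c1, c2, c3⟩ | ⟨c1, c2, c3⟩ | ⟨c1, c2, c3⟩
    · rw [if_neg c2, if_neg (fun h => h.1 c1), one_mul]
      congr 1
      push_cast
      ring
    · rw [if_pos c2, if_pos ⟨c1, c3⟩]
      have e : 2 * (LNo a b U i + Real.pi * I / 2 * (pmo R a b i)) -
          2 * (LNo a b U i + hd b U i (j + 1) +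
            Real.pi * I / 2 * ((pmo R a b i + 1 : ℤ) : ℂ)) =
          -(2 * hd b U i (j + 1)) - Real.pi * I := by
        push_cast
        ring
      rw [e, Complex.exp_sub, Complex.exp_pi_mul_I]
      ring
    · rw [if_neg c2, if_neg (fun h => h.2 c3), one_mul]
      congr 1
      push_cast
      ring

theorem ak_succ (i k : ℕ) : ak b U i (k + 1) = gdv (U i) + ak b U i k := by
  unfold ak
  push_cast
  ring

theorem bLo_succ (i : ℕ) : bLo b U (i + 1) =
    if lf b i then bT (eu b U i) (ew b U i) else bS (eu b U i) (ew b U i) := rfl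

theorem muo_succ (i k : ℕ) : muo R a b i (k + 2) = muo R a b i k := by
  unfold muo
  rw [TriS_cS_succ]

section withh

variable (h : CU R a b U)
include h

/-- The slot `(W_i, bR_i)`. -/
theorem CU.dsR {i : ℕ} (hi : i < R) : Ds (gdv (U i)) (bRo R b U i) := by
  have he := h.edge i hi
  unfold bRo
  rw [if_neg (Nat.ne_of_lt hi)]
  rcases hl : lf b i with _ | _
  · simp only [Bool.false_eq_true, if_false]
    have := he.ds'
    have e : ew b U i = U i := by unfold ew; rw [hl]; rfl
    rwa [e] at this ⊢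
  · simp only [if_true]
    have := he.qp.ds
    have e : eu b U i = U i := by unfold eu; rw [hl]; rfl
    rwa [e] at this ⊢

/-- The slot `(W_{i+1}, bL_{i+1})`. -/
theorem CU.dsL {i : ℕ} (hi : i < R) : Ds (gdv (U (i + 1))) (bLo b U (i + 1)) := by
  have he := h.edge i hi
  rw [bLo_succ]
  rcases hl : lf b i with _ | _
  · simp only [Bool.false_eq_true, if_false]
    have := he.qp.ds
    have e : eu b U i = U (i + 1) := by unfold eu; rw [hl]; rfl
    rwa [e] at this ⊢
  · simp only [if_true]
    have := he.ds'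
    have e : ew b U i = U (i + 1) := by unfold ew; rw [hl]; rfl
    rwa [e] at this ⊢

theorem CU.w0 {i : ℕ} (hi : i ≤ R) : 0 < (gdv (U i)).re := by
  rcases Nat.lt_or_ge i R with h1 | h1
  · exact (h.dsR h1).w0
  · have hR := h.hR
    obtain ⟨j, rfl⟩ : ∃ j, i = j + 1 := ⟨i - 1, by omega⟩
    exact (h.dsL (by omega)).w0

theorem CU.l0 {i : ℕ} (hi : i ≤ R) : 0 ≤ (bLo b U i).re := by
  rcases Nat.eq_zero_or_pos i with h1 | h1
  · subst h1
    simp [bLo]
  · obtain ⟨j, rfl⟩ : ∃ j, i = j + 1 := ⟨i - 1, by omega⟩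
    exact (h.dsL (by omega)).b0.le

theorem CU.r0 {i : ℕ} (hi : i ≤ R) : 0 ≤ (bRo R b U i).re := by
  rcases Nat.lt_or_ge i R with h1 | h1
  · exact (h.dsR h1).b0.le
  · have : i = R := by omega
    simp [bRo, this]

theorem CU.ver_re {i : ℕ} (hi : i ≤ R) :
    (a i : ℝ) * (gdv (U i)).re + (bLo b U i).re + (bRo R b U i).re = 1 := by
  have h1 := congrArg Complex.re (h.ver i hi)
  rw [add_re, add_re, one_re] at h1
  rw [show ((a i : ℕ) : ℂ) = (((a i : ℕ) : ℝ) : ℂ) by push_cast; rfl, re_ofReal_mul] at h1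
  exact h1

omit h in
theorem ak_re (i k : ℕ) :
    (ak b U i k).re = (k : ℝ) * (gdv (U i)).re + (bLo b U i).re := by
  unfold ak
  rw [add_re, show ((k : ℕ) : ℂ) = (((k : ℕ) : ℝ) : ℂ) by push_cast; rfl, re_ofReal_mul]

/-- The slots of the layers of a fan. -/
theorem CU.dsk {i k : ℕ} (hi : i ≤ R) (hk0 : i = 0 → 1 ≤ k) (hk1 : k + 1 ≤ a i)
    (hk2 : i = R → k + 2 ≤ a i) : Ds (gdv (U i)) (ak b U i k) := by
  have hw := h.w0 hi
  have hl := h.l0 hi
  have hr := h.r0 hi
  have hv := h.ver_re hi
  refine ⟨hw, ?_, ?_⟩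
  · rw [ak_re]
    rcases Nat.eq_zero_or_pos i with h1 | h1
    · have h2 : (1 : ℝ) ≤ k := by exact_mod_cast hk0 h1
      nlinarith
    · obtain ⟨j, rfl⟩ : ∃ j, i = j + 1 := ⟨i - 1, by omega⟩
      have h3 := (h.dsL (i := j) (by omega)).b0
      have h4 : (0 : ℝ) ≤ k := by positivity
      have := mul_nonneg h4 hw.le
      linarith
  · rw [ak_re]
    rcases Nat.lt_or_ge i R with h1 | h1
    · have h2 : (k : ℝ) + 1 ≤ a i := by exact_mod_cast hk1
      have h3 := (h.dsR h1).b0
      have := mul_le_mul_of_nonneg_right h2 hw.le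
      linarith
    · have h2 : (k : ℝ) + 2 ≤ a i := by exact_mod_cast hk2 (by omega)
      have := mul_le_mul_of_nonneg_right h2 hw.le
      linarith

/-- The layers of a fan. -/
theorem CU.fan {i j : ℕ} (hi : i ≤ R) (hk : j + 1 ∈ lay R a i) (hk2 : j + 1 < a i) :
    ∃ P Q : ℤ, Complex.log (zo b U i (j + 1)) + P * (Real.pi * I) =
        2 * lgL b (LPo R a b U) (lamo R a b U) i (j + 1) -
          2 * lgR b (LPo R a b U) (lamo R a b U) i (j + 1) ∧
      -Complex.log (1 - zo b U i (j + 1)) + Q * (Real.pi * I) =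
        2 * lgR b (LPo R a b U) (lamo R a b U) i (j + 1) - lamo R a b U i j -
          lgN a (lamo R a b U) i (j + 1) ∧
      Cg (2 * rogers (zo b U i (j + 1)) P Q)
        ((sg b i : ℂ) * (2 * (Lam (gdv (U i)) (ak b U i j) - Lam (gdv (U i)) (ak b U i (j + 1))) -
          (Real.pi : ℂ) ^ 2 / 3) + Real.pi * I * (Uto R a b U i (j + 1) - Uto R a b U i j)) := by
  obtain ⟨-, -, k0, kR⟩ := (TriS_mem_lay h.ha hi).1 hk
  have hd0 : Ds (gdv (U i)) (ak b U i j) :=
    h.dsk hi (fun h0 => by have := k0 h0; omega) (by omega) (fun h0 => by have := kR h0; omega)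
  have hd1 : Ds (gdv (U i)) (gdv (U i) + ak b U i j) := by
    rw [← ak_succ]
    exact h.dsk hi (fun h0 => by omega) (by omega) (fun h0 => by have := kR h0; omega)
  have hz : zo b U i (j + 1) = if lf b i then
      exp (2 * (hh (gdv (U i)) - hh (gdv (U i) + ak b U i j)))
      else exp (-(2 * (hh (gdv (U i)) - hh (gdv (U i) + ak b U i j)))) := by
    unfold zo hd
    rw [ak_succ]
    split
    · congr 1
      ring
    · congr 1
      ring
  obtain ⟨P, Q, e1, e2, e3⟩ := fanS (lf b i) hd0 hd1 hz (h.pos i (j + 1) hi hk)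
    (LP := LPo R a b U i) (l0 := lamo R a b U i j) (l1 := lamo R a b U i (j + 1))
    (l2 := lamo R a b U i (j + 2)) (N := LNo a b U i) (m := pmo R a b i)
    (mk := muo R a b i (j + 1)) (m0 := muo R a b i j) rfl
    (by unfold lamo hd; rw [ak_succ]) rfl (by
      unfold lamo hd
      rw [muo_succ, ak_succ, ak_succ]
      congr 4
      ring_nf)
  refine ⟨P, Q, e1, ?_, ?_⟩
  · rw [e2]
    unfold lgN
    rw [if_neg (Nat.ne_of_lt hk2)]
    rfl
  · refine e3.trans (Cg.of_eq ?_)
    have hc := cl3 R a b i j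
    have hA : hh (gdv (U i) + ak b U i j) = hd b U i (j + 1) + hh (gdv (U i)) := by
      unfold hd; rw [ak_succ]; ring
    have hB : hh (ak b U i j) = hd b U i j + hh (gdv (U i)) := by
      unfold hd; ring
    have hC : hh (2 * gdv (U i) + ak b U i j) = hd b U i (j + 2) + hh (gdv (U i)) := by
      unfold hd; rw [ak_succ, ak_succ]; ring_nf
    rw [hA, hB, hC, ← ak_succ]
    unfold muo Uto
    rcases hl : lf b i with _ | _
    · rw [sg_false b hl]
      simp only [Bool.false_eq_true, if_false]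
      rcases hc with ⟨c1, c2, c3⟩ | ⟨c1, c2, c3⟩ | ⟨c1, c2, c3⟩
      · rw [if_neg (fun h => h.1 c1), if_neg (fun h => h.1 c1), if_pos c1, if_pos c1]
        push_cast
        ring
      · rw [if_pos ⟨c1, c3⟩, if_neg (fun h => h.2 c2), if_neg c1, if_neg c1, if_pos c3,
          if_neg (fun h => h c2)]
        push_cast
        ring
      · rw [if_neg (fun h => h.2 c3), if_pos ⟨c1, c2⟩, if_neg c1, if_neg c1,
          if_neg (fun h => h c3), if_pos c2]
        push_cast
        ring
    · rw [sg_true b hl]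
      simp only [if_true]
      rcases hc with ⟨c1, c2, c3⟩ | ⟨c1, c2, c3⟩ | ⟨c1, c2, c3⟩
      · rw [if_neg (fun h => h.1 c1), if_neg (fun h => h.1 c1), if_pos c1, if_pos c1]
        push_cast
        ring
      · rw [if_pos ⟨c1, c3⟩, if_neg (fun h => h.2 c2), if_neg c1, if_neg c1, if_pos c3,
          if_neg (fun h => h c2)]
        push_cast
        ring
      · rw [if_neg (fun h => h.2 c3), if_pos ⟨c1, c2⟩, if_neg c1, if_neg c1,
          if_neg (fun h => h c3), if_pos c2]
        push_cast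
        ring

end withh

end labels

end Pool.Agent.S3.CV
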