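import Pool.Agent.S3.CV.ChainS
import Pool.Agent.S3.CV.HinS

/-!
# Stage 3, complex volume: the sum over the layers
-/

namespace Pool.Agent.S3.CV

open Pool.Agent.H63.VC3 Pool.Agent.H63.VC5 Complex
open Pool.Agent.H25.RK (gdv)

theorem TotS_tele (G : ℕ → ℂ) (c : ℂ) {m n : ℕ} (h : m ≤ n) :
    ∑ k ∈ Finset.Icc (m + 1) n, (G k - G (k - 1) - c) = G n - G m - ((n : ℂ) - m) * c := by
  induction n, h using Nat.le_induction with
  | base => simp
  | succ n hn ih =>
    rw [Finset.sum_Icc_succ_top (by omega), ih, Nat.add_sub_cancel]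
    push_cast
    ring

variable {R : ℕ} {a : ℕ → ℕ} {b : Bool} {U : ℕ → ℂ}

/-- The telescoping function of a region. -/
noncomputable def Gk (R : ℕ) (a : ℕ → ℕ) (b : Bool) (U : ℕ → ℂ) (i k : ℕ) : ℂ :=
  -(2 * (sg b i : ℂ) * Lam (gdv (U i)) (ak b U i k)) + Real.pi * I * Uto R a b U i k

/-- The value of a hinge. -/
noncomputable def Hk (R : ℕ) (a : ℕ → ℕ) (b : Bool) (U : ℕ → ℂ) (i : ℕ) : ℂ :=
  2 * XS (eu b U i) (ew b U i) + Real.pi * I *
    (2 * nS (eu b U i) (ew b U i) + dS (eu b U i) (ew b U i)) + (Real.pi : ℂ) ^ 2 / 6 -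
    (if cS a b i (a i + 1) = -om R a b then (Real.pi : ℂ) ^ 2 / 2 else 0) -
    Real.pi * I * (Uto R a b U i (a i - 1) - Uto R a b U (i + 1) 0)

/-- The value of a layer. -/
noncomputable def Tk (R : ℕ) (a : ℕ → ℕ) (b : Bool) (U : ℕ → ℂ) (i k : ℕ) : ℂ :=
  if k = a i then Hk R a b U i
  else Gk R a b U i k - Gk R a b U i (k - 1) - (sg b i : ℂ) * (Real.pi : ℂ) ^ 2 / 3

/-- The value of the potential. -/
noncomputable def WU (R : ℕ) (a : ℕ → ℕ) (b : Bool) (U : ℕ → ℂ) : ℂ :=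
  ∑ i ∈ Finset.range R, (sP (yy (eu b U i) (ew b U i)) (.op (gdv (eu b U i))) +
    sP (yy (eu b U i) (ew b U i)) (.op (gdv (ew b U i)))) +
  ∑ i ∈ Finset.range (R + 1), wr (-(sg b i : ℝ) * (a i : ℝ) / 2) ((sg b i : ℂ) * gdv (U i))

section withh

variable (h : CU R a b U)
include h

theorem CU.lay_ex {i k : ℕ} (hi : i ≤ R) (hk : k ∈ lay R a i) :
    ∃ P Q : ℤ, Complex.log (zo b U i k) + P * (Real.pi * I) =
        2 * lgL b (LPo R a b U) (lamo R a b U) i k -
          2 * lgR b (LPo R a b U) (lamo R a b U) i k ∧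
      -Complex.log (1 - zo b U i k) + Q * (Real.pi * I) =
        2 * lgR b (LPo R a b U) (lamo R a b U) i k - lamo R a b U i (k - 1) -
          lgN a (lamo R a b U) i k ∧
      Cg (2 * rogers (zo b U i k) P Q) (Tk R a b U i k) := by
  obtain ⟨k1, k2, k3, k4⟩ := (TriS_mem_lay h.ha hi).1 hk
  by_cases hka : k = a i
  · subst hka
    have hiR : i < R := by
      rcases Nat.lt_or_ge i R with h1 | h1
      · exact h1
      · have := k4 (by omega)
        omega
    obtain ⟨P, Q, e1, e2, e3⟩ := h.hin hiR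
    refine ⟨P, Q, e1, e2, Cg.of_eq ?_⟩
    unfold Tk
    rw [if_pos rfl, e3]
    rfl
  · obtain ⟨j, rfl⟩ : ∃ j, k = j + 1 := ⟨k - 1, by omega⟩
    obtain ⟨P, Q, e1, e2, e3⟩ := h.fan hi hk (by omega)
    refine ⟨P, Q, e1, e2, e3.trans (Cg.of_eq ?_)⟩
    unfold Tk Gk
    rw [if_neg hka, Nat.add_sub_cancel]
    ring

theorem CU.sum_lay {i : ℕ} (hi : i ≤ R) : ∑ k ∈ lay R a i, Tk R a b U i k =
    Gk R a b U i (if i = R then a i - 2 else a i - 1) - Gk R a b U i (if i = 0 then 1 else 0) -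
      ((a i : ℂ) - 1 - (if i = 0 then 1 else 0) - (if i = R then 1 else 0)) *
        ((sg b i : ℂ) * (Real.pi : ℂ) ^ 2 / 3) + (if i = R then 0 else Hk R a b U i) := by
  have ha := h.ha i hi
  have hR := h.hR
  have hlow : (if i = 0 then 2 else 1) = (if i = 0 then 1 else 0) + 1 := by split <;> rfl
  have hT : ∀ m n : ℕ, n < a i → ∑ k ∈ Finset.Icc m n, Tk R a b U i k =
      ∑ k ∈ Finset.Icc m n, (Gk R a b U i k - Gk R a b U i (k - 1) -
        (sg b i : ℂ) * (Real.pi : ℂ) ^ 2 / 3) := by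
    intro m n hn
    refine Finset.sum_congr rfl fun k hk => ?_
    have := (Finset.mem_Icc.1 hk).2
    unfold Tk
    rw [if_neg (by omega)]
  unfold lay
  rw [hlow]
  by_cases hiR : i = R
  · have hi0 : i ≠ 0 := by omega
    simp only [if_pos hiR, if_neg hi0]
    rw [hT _ _ (by omega), TotS_tele _ _ (by omega), Nat.cast_sub (by omega)]
    push_cast
    ring
  · simp only [if_neg hiR]
    obtain ⟨n, hn⟩ : ∃ n, a i = n + 1 := ⟨a i - 1, by omega⟩
    have hm : (if i = 0 then 1 else 0) ≤ n := by split <;> omega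
    have e : ∑ k ∈ Finset.Icc ((if i = 0 then 1 else 0) + 1) (a i), Tk R a b U i k =
        ∑ k ∈ Finset.Icc ((if i = 0 then 1 else 0) + 1) n, Tk R a b U i k +
          Tk R a b U i (a i) := by
      rw [hn, Finset.sum_Icc_succ_top (by omega)]
    have e2 : Tk R a b U i (a i) = Hk R a b U i := by
      unfold Tk
      rw [if_pos rfl]
    have e3 : a i - 1 = n := by omega
    have e4 : (a i : ℂ) = n + 1 := by rw [hn]; push_cast; rfl
    rw [e, e2, hT _ _ (by omega), TotS_tele _ _ hm, e3, e4]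
    split
    · push_cast
      ring
    · push_cast
      ring

/-- The contribution of an edge. -/
theorem CU.edge_sum {i : ℕ} (hi : i < R) :
    Gk R a b U i (a i - 1) - Gk R a b U (i + 1) 0 + Hk R a b U i =
      2 * Real.pi * I * (sP (yy (eu b U i) (ew b U i)) (.op (gdv (eu b U i))) +
        sP (yy (eu b U i) (ew b U i)) (.op (gdv (ew b U i)))) -
      2 * (Real.pi : ℂ) ^ 2 * ((sg b i : ℂ) * gdv (U i)) -
      2 * (Real.pi : ℂ) ^ 2 * ((sg b i : ℂ) * gdv (U i) * bRo R b U i) -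
      2 * (Real.pi : ℂ) ^ 2 * ((sg b (i + 1) : ℂ) * gdv (U (i + 1)) * bLo b U (i + 1)) -
      (if cS a b i (a i + 1) = -om R a b then (Real.pi : ℂ) ^ 2 / 2 else 0) := by
  have he := h.edge i hi
  have hE := he.edge
  have hr := LS_refl _ _ (h.dsR hi)
  have h0 : ak b U (i + 1) 0 = bLo b U (i + 1) := by
    unfold ak
    rw [Nat.cast_zero, zero_mul, zero_add]
  unfold Gk Hk
  rw [h.ak_pred hi.le, h0, sg_succ, bLo_succ]
  unfold bRo at hr ⊢
  rw [if_neg (Nat.ne_of_lt hi)] at hr ⊢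
  rcases hl : lf b i with _ | _
  · have e : eu b U i = U (i + 1) := by unfold eu; rw [hl]; rfl
    have e' : ew b U i = U i := by unfold ew; rw [hl]; rfl
    rw [hl] at hr
    simp only [Bool.false_eq_true, if_false] at hr ⊢
    rw [e, e'] at hE hr ⊢
    rw [sg_false b hl]
    push_cast
    linear_combination hE + 2 * hr
  · have e : eu b U i = U i := by unfold eu; rw [hl]; rfl
    have e' : ew b U i = U (i + 1) := by unfold ew; rw [hl]; rfl
    rw [hl] at hr
    simp only [if_true] at hr ⊢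
    rw [e, e'] at hE hr ⊢
    rw [sg_true b hl]
    push_cast
    linear_combination hE - 2 * hr

omit h in
theorem first_G : Gk R a b U 0 1 = -((sg b 0 : ℂ) * (Real.pi : ℂ) ^ 2 / 3) := by
  have hc := cl3 R a b 0 0
  have h0 := cS_first R a b
  have e1 : ak b U 0 1 = gdv (U 0) := by
    unfold ak bLo
    rw [Nat.cast_one, one_mul, add_zero]
  have e : hd b U 0 1 = 0 := by
    unfold hd
    rw [e1, sub_self]
  have e2 : Uto R a b U 0 1 = 0 := by
    unfold Uto
    rcases hc with ⟨c1, -, -⟩ | ⟨-, c2, -⟩ | ⟨c1, -, c3⟩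
    · rw [if_pos c1]
    · exact absurd c2 h0
    · rw [if_neg c1, if_neg (fun h => h c3), e]
  unfold Gk
  rw [e1, e2, Lam_diag]
  ring

theorem CU.last_G : Gk R a b U R (a R - 2) =
    -(2 * (sg b R : ℂ) * ((Real.pi : ℂ) ^ 2 * gdv (U R) - (Real.pi : ℂ) ^ 2 / 6)) := by
  have ha := h.ha R le_rfl
  have hR := h.hR
  have hb : bRo R b U R = 0 := by unfold bRo; rw [if_pos rfl]
  have ep := h.ak_pred (le_refl R)
  rw [hb, sub_zero] at ep
  have e1 : ak b U R (a R - 2) = 1 - gdv (U R) - gdv (U R) := by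
    have k := ak_succ (b := b) (U := U) R (a R - 2)
    have e : a R - 2 + 1 = a R - 1 := by omega
    rw [e, ep] at k
    linear_combination -k
  have hD : Ds (gdv (U R)) (ak b U R (a R - 2)) :=
    h.dsk le_rfl (fun h0 => by omega) (by omega) (fun _ => by omega)
  have hl := LS_refl _ _ hD
  have e2 : 1 - gdv (U R) - ak b U R (a R - 2) = gdv (U R) := by
    rw [e1]; ring
  rw [e2, Lam_diag] at hl
  have e3 : hd b U R (a R - 1) = 0 := by
    unfold hd
    rw [ep, hhx_refl, sub_self]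
  have e4 : Uto R a b U R (a R - 2) = 0 := by
    have hc := cl3 R a b R (a R - 2)
    have h0 := cS_last R a b
    have e5 : cS a b R (a R) = cS a b R (a R - 2) := by
      rw [← TriS_cS_succ a b R (a R - 2)]
      congr 1
      omega
    have e6 : a R - 2 + 1 = a R - 1 := by omega
    rw [e5] at h0
    unfold Uto
    rcases hc with ⟨c1, -, -⟩ | ⟨-, c2, -⟩ | ⟨c1, c2, c3⟩
    · rw [if_pos c1]
    · exact absurd c2 h0
    · rw [if_neg c1, if_pos c2, e6, e3, neg_zero]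
  unfold Gk
  rw [e4]
  linear_combination (-(2 * (sg b R : ℂ))) * hl

/-- **The value of the chain.** -/
theorem CU.total : ∑ i ∈ Finset.range (R + 1), ∑ k ∈ lay R a i, Tk R a b U i k +
    (Real.pi : ℂ) ^ 2 * KK R a b =
      2 * Real.pi * I * WU R a b U + (Real.pi : ℂ) ^ 2 / 2 * ∑ i ∈ Finset.range (R + 1), (a i : ℂ) +
        ((sg b 0 + sg b R : ℤ) : ℂ) * (Real.pi : ℂ) ^ 2 := by
  have hR := h.hR
  rw [Finset.sum_congr rfl (fun i hi => h.sum_lay (by
    have := Finset.mem_range.1 hi; omega))]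
  rw [Finset.sum_add_distrib, Finset.sum_sub_distrib, Finset.sum_sub_distrib]
  -- the tops
  have t1 : ∑ i ∈ Finset.range (R + 1), Gk R a b U i (if i = R then a i - 2 else a i - 1) =
      ∑ i ∈ Finset.range R, Gk R a b U i (a i - 1) + Gk R a b U R (a R - 2) := by
    rw [Finset.sum_range_succ, if_pos rfl]
    congr 1
    refine Finset.sum_congr rfl fun i hi => ?_
    have := Finset.mem_range.1 hi
    rw [if_neg (by omega)]
  have t2 : ∑ i ∈ Finset.range (R + 1), Gk R a b U i (if i = 0 then 1 else 0) =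
      ∑ i ∈ Finset.range R, Gk R a b U (i + 1) 0 + Gk R a b U 0 1 := by
    rw [Finset.sum_range_succ', if_pos rfl]
    rfl
  have t3 : ∑ i ∈ Finset.range (R + 1), (if i = R then 0 else Hk R a b U i) =
      ∑ i ∈ Finset.range R, Hk R a b U i := by
    rw [Finset.sum_range_succ, if_pos rfl, add_zero]
    refine Finset.sum_congr rfl fun i hi => ?_
    have := Finset.mem_range.1 hi
    rw [if_neg (by omega)]
  have t4 : ∑ i ∈ Finset.range (R + 1), ((a i : ℂ) - 1 - (if i = 0 then 1 else 0) -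
      (if i = R then 1 else 0)) * ((sg b i : ℂ) * (Real.pi : ℂ) ^ 2 / 3) =
      (Real.pi : ℂ) ^ 2 * ∑ i ∈ Finset.range (R + 1), (sg b i : ℂ) * ((a i : ℂ) - 1) / 3 -
        ((sg b 0 : ℂ) + sg b R) * (Real.pi : ℂ) ^ 2 / 3 := by
    have e0 : ∑ i ∈ Finset.range (R + 1), (if i = 0 then (sg b i : ℂ) * (Real.pi : ℂ) ^ 2 / 3
        else 0) = (sg b 0 : ℂ) * (Real.pi : ℂ) ^ 2 / 3 := by
      rw [Finset.sum_ite_eq' (Finset.range (R + 1)) 0, if_pos (Finset.mem_range.2 (by omega))]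
    have e1 : ∑ i ∈ Finset.range (R + 1), (if i = R then (sg b i : ℂ) * (Real.pi : ℂ) ^ 2 / 3
        else 0) = (sg b R : ℂ) * (Real.pi : ℂ) ^ 2 / 3 := by
      rw [Finset.sum_ite_eq' (Finset.range (R + 1)) R, if_pos (Finset.mem_range.2 (by omega))]
    have e2 : ∀ i ∈ Finset.range (R + 1), ((a i : ℂ) - 1 - (if i = 0 then 1 else 0) -
        (if i = R then 1 else 0)) * ((sg b i : ℂ) * (Real.pi : ℂ) ^ 2 / 3) =
        (Real.pi : ℂ) ^ 2 * ((sg b i : ℂ) * ((a i : ℂ) - 1) / 3) -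
          (if i = 0 then (sg b i : ℂ) * (Real.pi : ℂ) ^ 2 / 3 else 0) -
          (if i = R then (sg b i : ℂ) * (Real.pi : ℂ) ^ 2 / 3 else 0) := by
      intro i _
      split <;> split <;> ring
    rw [Finset.sum_congr rfl e2, Finset.sum_sub_distrib, Finset.sum_sub_distrib, e0, e1,
      ← Finset.mul_sum]
    ring
  have t5 := Finset.sum_congr rfl (fun i hi => h.edge_sum (Finset.mem_range.1 hi))
  simp only [Finset.sum_add_distrib, Finset.sum_sub_distrib, ← Finset.mul_sum] at t5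
  have hb : bRo R b U R = 0 := by unfold bRo; rw [if_pos rfl]
  have hb0 : bLo b U 0 = 0 := rfl
  have t6 : ∑ i ∈ Finset.range (R + 1), (sg b i : ℂ) * gdv (U i) * bRo R b U i =
      ∑ i ∈ Finset.range R, (sg b i : ℂ) * gdv (U i) * bRo R b U i := by
    rw [Finset.sum_range_succ, hb, mul_zero, add_zero]
  have t7 : ∑ i ∈ Finset.range (R + 1), (sg b i : ℂ) * gdv (U i) * bLo b U i =
      ∑ i ∈ Finset.range R, (sg b (i + 1) : ℂ) * gdv (U (i + 1)) * bLo b U (i + 1) := by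
    rw [Finset.sum_range_succ', hb0, mul_zero, add_zero]
  have t8 : ∑ i ∈ Finset.range (R + 1), (sg b i : ℂ) * gdv (U i) =
      ∑ i ∈ Finset.range R, (sg b i : ℂ) * gdv (U i) + (sg b R : ℂ) * gdv (U R) := by
    rw [Finset.sum_range_succ]
  have t9 : ∑ i ∈ Finset.range (R + 1), (2 * Real.pi * I *
      wr (-(sg b i : ℝ) * (a i : ℝ) / 2) ((sg b i : ℂ) * gdv (U i))) =
      -(2 * (Real.pi : ℂ) ^ 2) * ∑ i ∈ Finset.range (R + 1), (sg b i : ℂ) * gdv (U i) -
      2 * (Real.pi : ℂ) ^ 2 * ∑ i ∈ Finset.range (R + 1), (sg b i : ℂ) * gdv (U i) * bRo R b U i -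
      2 * (Real.pi : ℂ) ^ 2 *
        ∑ i ∈ Finset.range (R + 1), (sg b i : ℂ) * gdv (U i) * bLo b U i := by
    rw [Finset.mul_sum, Finset.mul_sum, Finset.mul_sum, ← Finset.sum_sub_distrib,
      ← Finset.sum_sub_distrib]
    refine Finset.sum_congr rfl fun i hi => ?_
    have hv := h.ver i (by have := Finset.mem_range.1 hi; omega)
    have hs : (sg b i : ℂ) ^ 2 = 1 := by
      unfold sg
      split <;> norm_num
    unfold wr
    push_cast
    linear_combination ((sg b i : ℂ) ^ 3 * (-2) * (Real.pi : ℂ) ^ 2 * a i * gdv (U i) ^ 2 +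
      4 * (Real.pi : ℂ) ^ 2 * (sg b i : ℂ) * gdv (U i)) * Complex.I_sq +
      2 * (Real.pi : ℂ) ^ 2 * (a i : ℂ) * (sg b i : ℂ) * gdv (U i) ^ 2 * hs +
      2 * (Real.pi : ℂ) ^ 2 * (sg b i : ℂ) * gdv (U i) * hv
  have t10 : ∑ i ∈ Finset.range R, (if cS a b i (a i + 1) = -om R a b
      then (Real.pi : ℂ) ^ 2 / 2 else 0) = (Real.pi : ℂ) ^ 2 *
      ∑ i ∈ Finset.range R, (if cS a b i (a i + 1) = -om R a b then (1 / 2 : ℂ) else 0) := by
    rw [Finset.mul_sum]
    refine Finset.sum_congr rfl fun i _ => ?_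
    split <;> ring
  have t11 : ∑ i ∈ Finset.range (R + 1), (a i : ℂ) / 2 =
      (∑ i ∈ Finset.range (R + 1), (a i : ℂ)) / 2 := by
    rw [Finset.sum_div]
  rw [← Finset.mul_sum, t8, t6, t7] at t9
  rw [t10] at t5
  rw [t1, t2, t3, t4, first_G, h.last_G]
  unfold WU KK
  rw [t11, Finset.sum_add_distrib]
  push_cast
  linear_combination t5 - t9

/-- **The complex volume of a chain.** -/
theorem CU.main : ∃ Z : ℂ, IsComplexVolume ((List.range (R + 1)).map a) b Z ∧
    Cg Z (2 * Real.pi * I * WU R a b U +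
      (Real.pi : ℂ) ^ 2 / 2 * ∑ i ∈ Finset.range (R + 1), (a i : ℂ)) := by
  have key : ∀ i k, ∃ P Q : ℤ, i ≤ R → k ∈ lay R a i →
      Complex.log (zo b U i k) + P * (Real.pi * I) =
        2 * lgL b (LPo R a b U) (lamo R a b U) i k -
          2 * lgR b (LPo R a b U) (lamo R a b U) i k ∧
      -Complex.log (1 - zo b U i k) + Q * (Real.pi * I) =
        2 * lgR b (LPo R a b U) (lamo R a b U) i k - lamo R a b U i (k - 1) -
          lgN a (lamo R a b U) i k ∧
      Cg (2 * rogers (zo b U i k) P Q) (Tk R a b U i k) := by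
    intro i k
    by_cases hi : i ≤ R ∧ k ∈ lay R a i
    · obtain ⟨P, Q, e⟩ := h.lay_ex hi.1 hi.2
      exact ⟨P, Q, fun _ _ => e⟩
    · exact ⟨0, 0, fun h1 h2 => absurd ⟨h1, h2⟩ hi⟩
  choose P Q hPQ using key
  obtain ⟨Z, hZ, hC⟩ := chain_cvS R a b h.hR h.ha (LPo R a b U) (lamo R a b U) (zo b U) P Q
    lab_first h.lab_last (fun i hi => h.lab_left hi) (fun i hi => h.lab_right hi)
    (fun i k hi hk => by
      refine ⟨h.pos i k hi hk, ?_⟩
      obtain ⟨k1, -, -, -⟩ := (TriS_mem_lay h.ha hi).1 hk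
      obtain ⟨j, rfl⟩ : ∃ j, k = j + 1 := ⟨k - 1, by omega⟩
      exact zsign i j)
    (fun i k hi hk => (hPQ i k hi hk).1) (fun i k hi hk => (hPQ i k hi hk).2.1)
  refine ⟨Z, hZ, hC.trans ?_⟩
  have hs : Cg (∑ i ∈ Finset.range (R + 1), ∑ k ∈ lay R a i, 2 * rogers (zo b U i k) (P i k) (Q i k))
      (∑ i ∈ Finset.range (R + 1), ∑ k ∈ lay R a i, Tk R a b U i k) :=
    Cg.sum _ fun i hi => Cg.sum _ fun k hk =>
      (hPQ i k (by have := Finset.mem_range.1 hi; omega) hk).2.2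
  refine (hs.add (Cg.refl _)).trans ?_
  rw [h.total]
  exact ⟨sg b 0 + sg b R, rfl⟩

end withh

end Pool.Agent.S3.CV
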